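import Mathlib

/-!
Absolute extensors, mirrored spaces and the basic construction (definitions only).
-/

set_option autoImplicit false

open scoped Topology

noncomputable section

namespace Pool.Agent.H75.AX

/-- `Y` is an absolute extensor for metric spaces. -/
def AE (Y : Type) [TopologicalSpace Y] : Prop :=
  ∀ (Z : Type) [MetricSpace Z] (A : Set Z), IsClosed A → ∀ f : A → Y, Continuous f →
    ∃ F : Z → Y, Continuous F ∧ ∀ a : A, F a = f a

/-- A mirrored space with nerve the flag complex of the graph `adj`, all of whose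
intersections of mirrors over cliques are absolute extensors (the empty clique gives the space
itself). -/
structure Mirrored {I K : Type} [TopologicalSpace K] (adj : I → I → Prop) (F : I → Set K) :
    Prop where
  closed : ∀ i, IsClosed (F i)
  adj_of_mem : ∀ i j k, i ≠ j → k ∈ F i → k ∈ F j → adj i j
  ae : ∀ σ : Finset I, (∀ i ∈ σ, ∀ j ∈ σ, i ≠ j → adj i j) → AE ↥(⋂ i ∈ σ, F i)

/-- `X`, with the maps `κ a : K → X` (`a ∈ G`), is the basic construction
`(G × K) / ~` where `(a, k) ~ (b, k)` if `a⁻¹ b` is in the subgroup generated by the `g i` with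
`k ∈ F i`. -/
structure IsBC {I G K X : Type} [Group G] [TopologicalSpace K] [TopologicalSpace X]
    (g : I → G) (F : I → Set K) (κ : G → K → X) : Prop where
  surj : ∀ x, ∃ a k, κ a k = x
  eq_iff : ∀ a b k l, κ a k = κ b l ↔ k = l ∧ a⁻¹ * b ∈ Subgroup.closure (g '' {i | k ∈ F i})
  isOpen_iff : ∀ U : Set X, IsOpen U ↔ ∀ a, IsOpen (κ a ⁻¹' U)

end Pool.Agent.H75.AX
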