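import Pool.Agent.H75.AX.InvA

/-!
The invariant fails for the colouring `B`; the two spaces are not homeomorphic.
-/

set_option autoImplicit false

open scoped Topology

noncomputable section

namespace Pool.Agent.H75.AX

theorem not_fourOdd_B {X : Type} [TopologicalSpace X] [T2Space X] {κ : GG → PP → X}
    (hBC : IsBC (gen colB) Fac κ) (hreg : ∀ a (k : PP), (∀ s, k.1 ≠ spv s) → IsRegPt (κ a k)) :
    ¬ FourOdd X := by
  classical
  rintro ⟨Θ, hΘ, hcard⟩
  set PO : Set E3 := PP \ spv '' Set.univ with hPO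
  have hPOconv : Convex ℝ PO := convex_diff_sp convex_PP subset_rfl _
  have hPOne : ∀ u ∈ PO, ∀ s, u ≠ spv s := fun u hu s h => hu.2 ⟨s, trivial, h.symm⟩
  have hPOof : ∀ u ∈ PP, (∀ s, u ≠ spv s) → u ∈ PO := by
    rintro u hu h
    refine ⟨hu, ?_⟩
    rintro ⟨s, _, hs⟩
    exact h s hs.symm
  have hregPO : ∀ a, ∀ u ∈ PO, IsRegPt (κ a (inP u)) := by
    intro a u hu
    rw [inP_of_mem hu.1]
    exact hreg a _ (hPOne u hu)
  -- lifts on the chambers
  obtain ⟨u0, hu0, hu0a⟩ := exists_interior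
  have hu0PO : u0 ∈ PO := by
    refine hPOof u0 hu0 fun s hs => ?_
    have := spt_mem s 0
    rw [← hs, hu0a] at this
    exact this
  have hcontκ : ∀ a, ContinuousOn (fun u => κ a (inP u)) PO := fun a =>
    (hBC.continuous a).comp_continuousOn (continuousOn_inP.mono fun u hu => hu.1)
  have hlift : ∀ a, ∃ v : E3 → NZ, ContinuousOn v PO ∧ ∀ u ∈ PO, qq (v u) = Θ (κ a (inP u)) := by
    intro a
    refine star_lift (hPOconv.starConvex hu0PO) (Θ := fun u => Θ (κ a (inP u))) ?_
    intro u hu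
    exact ContinuousAt.comp_continuousWithinAt (f := fun u => κ a (inP u)) (g := Θ)
      (hΘ _ (hregPO a u hu)) (hcontκ a u hu)
  choose v hvc hvl using hlift
  -- transport signs
  have hfac : ∀ w : Fin 19, Convex ℝ ({u | u ∈ PP ∧ w ∈ act u} \ spv '' Set.univ) := by
    intro w
    refine convex_diff_sp ?_ (fun u hu => hu.1) _
    intro x hx y hy a b ha hb hab
    refine ⟨convex_PP hx.1 hy.1 ha hb hab, ?_⟩
    change ell w (a • x + b • y) = 0
    have hx' : ell w x = 0 := hx.2
    have hy' : ell w y = 0 := hy.2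
    rw [ell_comb w x y a b hab, hx', hy']
    ring
  have hfacPO : ∀ w : Fin 19, ({u | u ∈ PP ∧ w ∈ act u} \ spv '' Set.univ) ⊆ PO := fun w u hu =>
    ⟨hu.1.1, hu.2⟩
  have hκeq : ∀ a w, ∀ u ∈ PP, w ∈ act u → κ (a * gen colB w) (inP u) = κ a (inP u) := by
    intro a w u hu hw
    rw [inP_of_mem hu]
    exact hBC.mul_gen a w _ hw
  have htex : ∀ a w, ∃ t : ℤˣ, ∀ u ∈ ({u | u ∈ PP ∧ w ∈ act u} \ spv '' Set.univ),
      v (a * gen colB w) u = t • v a u := by
    intro a w
    obtain ⟨u1, hu1, hact⟩ := exists_facet_pt w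
    refine lift_sign (hfac w).isPreconnected ⟨u1, ⟨hu1, by rw [hact]; rfl⟩, ?_⟩
      ((hvc a).mono (hfacPO w)) ((hvc _).mono (hfacPO w)) ?_
    · rintro ⟨s, _, hs⟩
      have h0 := spt_mem s 0
      have h1 := spt_mem s 1
      rw [hs, hact, Set.mem_singleton_iff] at h0 h1
      have h2 := h0.trans h1.symm
      clear hact h0 h1 hs hu1
      revert h2
      revert s; decide +kernel
    · intro u hu
      rw [hvl _ u (hfacPO w hu), hvl a u (hfacPO w hu), hκeq a w u hu.1.1 hu.1.2]
  choose t ht using htex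
  have hgg : ∀ w, gen colB w * gen colB w = 1 := by
    intro w
    exact Prod.ext (G2_sq _) (G12_sq _)
  have htrans : Transport colB t := by
    constructor
    · intro a w
      obtain ⟨u1, hu1, hact⟩ := exists_facet_pt w
      have hmem : u1 ∈ ({u | u ∈ PP ∧ w ∈ act u} \ spv '' Set.univ) := by
        refine ⟨⟨hu1, by rw [hact]; rfl⟩, ?_⟩
        rintro ⟨s, _, hs⟩
        have h0 := spt_mem s 0
        have h1 := spt_mem s 1
        rw [hs, hact, Set.mem_singleton_iff] at h0 h1
        have h2 := h0.trans h1.symm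
        clear hact h0 h1 hs hu1
        revert h2
        revert s; decide +kernel
      have h1 := ht (a * gen colB w) w u1 hmem
      rw [ht a w u1 hmem, mul_assoc, hgg, mul_one, ← mul_smul] at h1
      have h2 := NZ_free h1.symm
      rcases units_cases (t (a * gen colB w) w) with h3 | h3 <;>
        rcases units_cases (t a w) with h4 | h4 <;> simp [h3, h4] at h2 ⊢
    · intro a w w' hww
      obtain ⟨u1, hu1, hact⟩ := exists_edge_pt hww
      have hne : w ≠ w' := by rintro rfl; exact adjP_irrefl _ hww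
      have hnsp : u1 ∉ spv '' Set.univ := by
        rintro ⟨s, _, hs⟩
        have h0 := spt_mem s 0
        have h1 := spt_mem s 1
        have h2 := spt_mem s 2
        rw [hs, hact] at h0 h1 h2
        have h01 : spt s 0 ≠ spt s 1 := by
          clear hs h0 h1 h2; revert s; decide +kernel
        have h02 : spt s 0 ≠ spt s 2 := by
          clear hs h0 h1 h2 h01; revert s; decide +kernel
        have h12 : spt s 1 ≠ spt s 2 := by
          clear hs h0 h1 h2 h01 h02; revert s; decide +kernel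
        rcases h0 with h0 | h0 <;> rcases h1 with h1 | h1 <;> rcases h2 with h2 | h2 <;>
          rw [h0, h1] at h01 <;> rw [h0, h2] at h02 <;> rw [h1, h2] at h12 <;>
          first | exact h01 rfl | exact h02 rfl | exact h12 rfl
      have hm : u1 ∈ ({u | u ∈ PP ∧ w ∈ act u} \ spv '' Set.univ) :=
        ⟨⟨hu1, by rw [hact]; exact Or.inl rfl⟩, hnsp⟩
      have hm' : u1 ∈ ({u | u ∈ PP ∧ w' ∈ act u} \ spv '' Set.univ) :=
        ⟨⟨hu1, by rw [hact]; exact Or.inr rfl⟩, hnsp⟩
      have h1 := ht (a * gen colB w) w' u1 hm'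
      have h2 := ht (a * gen colB w') w u1 hm
      rw [ht a w u1 hm, ← mul_smul] at h1
      rw [ht a w' u1 hm', ← mul_smul] at h2
      rw [mul_assoc, mul_comm (gen colB w), ← mul_assoc, h2] at h1
      have := smul_NZ_cancel h1
      rw [mul_comm (t a w), mul_comm (t a w')]
      exact this.symm
  -- oddness
  have hodd : ∀ s h, OddAt Θ (sp κ s h) ↔ h ∈ Nset colB t s := by
    intro s h
    have hDPO : Dpt s 1 ⊆ PO := fun u hu => hPOof u hu.1.1 (Dpt_ne le_rfl hu)
    rw [odd_iff hBC isClosed_sp s h one_pos Θ (fun e => v (e, h)) (fun e m => t (e, h) (spt s m))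
      (fun e => (hvc _).mono hDPO) (fun e u hu => hvl _ u (hDPO hu)) ?_]
    · unfold Nset
      rw [Finset.mem_filter]
      unfold mu
      rw [gen_cap colB (spt_lt s 0), gen_cap colB (spt_lt s 1), capcol_spt, capcol_spt, one_mul]
      simp
    · intro e m u hu hm
      have h1 := ht (e, h) (spt s m) u ⟨⟨hu.1.1, hm⟩, (hDPO hu).2⟩
      rw [gen_cap colB (spt_lt s m), capcol_spt] at h1
      exact h1
  have hset : {p | ¬ IsRegPt p ∧ OddAt Θ p} =
      (fun x : (_ : Fin 4) × G12 => sp κ x.1 x.2) '' ((Finset.univ : Finset (Fin 4)).sigma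
        fun s => Nset colB t s : Finset ((_ : Fin 4) × G12)) := by
    ext p
    constructor
    · rintro ⟨h1, h2⟩
      obtain ⟨a, k, rfl⟩ := hBC.surj p
      by_cases hk : ∀ s, k.1 ≠ spv s
      · exact absurd (hreg a k hk) h1
      · push Not at hk
        obtain ⟨s, hs⟩ := hk
        have hk' : k = spP s := Subtype.ext hs
        have ha : κ a k = sp κ s a.2 := by
          rw [hk']; exact sp_eq hBC s a.1 a.2
        rw [ha] at h2 ⊢
        refine ⟨⟨s, a.2⟩, ?_, rfl⟩
        rw [Finset.mem_coe, Finset.mem_sigma]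
        exact ⟨Finset.mem_univ _, (hodd s a.2).mp h2⟩
    · rintro ⟨⟨s, h⟩, hmem, rfl⟩
      rw [Finset.mem_coe, Finset.mem_sigma] at hmem
      exact ⟨sp_not_reg hBC s h, (hodd s h).mpr hmem.2⟩
  have hinj : Function.Injective fun x : (_ : Fin 4) × G12 => sp κ x.1 x.2 := by
    rintro ⟨s, h⟩ ⟨s', h'⟩ he
    obtain ⟨h1, h2⟩ := sp_injective hBC he
    subst h1; subst h2; rfl
  rw [hset, Set.ncard_image_of_injective _ hinj, Set.ncard_coe_finset, Finset.card_sigma] at hcard
  exact comb_final htrans hcard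

/-- The two spaces are not homeomorphic. -/
theorem not_homeo {X Y : Type} [TopologicalSpace X] [T2Space X] [TopologicalSpace Y] [T2Space Y]
    {κ : GG → PP → X} {κ' : GG → PP → Y} (hX : IsBC (gen colA) Fac κ) (hY : IsBC (gen colB) Fac κ')
    (hXreg : ∀ a (k : PP), (∀ s, k.1 ≠ spv s) → IsRegPt (κ a k))
    (hYreg : ∀ a (k : PP), (∀ s, k.1 ≠ spv s) → IsRegPt (κ' a k)) : ¬ Nonempty (X ≃ₜ Y) := by
  rintro ⟨e⟩
  exact not_fourOdd_B hY hYreg ((fourOdd_A hX hXreg).homeo e)

end Pool.Agent.H75.AX
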