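import Mathlib
import Pool.Agent.H75.AX.AEDefs

/-!
J1: basic facts on absolute extensors.
-/

set_option autoImplicit false

open scoped Topology InnerProductSpace
open Set

noncomputable section

namespace Pool.Agent.H75.AX

/-- An absolute extensor is nonempty. -/
theorem AE.nonempty {Y : Type} [TopologicalSpace Y] (h : AE Y) : Nonempty Y := by
  obtain ⟨F, -, -⟩ := h PUnit ∅ isClosed_empty (fun a => a.2.elim)
    (by
      have : IsEmpty (∅ : Set PUnit.{1}) := inferInstance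
      exact continuous_of_const (fun x => isEmptyElim x))
  exact ⟨F PUnit.unit⟩

/-- Extension property in terms of `ContinuousOn`. -/
theorem AE.exists_extend {Y : Type} [TopologicalSpace Y] {S : Set Y} (hS : AE S) {Z : Type}
    [MetricSpace Z] {A : Set Z} (hA : IsClosed A) (f : Z → Y) (hf : ContinuousOn f A)
    (hfS : ∀ z ∈ A, f z ∈ S) :
    ∃ g : Z → Y, Continuous g ∧ (∀ z, g z ∈ S) ∧ ∀ z ∈ A, g z = f z := by
  obtain ⟨G, hG, hGe⟩ := hS Z A hA (fun a => ⟨f a, hfS a a.2⟩)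
    (Continuous.subtype_mk (continuousOn_iff_continuous_domRestrict.1 hf) _)
  refine ⟨fun z => (G z : Y), continuous_subtype_val.comp hG, fun z => (G z).2, ?_⟩
  intro z hz
  change (G z : Y) = f z
  rw [hGe ⟨z, hz⟩]

theorem AE.of_extend {Y : Type} [TopologicalSpace Y] {S : Set Y} [Nonempty Y]
    (h : ∀ (Z : Type) [MetricSpace Z] (A : Set Z), IsClosed A → ∀ f : Z → Y, ContinuousOn f A →
      (∀ z ∈ A, f z ∈ S) → ∃ g : Z → Y, Continuous g ∧ (∀ z, g z ∈ S) ∧ ∀ z ∈ A, g z = f z) :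
    AE S := by
  classical
  intro Z _ A hA f hf
  obtain ⟨y⟩ := ‹Nonempty Y›
  let f' : Z → Y := fun z => if hz : z ∈ A then (f ⟨z, hz⟩ : Y) else y
  have hf' : ∀ a : A, f' a = f a := by
    intro a
    simp only [f', a.2, dif_pos]
  have hc : ContinuousOn f' A := by
    rw [continuousOn_iff_continuous_domRestrict]
    have : A.domRestrict f' = fun a => (f a : Y) := by
      funext a
      exact hf' a
    rw [this]
    exact continuous_subtype_val.comp hf
  obtain ⟨g, hg, hgS, hge⟩ := h Z A hA f' hc (by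
    intro z hz
    have := hf' ⟨z, hz⟩
    simp only at this
    rw [this]
    exact (f ⟨z, hz⟩).2)
  refine ⟨fun z => ⟨g z, hgS z⟩, hg.subtype_mk _, ?_⟩
  intro a
  apply Subtype.ext
  simp only
  rw [hge a a.2, hf']

theorem J1_homeo (Y Y' : Type) [TopologicalSpace Y] [TopologicalSpace Y'] (e : Y ≃ₜ Y')
    (h : AE Y) : AE Y' := by
  intro Z _ A hA f hf
  obtain ⟨F, hF, hFe⟩ := h Z A hA (fun a => e.symm (f a)) (e.symm.continuous.comp hf)
  refine ⟨fun z => e (F z), e.continuous.comp hF, ?_⟩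
  intro a
  simp only [hFe a, Homeomorph.apply_symm_apply]

/-! ### Union -/

theorem J1_union (Y : Type) [TopologicalSpace Y] (S T : Set Y) (hS : IsClosed S) (hT : IsClosed T)
    (aS : AE S) (aT : AE T) (aST : AE ↥(S ∩ T)) : AE ↥(S ∪ T) := by
  classical
  have : Nonempty Y := ⟨(aS.nonempty.some : Y)⟩
  apply AE.of_extend
  intro Z _ A hA f hf hfA
  -- the two parts of `A`
  set A1 : Set Z := A ∩ f ⁻¹' S with hA1
  set A2 : Set Z := A ∩ f ⁻¹' T with hA2
  have cA1 : IsClosed A1 := hf.preimage_isClosed_of_isClosed hA hS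
  have cA2 : IsClosed A2 := hf.preimage_isClosed_of_isClosed hA hT
  have hAu : ∀ z ∈ A, z ∈ A1 ∨ z ∈ A2 := by
    intro z hz
    rcases hfA z hz with h | h
    · exact Or.inl ⟨hz, h⟩
    · exact Or.inr ⟨hz, h⟩
  rcases A1.eq_empty_or_nonempty with e1 | n1
  · obtain ⟨g, hg, hgS, hge⟩ := aT.exists_extend hA f hf (by
      intro z hz
      rcases hAu z hz with h | h
      · rw [e1] at h; exact h.elim
      · exact h.2)
    exact ⟨g, hg, fun z => Or.inr (hgS z), hge⟩
  rcases A2.eq_empty_or_nonempty with e2 | n2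
  · obtain ⟨g, hg, hgS, hge⟩ := aS.exists_extend hA f hf (by
      intro z hz
      rcases hAu z hz with h | h
      · exact h.2
      · rw [e2] at h; exact h.elim)
    exact ⟨g, hg, fun z => Or.inl (hgS z), hge⟩
  set Z1 : Set Z := {z | Metric.infDist z A1 ≤ Metric.infDist z A2} with hZ1
  set Z2 : Set Z := {z | Metric.infDist z A2 ≤ Metric.infDist z A1} with hZ2
  have cZ1 : IsClosed Z1 := isClosed_le (Metric.continuous_infDist_pt _)
    (Metric.continuous_infDist_pt _)
  have cZ2 : IsClosed Z2 := isClosed_le (Metric.continuous_infDist_pt _)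
    (Metric.continuous_infDist_pt _)
  have hZu : ∀ z, z ∈ Z1 ∨ z ∈ Z2 := fun z =>
    le_total (Metric.infDist z A1) (Metric.infDist z A2)
  have h1 : ∀ z ∈ A1, z ∈ Z1 := by
    intro z hz
    change Metric.infDist z A1 ≤ Metric.infDist z A2
    rw [Metric.infDist_zero_of_mem hz]
    exact Metric.infDist_nonneg
  have h2 : ∀ z ∈ A2, z ∈ Z2 := by
    intro z hz
    change Metric.infDist z A2 ≤ Metric.infDist z A1
    rw [Metric.infDist_zero_of_mem hz]
    exact Metric.infDist_nonneg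
  have h1' : ∀ z ∈ A, z ∈ Z1 → z ∈ A1 := by
    intro z hz hz1
    rcases hAu z hz with h | h
    · exact h
    · have h0 : Metric.infDist z A1 = 0 := by
        apply le_antisymm _ Metric.infDist_nonneg
        have : Metric.infDist z A1 ≤ Metric.infDist z A2 := hz1
        rwa [Metric.infDist_zero_of_mem h] at this
      exact (cA1.mem_iff_infDist_zero n1).2 h0
  have h2' : ∀ z ∈ A, z ∈ Z2 → z ∈ A2 := by
    intro z hz hz1
    rcases hAu z hz with h | h
    · have h0 : Metric.infDist z A2 = 0 := by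
        apply le_antisymm _ Metric.infDist_nonneg
        have : Metric.infDist z A2 ≤ Metric.infDist z A1 := hz1
        rwa [Metric.infDist_zero_of_mem h] at this
      exact (cA2.mem_iff_infDist_zero n2).2 h0
    · exact h
  -- extend over `Z`, from `A1 ∩ A2`, with values in `S ∩ T`
  obtain ⟨g0, hg0, hg0S, hg0e⟩ := aST.exists_extend (cA1.inter cA2) f
    (hf.mono (fun z hz => hz.1.1)) (fun z hz => ⟨hz.1.2, hz.2.2⟩)
  -- extension to `Z1`
  have key : ∀ (S' : Set Y) (A' Z' : Set Z), IsClosed A' → IsClosed Z' → AE S' →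
      A' ⊆ A → (∀ z ∈ A', f z ∈ S') → (∀ z ∈ Z', g0 z ∈ S') →
      (∀ z ∈ A', z ∈ Z' → g0 z = f z) →
      ∃ g : Z → Y, Continuous g ∧ (∀ z, g z ∈ S') ∧ (∀ z ∈ A', g z = f z) ∧
        ∀ z ∈ Z', g z = g0 z := by
    intro S' A' Z' cA' cZ' aS' hA' hfS' hgS' hfg
    set p : Z → Y := A'.piecewise f g0 with hp
    have hpA : ∀ z ∈ A', p z = f z := fun z hz => A'.piecewise_eq_of_mem f g0 hz
    have hpZ : ∀ z ∈ Z', p z = g0 z := by
      intro z hz
      by_cases hzA : z ∈ A'
      · rw [hpA z hzA, hfg z hzA hz]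
      · exact A'.piecewise_eq_of_notMem f g0 hzA
    have hpc : ContinuousOn p (A' ∪ Z') := by
      apply ContinuousOn.union_of_isClosed _ _ cA' cZ'
      · exact (hf.mono hA').congr hpA
      · exact hg0.continuousOn.congr hpZ
    obtain ⟨g, hg, hgS, hge⟩ := aS'.exists_extend (cA'.union cZ') p hpc (by
      intro z hz
      rcases hz with hz | hz
      · rw [hpA z hz]; exact hfS' z hz
      · rw [hpZ z hz]; exact hgS' z hz)
    refine ⟨g, hg, hgS, ?_, ?_⟩
    · intro z hz
      rw [hge z (Or.inl hz), hpA z hz]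
    · intro z hz
      rw [hge z (Or.inr hz), hpZ z hz]
  obtain ⟨g1, hg1, hg1S, hg1A, hg1Z⟩ := key S A1 (Z1 ∩ Z2) cA1 (cZ1.inter cZ2) aS
    (fun z hz => hz.1) (fun z hz => hz.2) (fun z _ => (hg0S z).1)
    (fun z hz hz' => hg0e z ⟨hz, h2' z hz.1 hz'.2⟩)
  obtain ⟨g2, hg2, hg2S, hg2A, hg2Z⟩ := key T A2 (Z1 ∩ Z2) cA2 (cZ1.inter cZ2) aT
    (fun z hz => hz.1) (fun z hz => hz.2) (fun z _ => (hg0S z).2)
    (fun z hz hz' => hg0e z ⟨h1' z hz.1 hz'.1, hz⟩)
  set g : Z → Y := Z1.piecewise g1 g2 with hg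
  have hgZ1 : ∀ z ∈ Z1, g z = g1 z := fun z hz => Z1.piecewise_eq_of_mem g1 g2 hz
  have hgZ2 : ∀ z ∈ Z2, g z = g2 z := by
    intro z hz
    by_cases hz1 : z ∈ Z1
    · rw [hgZ1 z hz1, hg1Z z ⟨hz1, hz⟩, hg2Z z ⟨hz1, hz⟩]
    · exact Z1.piecewise_eq_of_notMem g1 g2 hz1
  have hgc : ContinuousOn g (Z1 ∪ Z2) := by
    apply ContinuousOn.union_of_isClosed _ _ cZ1 cZ2
    · exact hg1.continuousOn.congr hgZ1
    · exact hg2.continuousOn.congr hgZ2
  have hZuniv : Z1 ∪ Z2 = univ := by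
    ext z
    simpa using hZu z
  rw [hZuniv] at hgc
  refine ⟨g, continuousOn_univ.1 hgc, ?_, ?_⟩
  · intro z
    rcases hZu z with h | h
    · rw [hgZ1 z h]; exact Or.inl (hg1S z)
    · rw [hgZ2 z h]; exact Or.inr (hg2S z)
  · intro z hz
    rcases hAu z hz with h | h
    · rw [hgZ1 z (h1 z h), hg1A z h]
    · rw [hgZ2 z (h2 z h), hg2A z h]

/-! ### Closed convex sets -/

/-- The nearest point projection on a closed convex set is a continuous retraction. -/
theorem exists_retraction {E : Type} [NormedAddCommGroup E] [InnerProductSpace ℝ E]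
    [FiniteDimensional ℝ E] (C : Set E) (hC : Convex ℝ C) (hCc : IsClosed C) (hCn : C.Nonempty) :
    ∃ r : E → E, Continuous r ∧ (∀ x, r x ∈ C) ∧ ∀ x ∈ C, r x = x := by
  have hcomp : IsComplete C := hCc.isComplete
  have hex := exists_norm_eq_iInf_of_complete_convex hCn hcomp hC
  choose r hrC hr using hex
  have hin : ∀ u, ∀ w ∈ C, ⟪u - r u, w - r u⟫_ℝ ≤ 0 := fun u =>
    (norm_eq_iInf_iff_real_inner_le_zero hC (hrC u)).1 (hr u)
  have hlip : ∀ u v, ‖r u - r v‖ ≤ ‖u - v‖ := by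
    intro u v
    have h1 := hin u (r v) (hrC v)
    have h2 := hin v (r u) (hrC u)
    have h3 : ‖r u - r v‖ ^ 2 ≤ ⟪u - v, r u - r v⟫_ℝ := by
      rw [← real_inner_self_eq_norm_sq]
      have e1 : ⟪r u - r v, r u - r v⟫_ℝ - ⟪u - v, r u - r v⟫_ℝ
          = ⟪u - r u, r v - r u⟫_ℝ + ⟪v - r v, r u - r v⟫_ℝ := by
        simp only [inner_sub_left, inner_sub_right]
        ring
      linarith
    have h4 : ⟪u - v, r u - r v⟫_ℝ ≤ ‖u - v‖ * ‖r u - r v‖ := real_inner_le_norm _ _
    by_contra hlt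
    rw [not_le] at hlt
    have hpos : 0 < ‖r u - r v‖ := lt_of_le_of_lt (norm_nonneg _) hlt
    nlinarith
  refine ⟨r, ?_, hrC, ?_⟩
  · have : LipschitzWith 1 r := by
      apply LipschitzWith.of_dist_le_mul
      intro u v
      rw [dist_eq_norm, dist_eq_norm]
      simpa using hlip u v
    exact this.continuous
  · intro x hx
    have h1 := hin x x hx
    rw [real_inner_self_nonpos] at h1
    exact (sub_eq_zero.1 h1).symm

theorem J1_convex (E : Type) [NormedAddCommGroup E] [InnerProductSpace ℝ E]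
    [FiniteDimensional ℝ E] (C : Set E) (hC : Convex ℝ C) (hCc : IsClosed C)
    (hCn : C.Nonempty) : AE C := by
  have : Nonempty E := ⟨hCn.some⟩
  obtain ⟨r, hr, hrC, hre⟩ := exists_retraction C hC hCc hCn
  apply AE.of_extend
  intro Z _ A hA f hf hfA
  have : TietzeExtension E := TietzeExtension.of_tvs ℝ
  obtain ⟨g, hg⟩ := ContinuousMap.exists_restrict_eq hA
    (⟨A.domRestrict f, continuousOn_iff_continuous_domRestrict.1 hf⟩ : C(A, E))
  refine ⟨fun z => r (g z), hr.comp g.continuous, fun z => hrC _, ?_⟩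
  intro z hz
  have : g z = f z := by
    exact congrArg (fun h : C(A, E) => h ⟨z, hz⟩) hg
  change r (g z) = f z
  rw [this, hre _ (hfA z hz)]

end Pool.Agent.H75.AX
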