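import Mathlib
import Pool.Agent.H75.AX.AEDefs
import Pool.Agent.H75.AX.J1

/-!
J4: homotopy equivalence of basic constructions over mirrored spaces with the same nerve.
-/

set_option autoImplicit false

open scoped Topology
open Set

noncomputable section

namespace Pool.Agent.H75.AX

/-- Mirror preserving maps extend: `Z` is a metric space with closed mirrors whose nerve is
contained in the flag complex, `B` is closed in `Z`. -/
theorem exists_mirror_extend {I K' Z : Type} [Fintype I] [MetricSpace K'] [MetricSpace Z]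
    {adj : I → I → Prop} {F' : I → Set K'} (hF' : Mirrored adj F') {FZ : I → Set Z}
    (hcl : ∀ i, IsClosed (FZ i)) (hadj : ∀ i j z, i ≠ j → z ∈ FZ i → z ∈ FZ j → adj i j)
    {B : Set Z} (hB : IsClosed B) (f : Z → K') (hf : ContinuousOn f B)
    (hfF : ∀ z ∈ B, ∀ i, z ∈ FZ i → f z ∈ F' i) :
    ∃ h : Z → K', Continuous h ∧ (∀ z ∈ B, h z = f z) ∧ ∀ z i, z ∈ FZ i → h z ∈ F' i := by
  classical
  -- the partial extensions
  let cl : Finset I → Prop := fun σ => ∀ i ∈ σ, ∀ j ∈ σ, i ≠ j → adj i j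
  let D : Finset (Finset I) → Set Z := fun 𝒮 => B ∪ ⋃ σ ∈ 𝒮, ⋂ i ∈ σ, FZ i
  have hDcl : ∀ 𝒮, IsClosed (D 𝒮) := by
    intro 𝒮
    refine hB.union ?_
    refine isClosed_biUnion_finset ?_
    intro σ _
    exact isClosed_biInter (fun i _ => hcl i)
  let good : Finset (Finset I) → Prop := fun 𝒮 => ∃ h : Z → K', ContinuousOn h (D 𝒮) ∧
    (∀ z ∈ B, h z = f z) ∧ ∀ z ∈ D 𝒮, ∀ i, z ∈ FZ i → h z ∈ F' i
  have hgood0 : good ∅ := by
    refine ⟨f, ?_, fun z _ => rfl, ?_⟩
    · simpa [D] using hf
    · simpa [D] using hfF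
  -- a good set with the maximal number of elements
  have hfin : (Finset.univ.filter good).Nonempty := ⟨∅, by simp [hgood0]⟩
  obtain ⟨𝒮, h𝒮, hmax⟩ := Finset.exists_max_image (Finset.univ.filter good) Finset.card hfin
  rw [Finset.mem_filter] at h𝒮
  have hgood := h𝒮.2
  -- it contains all the cliques
  have hall : ∀ σ, cl σ → σ ∈ 𝒮 := by
    by_contra hcon
    push Not at hcon
    obtain ⟨σ0, hσ0, hσ0'⟩ := hcon
    have hne : (Finset.univ.filter (fun σ => cl σ ∧ σ ∉ 𝒮)).Nonempty := ⟨σ0, by simp [hσ0, hσ0']⟩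
    obtain ⟨σ, hσ, hσmax⟩ := Finset.exists_max_image _ Finset.card hne
    rw [Finset.mem_filter] at hσ
    obtain ⟨-, hσcl, hσ𝒮⟩ := hσ
    have hbig : ∀ τ, cl τ → σ.card < τ.card → τ ∈ 𝒮 := by
      intro τ hτ hlt
      by_contra hτ'
      have := hσmax τ (by simp [hτ, hτ'])
      omega
    obtain ⟨h, hh, hhB, hhF⟩ := hgood
    set Zσ : Set Z := ⋂ i ∈ σ, FZ i with hZσ
    have cZσ : IsClosed Zσ := isClosed_biInter (fun i _ => hcl i)
    obtain ⟨g, hg, hgF, hge⟩ := (hF'.ae σ hσcl).exists_extend ((hDcl 𝒮).inter cZσ) h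
      (hh.mono inter_subset_left) (by
        intro z hz
        simp only [mem_iInter]
        intro i hi
        apply hhF z hz.1
        have := hz.2
        simp only [hZσ, mem_iInter] at this
        exact this i hi)
    have hins : good (insert σ 𝒮) := by
      have hDi : D (insert σ 𝒮) = D 𝒮 ∪ Zσ := by
        ext z
        simp only [D, mem_union, mem_iUnion, Finset.mem_insert, hZσ]
        constructor
        · rintro (h | ⟨τ, (rfl | hτ), h⟩)
          · exact Or.inl (Or.inl h)
          · exact Or.inr h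
          · exact Or.inl (Or.inr ⟨τ, hτ, h⟩)
        · rintro ((h | ⟨τ, hτ, h⟩) | h)
          · exact Or.inl h
          · exact Or.inr ⟨τ, Or.inr hτ, h⟩
          · exact Or.inr ⟨σ, Or.inl rfl, h⟩
      have hpA : ∀ z ∈ D 𝒮, (D 𝒮).piecewise h g z = h z :=
        fun z hz => (D 𝒮).piecewise_eq_of_mem h g hz
      have hpZ : ∀ z ∈ Zσ, (D 𝒮).piecewise h g z = g z := by
        intro z hz
        by_cases hzA : z ∈ D 𝒮
        · rw [hpA z hzA, hge z ⟨hzA, hz⟩]
        · exact (D 𝒮).piecewise_eq_of_notMem h g hzA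
      refine ⟨(D 𝒮).piecewise h g, ?_, ?_, ?_⟩
      · rw [hDi]
        apply ContinuousOn.union_of_isClosed _ _ (hDcl 𝒮) cZσ
        · exact hh.congr hpA
        · exact hg.continuousOn.congr hpZ
      · intro z hz
        rw [hpA z (Or.inl hz), hhB z hz]
      · intro z hz i hi
        by_cases hzA : z ∈ D 𝒮
        · rw [hpA z hzA]
          exact hhF z hzA i hi
        · have hzσ : z ∈ Zσ := by
            rw [hDi] at hz
            exact hz.resolve_left hzA
          have hzσ' : ∀ j ∈ σ, z ∈ FZ j := by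
            have := hzσ
            simp only [hZσ, mem_iInter] at this
            exact this
          rw [hpZ z hzσ]
          have hiσ : i ∈ σ := by
            by_contra hiσ
            apply hzA
            have hcli : cl (insert i σ) := by
              intro a ha b hb hab
              rw [Finset.mem_insert] at ha hb
              rcases ha with rfl | ha
              · rcases hb with rfl | hb
                · exact absurd rfl hab
                · exact hadj _ _ z hab hi (hzσ' b hb)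
              · rcases hb with rfl | hb
                · exact hadj _ _ z hab (hzσ' a ha) hi
                · exact hσcl a ha b hb hab
            have hmem := hbig (insert i σ) hcli (by
              rw [Finset.card_insert_of_notMem hiσ]
              omega)
            refine Or.inr ?_
            simp only [mem_iUnion]
            refine ⟨insert i σ, hmem, ?_⟩
            simp only [mem_iInter, Finset.mem_insert]
            rintro j (rfl | hj)
            · exact hi
            · exact hzσ' j hj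
          have := hgF z
          simp only [mem_iInter] at this
          exact this i hiσ
    have := hmax (insert σ 𝒮) (by simp [hins])
    rw [Finset.card_insert_of_notMem hσ𝒮] at this
    omega
  obtain ⟨h, hh, hhB, hhF⟩ := hgood
  have huniv : D 𝒮 = univ := by
    apply eq_univ_of_forall
    intro z
    refine Or.inr ?_
    simp only [mem_iUnion]
    exact ⟨∅, hall ∅ (by simp [cl]), by simp⟩
  rw [huniv] at hh hhF
  exact ⟨h, continuousOn_univ.1 hh, hhB, fun z i hi => hhF z (mem_univ z) i hi⟩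

/-- The map of basic constructions induced by a mirror preserving map. -/
theorem exists_bc_map {I G K K' X X' : Type} [Group G] [TopologicalSpace K] [TopologicalSpace K']
    [TopologicalSpace X] [TopologicalSpace X'] {g : I → G} {F : I → Set K} {F' : I → Set K'}
    {κ : G → K → X} {κ' : G → K' → X'} (hX : IsBC g F κ) (hX' : IsBC g F' κ')
    {T : Type} [TopologicalSpace T] [LocallyCompactSpace T]
    (f : K × T → K') (hf : Continuous f) (hfF : ∀ k t i, k ∈ F i → f (k, t) ∈ F' i) :
    ∃ Φ : X × T → X', Continuous Φ ∧ ∀ a k t, Φ (κ a k, t) = κ' a (f (k, t)) := by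
  classical
  have hκ' : ∀ a, Continuous (κ' a) := by
    intro a
    rw [continuous_def]
    intro U hU
    exact (hX'.isOpen_iff U).1 hU a
  have hwd : ∀ a b k l t, κ a k = κ b l → κ' a (f (k, t)) = κ' b (f (l, t)) := by
    intro a b k l t h
    rw [hX.eq_iff] at h
    obtain ⟨rfl, h⟩ := h
    rw [hX'.eq_iff]
    refine ⟨rfl, ?_⟩
    refine Subgroup.closure_mono ?_ h
    apply image_mono
    intro i hi
    exact hfF k t i hi
  choose A L hAL using hX.surj
  let Φ : X × T → X' := fun p => κ' (A p.1) (f (L p.1, p.2))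
  have hΦ : ∀ a k t, Φ (κ a k, t) = κ' a (f (k, t)) := by
    intro a k t
    exact hwd _ _ _ _ t (hAL (κ a k))
  refine ⟨Φ, ?_, hΦ⟩
  -- the quotient map
  let q : (Σ _ : G, K) → X := fun p => κ p.1 p.2
  have hq : Topology.IsQuotientMap q := by
    rw [Topology.isQuotientMap_iff]
    refine ⟨?_, ?_⟩
    · rw [Topology.isCoinducing_iff]
      intro U
      rw [hX.isOpen_iff, isOpen_sigma_iff]
      rfl
    · intro x
      obtain ⟨a, k, rfl⟩ := hX.surj x
      exact ⟨⟨a, k⟩, rfl⟩
  apply hq.continuous_lift_prod_left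
  have : (fun p : (Σ _ : G, K) × T => Φ (q p.1, p.2)) =
      fun p : (Σ _ : G, K) × T => κ' p.1.1 (f (p.1.2, p.2)) := by
    funext p
    exact hΦ _ _ _
  rw [this]
  -- continuity on the product of a sigma type
  rw [continuous_iff_continuousAt]
  rintro ⟨⟨a, k⟩, t⟩
  have hopen : IsOpen {p : (Σ _ : G, K) × T | p.1.1 = a} := by
    have h1 : IsOpen {p : (Σ _ : G, K) | p.1 = a} := by
      rw [isOpen_sigma_iff]
      intro b
      by_cases hb : b = a
      · have : (Sigma.mk b ⁻¹' {p : (Σ _ : G, K) | p.1 = a}) = univ := by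
          ext x; simp [hb]
        rw [this]; exact isOpen_univ
      · have : (Sigma.mk b ⁻¹' {p : (Σ _ : G, K) | p.1 = a}) = ∅ := by
          ext x; simp [hb]
        rw [this]; exact isOpen_empty
    exact h1.preimage continuous_fst
  have hc : Continuous fun p : (Σ _ : G, K) × T => κ' a (f (p.1.2, p.2)) := by
    apply (hκ' a).comp
    apply hf.comp
    refine Continuous.prodMk ?_ continuous_snd
    have : Continuous fun p : (Σ _ : G, K) => p.2 := by
      rw [continuous_sigma_iff]
      intro b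
      exact continuous_id
    exact this.comp continuous_fst
  refine hc.continuousAt.congr ?_
  filter_upwards [hopen.mem_nhds (by simp : ((⟨a, k⟩, t) : (Σ _ : G, K) × T) ∈
    {p : (Σ _ : G, K) × T | p.1.1 = a})] with p hp
  have hp' : p.1.1 = a := hp
  rw [hp']

theorem J4 (I G K K' X X' : Type) [Fintype I] [Group G] [MetricSpace K] [CompactSpace K]
    [MetricSpace K'] [CompactSpace K'] [TopologicalSpace X] [TopologicalSpace X']
    (adj : I → I → Prop) (g : I → G) (F : I → Set K) (F' : I → Set K') (κ : G → K → X)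
    (κ' : G → K' → X') (_symm : ∀ i j, adj i j → adj j i) (_irr : ∀ i, ¬ adj i i)
    (hF : Mirrored adj F) (hF' : Mirrored adj F') (hX : IsBC g F κ) (hX' : IsBC g F' κ') :
    Nonempty (ContinuousMap.HomotopyEquiv X X') := by
  classical
  -- existence of mirror maps
  have ex : ∀ {K1 K2 : Type} [MetricSpace K1] [MetricSpace K2] {F1 : I → Set K1}
      {F2 : I → Set K2}, Mirrored adj F1 → Mirrored adj F2 →
      ∃ f : K1 → K2, Continuous f ∧ ∀ k i, k ∈ F1 i → f k ∈ F2 i := by
    intro K1 K2 _ _ F1 F2 h1 h2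
    have hn : Nonempty K2 := by
      have := (h2.ae ∅ (by simp)).nonempty
      exact ⟨(this.some : K2)⟩
    obtain ⟨f, hf, -, hfF⟩ := exists_mirror_extend h2 h1.closed h1.adj_of_mem
      (B := (∅ : Set K1)) isClosed_empty (fun _ => hn.some) (continuousOn_empty _)
      (fun z hz => hz.elim)
    exact ⟨f, hf, hfF⟩
  -- homotopies of mirror maps
  have hom : ∀ {K1 : Type} [MetricSpace K1] {F1 : I → Set K1}, Mirrored adj F1 →
      ∀ f : K1 → K1, Continuous f → (∀ k i, k ∈ F1 i → f k ∈ F1 i) →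
      ∃ H : K1 × unitInterval → K1, Continuous H ∧ (∀ k, H (k, 0) = f k) ∧
        (∀ k, H (k, 1) = k) ∧ ∀ k t i, k ∈ F1 i → H (k, t) ∈ F1 i := by
    intro K1 _ F1 h1 f hf hfF
    have c0 : IsClosed {p : K1 × unitInterval | p.2 = 0} :=
      isClosed_eq continuous_snd continuous_const
    have c1 : IsClosed {p : K1 × unitInterval | p.2 = 1} :=
      isClosed_eq continuous_snd continuous_const
    let φ : K1 × unitInterval → K1 := fun p => if p.2 = 0 then f p.1 else p.1
    have hφ0 : ∀ p ∈ {p : K1 × unitInterval | p.2 = 0}, φ p = f p.1 := by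
      intro p hp
      simp only [mem_ofPred_eq] at hp
      simp only [φ, hp, if_true]
    have hφ1 : ∀ p ∈ {p : K1 × unitInterval | p.2 = 1}, φ p = p.1 := by
      intro p hp
      simp only [mem_ofPred_eq] at hp
      simp only [φ, hp, one_ne_zero, if_false]
    obtain ⟨H, hH, hHe, hHF⟩ := exists_mirror_extend (FZ := fun i => Prod.fst ⁻¹' F1 i) h1
      (fun i => (h1.closed i).preimage continuous_fst)
      (fun i j z hij hi hj => h1.adj_of_mem i j z.1 hij hi hj)
      (c0.union c1) φ (by
        apply ContinuousOn.union_of_isClosed _ _ c0 c1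
        · exact (hf.comp continuous_fst).continuousOn.congr hφ0
        · exact continuous_fst.continuousOn.congr hφ1) (by
        intro z hz i hi
        rcases hz with hz | hz
        · rw [hφ0 z hz]; exact hfF _ _ hi
        · rw [hφ1 z hz]; exact hi)
    refine ⟨H, hH, ?_, ?_, ?_⟩
    · intro k
      rw [hHe (k, 0) (Or.inl rfl), hφ0 _ rfl]
    · intro k
      rw [hHe (k, 1) (Or.inr rfl), hφ1 _ rfl]
    · intro k t i hi
      exact hHF (k, t) i hi
  -- induced maps
  have ind : ∀ {K1 K2 X1 X2 : Type} [MetricSpace K1] [MetricSpace K2] [TopologicalSpace X1]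
      [TopologicalSpace X2] {F1 : I → Set K1} {F2 : I → Set K2} {κ1 : G → K1 → X1}
      {κ2 : G → K2 → X2}, IsBC g F1 κ1 → IsBC g F2 κ2 →
      ∀ f : K1 → K2, Continuous f → (∀ k i, k ∈ F1 i → f k ∈ F2 i) →
      ∃ Φ : X1 → X2, Continuous Φ ∧ ∀ a k, Φ (κ1 a k) = κ2 a (f k) := by
    intro K1 K2 X1 X2 _ _ _ _ F1 F2 κ1 κ2 h1 h2 f hf hfF
    obtain ⟨Φ, hΦ, hΦe⟩ := exists_bc_map h1 h2 (T := PUnit) (fun p => f p.1)
      (hf.comp continuous_fst) (fun k t i hi => hfF k i hi)
    exact ⟨fun x => Φ (x, PUnit.unit), hΦ.comp (by fun_prop), fun a k => hΦe a k _⟩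
  obtain ⟨f, hf, hfF⟩ := ex hF hF'
  obtain ⟨f', hf', hfF'⟩ := ex hF' hF
  obtain ⟨Φ, hΦ, hΦe⟩ := ind hX hX' f hf hfF
  obtain ⟨Φ', hΦ', hΦe'⟩ := ind hX' hX f' hf' hfF'
  -- the compositions are homotopic to the identity
  have htp : ∀ {K1 X1 : Type} [MetricSpace K1] [TopologicalSpace X1] {F1 : I → Set K1}
      {κ1 : G → K1 → X1}, Mirrored adj F1 → IsBC g F1 κ1 → ∀ h : K1 → K1, Continuous h →
      (∀ k i, k ∈ F1 i → h k ∈ F1 i) → ∀ Ψ : C(X1, X1), (∀ a k, Ψ (κ1 a k) = κ1 a (h k)) →
      Ψ.Homotopic (ContinuousMap.id X1) := by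
    intro K1 X1 _ _ F1 κ1 hM hB h hh hhF Ψ hΨ
    obtain ⟨H, hH, hH0, hH1, hHF⟩ := hom hM h hh hhF
    obtain ⟨Θ, hΘ, hΘe⟩ := exists_bc_map hB hB H hH hHF
    refine ⟨⟨⟨fun p => Θ (p.2, p.1), hΘ.comp (by fun_prop)⟩, ?_, ?_⟩⟩
    · intro x
      obtain ⟨a, k, rfl⟩ := hB.surj x
      change Θ (κ1 a k, 0) = Ψ (κ1 a k)
      rw [hΘe, hH0, hΨ]
    · intro x
      obtain ⟨a, k, rfl⟩ := hB.surj x
      change Θ (κ1 a k, 1) = κ1 a k
      rw [hΘe, hH1]
  refine ⟨⟨⟨Φ, hΦ⟩, ⟨Φ', hΦ'⟩, ?_, ?_⟩⟩
  · apply htp hF hX (f' ∘ f) (hf'.comp hf) (fun k i hi => hfF' _ _ (hfF _ _ hi))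
    intro a k
    change Φ' (Φ (κ a k)) = _
    rw [hΦe, hΦe']
    rfl
  · apply htp hF' hX' (f ∘ f') (hf.comp hf') (fun k i hi => hfF _ _ (hfF' _ _ hi))
    intro a k
    change Φ (Φ' (κ' a k)) = _
    rw [hΦe', hΦe]
    rfl

end Pool.Agent.H75.AX
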