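import Pool.Agent.H75.AX.Odd

/-!
The mirrors of the contractible piece `K` and their adjacency (definitions only).
-/

set_option autoImplicit false

open scoped Topology

noncomputable section

namespace Pool.Agent.H75.AX

/-- The subgroup of `G2` generated by the colours of the caps adjacent to the facet `v`. -/
def capsub (v : Fin 19) : Subgroup G2 :=
  Subgroup.closure {e | ∃ w : Fin 19, w.val < 6 ∧ adjP w v ∧ capcol w = e}

/-- The mirrors: a facet `v` which is not a cap, and a coset of `capsub v` in `G2`. -/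
def Mir : Type :=
  {p : Fin 19 × Set G2 // ¬ p.1.val < 6 ∧ ∃ e : G2, p.2 = {x | e⁻¹ * x ∈ capsub p.1}}

/-- The facet of a mirror. -/
def Mir.lab (i : Mir) : Fin 19 := i.1.1

/-- The chambers of a mirror. -/
def Mir.cls (i : Mir) : Set G2 := i.1.2

/-- Adjacency of mirrors. -/
def adjI (i j : Mir) : Prop := adjP i.lab j.lab ∧ (i.cls ∩ j.cls).Nonempty

/-- Module K. -/
def SpecK : Prop := ∀ (col : Fin 19 → Fin 12) (X : Type) [MetricSpace X] [CompactSpace X]
  (κ : GG → PP → X), IsBC (gen col) Fac κ →
  ∃ (K : Set X) (F : Mir → Set K) (κ' : G12 → K → X), IsCompact K ∧ Mirrored adjI F ∧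
    IsBC (fun i : Mir => ee (col i.lab)) F κ'

end Pool.Agent.H75.AX
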