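import Pool.Agent.H75.AX.Mfd3
import Pool.Agent.H75.AX.InvB
import Pool.Agent.H75.AX.MirDefs
import Pool.Agent.H75.AX.J4
import Pool.Agent.H88.AX.Asph

/-!
Assembly: the two spaces are homotopy equivalent, aspherical and not homeomorphic.
-/

set_option autoImplicit false

open scoped Topology

noncomputable section

namespace Pool.Agent.H75.AX

/-! ### Length spaces are path connected -/

theorem pathConnected_of_length {X : Type} [MetricSpace X] [Nonempty X] (h : IsLengthSpace X) :
    PathConnectedSpace X := by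
  refine ⟨inferInstance, fun x y => ?_⟩
  obtain ⟨l, hl, -, c, hc, h0, h1⟩ := h x y 1 one_pos
  have hpc : IsPathConnected (c '' Set.Icc 0 l) :=
    ((convex_Icc (0 : ℝ) l).isPathConnected ⟨0, le_rfl, hl⟩).image' hc.continuousOn
  have hx : x ∈ c '' Set.Icc 0 l := ⟨0, ⟨le_rfl, hl⟩, h0⟩
  have hy : y ∈ c '' Set.Icc 0 l := ⟨l, ⟨hl, le_rfl⟩, h1⟩
  exact (hpc.joinedIn x hx y hy).joined

/-! ### Mirrors -/

instance : Finite Mir := by
  unfold Mir
  infer_instance

theorem adjI_symm (i j : Mir) (h : adjI i j) : adjI j i :=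
  ⟨adjP_symm _ _ h.1, by rw [Set.inter_comm]; exact h.2⟩

theorem adjI_irrefl (i : Mir) : ¬ adjI i i := fun h => adjP_irrefl _ h.1

theorem lab_ge (i : Mir) : ¬ i.lab.val < 6 := i.2.1

theorem exists_mir (v : Fin 19) (hv : ¬ v.val < 6) : ∃ i : Mir, i.lab = v :=
  ⟨⟨(v, {x | (1 : G2)⁻¹ * x ∈ capsub v}), hv, 1, rfl⟩, rfl⟩

theorem prod_ne {col : Fin 19 → Fin 12} (hcol : GoodCol col) (l : List Mir) (_ : l.Nodup)
    (hp : l.Pairwise adjI) (h : (l.map fun i => ee (col i.lab)).prod = 1) : l = [] := by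
  cases l with
  | nil => rfl
  | cons i l =>
    exfalso
    rw [List.map_cons, List.prod_cons] at h
    have h1 := congrFun h (col i.lab)
    rw [Pi.mul_apply, ee_same] at h1
    have h2 : (l.map fun j => ee (col j.lab)).prod (col i.lab) = 1 := by
      have h3 : ∀ l' : List Mir, (∀ j ∈ l', adjI i j) →
          (l'.map fun j => ee (col j.lab)).prod (col i.lab) = 1 := by
        intro l'
        induction l' with
        | nil => intro _; rfl
        | cons j l' ih =>
          intro hj
          rw [List.map_cons, List.prod_cons, Pi.mul_apply,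
            ih fun k hk => hj k (List.mem_cons_of_mem _ hk), mul_one]
          refine ee_ne ?_
          exact hcol.ne _ _ (lab_ge i) (lab_ge j) (hj j List.mem_cons_self).1
      exact h3 l (List.pairwise_cons.mp hp).1
    rw [h2, mul_one, Pi.one_apply] at h1
    exact absurd h1 (by decide)

theorem closure_range_ee {col : Fin 19 → Fin 12} (hcol : GoodCol col) :
    Subgroup.closure (Set.range fun i : Mir => ee (col i.lab)) = ⊤ := by
  rw [eq_top_iff]
  intro h _
  rw [← Finset.univ_prod_mulSingle h]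
  refine Subgroup.prod_mem _ fun c _ => ?_
  rcases units_cases (h c) with h1 | h1
  · rw [h1, Pi.mulSingle_one]; exact Subgroup.one_mem _
  · rw [h1]
    obtain ⟨v, hv, hvc⟩ := hcol.surj c
    obtain ⟨i, hi⟩ := exists_mir v hv
    refine Subgroup.subset_closure ⟨i, ?_⟩
    change ee (col i.lab) = _
    rw [hi, hvc]; rfl

/-! ### The symmetry of the mirror structure -/

/-- Rotation of the facets by a half turn. -/
def rot : Fin 19 → Fin 19 :=
  ![0, 1, 2, 3, 4, 5, 6, 13, 14, 15, 16, 17, 18, 7, 8, 9, 10, 11, 12]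

theorem rot_rot : ∀ v, rot (rot v) = v := by decide +kernel

theorem rot_ge : ∀ v : Fin 19, ¬ v.val < 6 → ¬ (rot v).val < 6 := by decide +kernel

theorem rot_adj : ∀ v w : Fin 19, ¬ v.val < 6 → ¬ w.val < 6 → (adjP (rot v) (rot w) ↔ adjP v w) := by
  decide +kernel

theorem rot_col : ∀ v : Fin 19, ¬ v.val < 6 → colB (rot v) = colA v := by decide +kernel

theorem rot_cap : ∀ v : Fin 19, ¬ v.val < 6 → ∀ e : G2,
    (∃ w : Fin 19, w.val < 6 ∧ adjP w (rot v) ∧ capcol w = e) ↔
    (∃ w : Fin 19, w.val < 6 ∧ adjP w v ∧ capcol w = e) := by decide +kernel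

theorem capsub_rot {v : Fin 19} (hv : ¬ v.val < 6) : capsub (rot v) = capsub v := by
  unfold capsub
  congr 1
  ext e
  exact rot_cap v hv e

/-- The symmetry of the set of mirrors. -/
def rotM (i : Mir) : Mir := ⟨(rot i.lab, i.cls), rot_ge _ (lab_ge i), by
  obtain ⟨e, he⟩ := i.2.2
  refine ⟨e, ?_⟩
  change i.1.2 = _
  rw [he, capsub_rot (lab_ge i)]
  rfl⟩

theorem rotM_lab (i : Mir) : (rotM i).lab = rot i.lab := rfl

theorem rotM_cls (i : Mir) : (rotM i).cls = i.cls := rfl

theorem rotM_rotM (i : Mir) : rotM (rotM i) = i := by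
  apply Subtype.ext
  refine Prod.ext ?_ rfl
  exact rot_rot i.lab

theorem adjI_rotM (i j : Mir) : adjI (rotM i) (rotM j) ↔ adjI i j := by
  unfold adjI
  rw [rotM_lab, rotM_lab, rotM_cls, rotM_cls, rot_adj _ _ (lab_ge i) (lab_ge j)]

theorem mirrored_rot {K : Type} [TopologicalSpace K] {F : Mir → Set K} (h : Mirrored adjI F) :
    Mirrored adjI (fun i => F (rotM i)) := by
  classical
  refine ⟨fun i => h.closed _, fun i j k hij hi hj => ?_, fun σ hσ => ?_⟩
  · rw [← adjI_rotM]
    refine h.adj_of_mem _ _ k (fun he => hij ?_) hi hj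
    rw [← rotM_rotM i, he, rotM_rotM]
  · have h1 := h.ae (σ.image rotM) (by
      intro i hi j hj hij
      obtain ⟨i', hi', rfl⟩ := Finset.mem_image.mp hi
      obtain ⟨j', hj', rfl⟩ := Finset.mem_image.mp hj
      rw [adjI_rotM]
      exact hσ i' hi' j' hj' fun he => hij (by rw [he]))
    have h2 : (⋂ i ∈ σ.image rotM, F i) = ⋂ i ∈ σ, F (rotM i) := by
      ext x
      simp
    rw [h2] at h1
    exact h1

theorem isBC_rot {K X : Type} [TopologicalSpace K] [TopologicalSpace X] {F : Mir → Set K}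
    {κ : G12 → K → X} (h : IsBC (fun i : Mir => ee (colB i.lab)) F κ) :
    IsBC (fun i : Mir => ee (colA i.lab)) (fun i => F (rotM i)) κ := by
  refine ⟨h.surj, fun a b k l => ?_, h.isOpen_iff⟩
  rw [h.eq_iff]
  have : (fun i : Mir => ee (colB i.lab)) '' {i | k ∈ F i} =
      (fun i : Mir => ee (colA i.lab)) '' {i | k ∈ F (rotM i)} := by
    ext x
    constructor
    · rintro ⟨i, hi, rfl⟩
      refine ⟨rotM i, ?_, ?_⟩
      · change k ∈ F (rotM (rotM i))
        rw [rotM_rotM]; exact hi
      · change ee (colA (rot i.lab)) = ee (colB i.lab)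
        rw [← rot_col _ (rot_ge _ (lab_ge i)), rot_rot]
    · rintro ⟨i, hi, rfl⟩
      refine ⟨rotM i, hi, ?_⟩
      change ee (colB (rot i.lab)) = ee (colA i.lab)
      rw [rot_col _ (lab_ge i)]
  rw [this]

/-! ### The main theorem -/

theorem aspherical_of {col : Fin 19 → Fin 12} (hcol : GoodCol col) {X : Type} [MetricSpace X]
    (hX : IsClosedAlexandrov3 X) {K : Set X} (hK : IsCompact K) {F : Mir → Set K}
    {κ' : G12 → K → X} (hF : Mirrored adjI F) (hBC : IsBC (fun i : Mir => ee (col i.lab)) F κ') :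
    IsAspherical X := by
  have := hX.connected
  have : Nonempty X := inferInstance
  have : CompactSpace K := isCompact_iff_compactSpace.mp hK
  have : Fintype Mir := Fintype.ofFinite _
  refine ⟨pathConnected_of_length hX.length, ?_⟩
  intro n hn x
  exact Pool.Agent.H88.AX.j3 Mir G12 K X adjI (fun i => ee (col i.lab)) F κ' adjI_symm adjI_irrefl
    (fun i => ee_sq _) (fun i j _ => mul_comm _ _) (prod_ne hcol) (closure_range_ee hcol) hF hBC n hn x

theorem target_of (hJ5 : Spec.J5) (hJ6 : Spec.J6) (hK : SpecK) : Target := by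
  obtain ⟨X, mX, κ, hX, hBCX, hregX⟩ := exists_space hJ5 hJ6 goodCol_A
  obtain ⟨Y, mY, κ', hY, hBCY, hregY⟩ := exists_space hJ5 hJ6 goodCol_B
  have := hX.compact
  have := hY.compact
  obtain ⟨KX, FX, κX, cX, MX, BX⟩ := hK colA X κ hBCX
  obtain ⟨KY, FY, κY, cY, MY, BY⟩ := hK colB Y κ' hBCY
  refine ⟨X, Y, mX, mY, hX, hY, aspherical_of goodCol_A hX cX MX BX,
    aspherical_of goodCol_B hY cY MY BY, ?_, not_homeo hBCX hBCY hregX hregY⟩
  have : CompactSpace KX := isCompact_iff_compactSpace.mp cX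
  have : CompactSpace KY := isCompact_iff_compactSpace.mp cY
  have : Fintype Mir := Fintype.ofFinite _
  exact J4 Mir G12 KX KY X Y adjI (fun i => ee (colA i.lab)) FX (fun i => FY (rotM i)) κX κY
    adjI_symm adjI_irrefl MX (mirrored_rot MY) BX (isBC_rot BY)

end Pool.Agent.H75.AX
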