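import Pool.Agent.H75.AX.AEDefs

/-!
General lemmas on basic constructions.
-/

set_option autoImplicit false

open scoped Topology

noncomputable section

namespace Pool.Agent.H75.AX

variable {I G K X : Type} [Group G] [TopologicalSpace K] [TopologicalSpace X]
  {g : I → G} {F : I → Set K} {κ : G → K → X}

namespace IsBC

theorem continuous (h : IsBC g F κ) (a : G) : Continuous (κ a) :=
  continuous_def.mpr fun U hU => (h.isOpen_iff U).mp hU a

theorem mul_mem (h : IsBC g F κ) (a b : G) (k : K)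
    (hb : b ∈ Subgroup.closure (g '' {i | k ∈ F i})) : κ (a * b) k = κ a k := by
  rw [h.eq_iff]
  refine ⟨rfl, ?_⟩
  have : (a * b)⁻¹ * a = b⁻¹ := by group
  rw [this]
  exact Subgroup.inv_mem _ hb

theorem mul_gen (h : IsBC g F κ) (a : G) (i : I) (k : K) (hk : k ∈ F i) :
    κ (a * g i) k = κ a k :=
  h.mul_mem a (g i) k (Subgroup.subset_closure ⟨i, hk, rfl⟩)

theorem surjective_uncurry (h : IsBC g F κ) (x : X) : ∃ p : G × K, κ p.1 p.2 = x := by
  obtain ⟨a, k, hak⟩ := h.surj x
  exact ⟨(a, k), hak⟩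

/-- Gluing functions defined on the chambers. -/
theorem glue {Z : Type} [TopologicalSpace Z] [Nonempty Z] (h : IsBC g F κ) {W : Set X}
    (hW : IsOpen W) (φ : G → K → Z) (hφ : ∀ a, ContinuousOn (φ a) (κ a ⁻¹' W))
    (hcomp : ∀ a i k, k ∈ F i → κ a k ∈ W → φ (a * g i) k = φ a k) :
    ∃ f : X → Z, ContinuousOn f W ∧ ∀ a k, κ a k ∈ W → f (κ a k) = φ a k := by
  classical
  choose p hp using h.surjective_uncurry
  have hstep : ∀ k, ∀ b ∈ Subgroup.closure (g '' {i | k ∈ F i}), ∀ a, κ a k ∈ W →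
      φ (a * b) k = φ a k := by
    intro k b hb
    induction hb using Subgroup.closure_induction with
    | mem x hx =>
      obtain ⟨i, hi, rfl⟩ := hx
      exact fun a ha => hcomp a i k hi ha
    | one => intro a _; rw [mul_one]
    | mul x y hx hy ihx ihy =>
      intro a ha
      rw [← mul_assoc, ihy (a * x) (by rw [h.mul_mem a x k hx]; exact ha), ihx a ha]
    | inv x hx ih =>
      intro a ha
      have := ih (a * x⁻¹) (by rw [h.mul_mem a _ k (Subgroup.inv_mem _ hx)]; exact ha)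
      rw [inv_mul_cancel_right] at this
      exact this.symm
  let f : X → Z := fun x => φ (p x).1 (p x).2
  have hf : ∀ a k, κ a k ∈ W → f (κ a k) = φ a k := by
    intro a k hak
    have h1 := hp (κ a k)
    obtain ⟨h2, h3⟩ := (h.eq_iff _ _ _ _).mp h1
    change φ (p (κ a k)).1 (p (κ a k)).2 = φ a k
    have h4 := hstep _ _ h3 (p (κ a k)).1 (by rw [h1]; exact hak)
    rw [mul_inv_cancel_left] at h4
    rw [← h4, h2]
  refine ⟨f, ?_, hf⟩
  rw [continuousOn_open_iff hW]
  intro V hV
  rw [h.isOpen_iff]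
  intro a
  have hWa : IsOpen (κ a ⁻¹' W) := hW.preimage (h.continuous a)
  have : κ a ⁻¹' (W ∩ f ⁻¹' V) = κ a ⁻¹' W ∩ φ a ⁻¹' V := by
    ext k
    simp only [Set.mem_preimage, Set.mem_inter_iff]
    refine and_congr_right fun hk => ?_
    rw [hf a k hk]
  rw [this]
  exact (hφ a).isOpen_inter_preimage hWa hV

/-- Left translations are continuous. -/
theorem exists_translation (h : IsBC g F κ) (b : G) :
    ∃ τ : X → X, Continuous τ ∧ ∀ a k, τ (κ a k) = κ (b * a) k := by
  classical
  choose p hp using h.surjective_uncurry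
  let τ : X → X := fun x => κ (b * (p x).1) (p x).2
  have hτ : ∀ a k, τ (κ a k) = κ (b * a) k := by
    intro a k
    obtain ⟨h2, h3⟩ := (h.eq_iff _ _ _ _).mp (hp (κ a k))
    change κ (b * (p (κ a k)).1) (p (κ a k)).2 = _
    rw [h.eq_iff]
    refine ⟨h2, ?_⟩
    have : (b * (p (κ a k)).1)⁻¹ * (b * a) = (p (κ a k)).1⁻¹ * a := by group
    rw [this]
    exact h3
  refine ⟨τ, ?_, hτ⟩
  refine continuous_def.mpr fun U hU => (h.isOpen_iff _).mpr fun a => ?_
  have : κ a ⁻¹' (τ ⁻¹' U) = κ (b * a) ⁻¹' U := by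
    ext k; simp only [Set.mem_preimage, hτ]
  rw [this]
  exact hU.preimage (h.continuous _)

end IsBC

end Pool.Agent.H75.AX
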