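import Pool.Agent.H75.AX.Poly

/-!
Combinatorial core: parity of the monodromies.
-/

set_option autoImplicit false

noncomputable section

namespace Pool.Agent.H75.AX

/-- The two-dimensional group of cap colours. -/
abbrev G2 : Type := Fin 2 → ℤˣ

/-- The twelve-dimensional group of colours of the other facets. -/
abbrev G12 : Type := Fin 12 → ℤˣ

abbrev GG : Type := G2 × G12

/-- Colours of the caps. -/
def capcol : Fin 19 → G2 :=
  ![![-1, 1], ![1, -1], ![-1, -1], ![-1, 1], ![1, -1], ![-1, -1], 1, 1, 1, 1, 1, 1, 1, 1, 1, 1, 1, 1, 1]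

/-- The two colourings of the remaining facets `o = 6`, `b₀ = 7`, …, `b₁₁ = 18`. -/
def colA : Fin 19 → Fin 12 :=
  ![0, 0, 0, 0, 0, 0, 0, 1, 2, 1, 3, 4, 5, 6, 7, 8, 9, 10, 11]

def colB : Fin 19 → Fin 12 :=
  ![0, 0, 0, 0, 0, 0, 0, 6, 7, 8, 9, 10, 11, 1, 2, 1, 3, 4, 5]

/-- The basis vectors. -/
def ee (c : Fin 12) : G12 := Pi.mulSingle c (-1)

/-- The generator of a facet. -/
def gen (col : Fin 19 → Fin 12) (v : Fin 19) : GG :=
  if v.val < 6 then (capcol v, 1) else (1, ee (col v))

theorem sq_one (x : ℤˣ) : x * x = 1 := Int.units_mul_self x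

theorem units_cases (x : ℤˣ) : x = 1 ∨ x = -1 := Int.units_eq_one_or x

theorem capcol_sq (v : Fin 19) : capcol v * capcol v = 1 := by
  funext i; exact sq_one _

theorem ee_sq (c : Fin 12) : ee c * ee c = 1 := by
  funext i; exact sq_one _

theorem G12_sq (h : G12) : h * h = 1 := by
  funext i; exact sq_one _

theorem G2_sq (h : G2) : h * h = 1 := by
  funext i; exact sq_one _

theorem ee_same (c : Fin 12) : ee c c = -1 := by simp [ee]

theorem ee_ne {c d : Fin 12} (h : d ≠ c) : ee c d = 1 := by simp [ee, h]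

/-! ### Products over coordinate subcubes -/

/-- The elements agreeing with `h0` on `C`. -/
def agree (C : Finset (Fin 12)) (h0 : G12) : Finset G12 :=
  Finset.univ.filter fun h => ∀ c ∈ C, h c = h0 c

theorem mem_agree {C : Finset (Fin 12)} {h0 h : G12} :
    h ∈ agree C h0 ↔ ∀ c ∈ C, h c = h0 c := by simp [agree]

/-- Product over a subcube. -/
def Qp (C : Finset (Fin 12)) (f : G12 → ℤˣ) (h0 : G12) : ℤˣ := ∏ h ∈ agree C h0, f h

/-- Difference operator. -/
def Dp (c : Fin 12) (f : G12 → ℤˣ) : G12 → ℤˣ := fun h => f h * f (h * ee c)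

theorem Qp_mul (C : Finset (Fin 12)) (f g : G12 → ℤˣ) (h0 : G12) :
    Qp C (fun h => f h * g h) h0 = Qp C f h0 * Qp C g h0 := Finset.prod_mul_distrib

theorem Qp_D (C : Finset (Fin 12)) (c : Fin 12) (hc : c ∉ C) (f : G12 → ℤˣ) (h0 : G12) :
    Qp (insert c C) (Dp c f) h0 = Qp C f h0 := by
  have h1 : Qp C f h0 = (∏ h ∈ (agree C h0).filter (fun h => h c = h0 c), f h) *
      ∏ h ∈ (agree C h0).filter (fun h => ¬ h c = h0 c), f h :=
    (Finset.prod_filter_mul_prod_filter_not _ _ _).symm
  have h2 : (agree C h0).filter (fun h => h c = h0 c) = agree (insert c C) h0 := by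
    ext h
    simp only [Finset.mem_filter, mem_agree, Finset.mem_insert, forall_eq_or_imp]
    tauto
  have h3 : ∏ h ∈ (agree C h0).filter (fun h => ¬ h c = h0 c), f h =
      ∏ h ∈ agree (insert c C) h0, f (h * ee c) := by
    refine Finset.prod_nbij' (fun h => h * ee c) (fun h => h * ee c) ?_ ?_ ?_ ?_ ?_
    · intro h hh
      simp only [Finset.mem_filter, mem_agree, Finset.mem_insert, forall_eq_or_imp, Pi.mul_apply]
        at hh ⊢
      refine ⟨?_, fun d hd => ?_⟩
      · rw [ee_same]
        rcases units_cases (h c) with h4 | h4 <;> rcases units_cases (h0 c) with h5 | h5 <;>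
          simp [h4, h5] at hh ⊢
      · rw [ee_ne (by rintro rfl; exact hc hd), mul_one]
        exact hh.1 d hd
    · intro h hh
      simp only [Finset.mem_filter, mem_agree, Finset.mem_insert, forall_eq_or_imp, Pi.mul_apply]
        at hh ⊢
      refine ⟨fun d hd => ?_, ?_⟩
      · rw [ee_ne (by rintro rfl; exact hc hd), mul_one]
        exact hh.2 d hd
      · rw [ee_same, hh.1]
        rcases units_cases (h0 c) with h5 | h5 <;> simp [h5]
    · intro h _
      simp only [mul_assoc, ee_sq, mul_one]
    · intro h _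
      simp only [mul_assoc, ee_sq, mul_one]
    · intro h _
      simp only [mul_assoc, ee_sq, mul_one]
  rw [h1, h2, h3]
  exact Qp_mul _ _ _ _

/-! ### Sets meeting all subcubes of small codimension in an even number of points -/

theorem rm_aux (r : ℕ) : ∀ N : Finset G12, N.Nonempty →
    (∀ C : Finset (Fin 12), C.card ≤ r → ∀ h0 : G12, Even (N.filter fun h => ∀ c ∈ C, h c = h0 c).card) →
    2 ^ (r + 1) ≤ N.card := by
  induction r with
  | zero =>
    intro N hN hE
    have h := hE ∅ (by simp) 1
    simp only [Finset.notMem_empty, false_imp_iff, implies_true, Finset.filter_true] at h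
    obtain ⟨k, hk⟩ := h
    have := hN.card_pos
    omega
  | succ r ih =>
    intro N hN hE
    have h := hE ∅ (by simp) 1
    simp only [Finset.notMem_empty, false_imp_iff, implies_true, Finset.filter_true] at h
    obtain ⟨k, hk⟩ := h
    have hpos := hN.card_pos
    obtain ⟨h1, hh1, h2, hh2, hne⟩ := Finset.one_lt_card.mp (show 1 < N.card by omega)
    obtain ⟨c, hc⟩ := Function.ne_iff.mp hne
    have hsplit : ∀ x : ℤˣ, (∃ h ∈ N, h c = x) → 2 ^ (r + 1) ≤ (N.filter fun h => h c = x).card := by
      intro x hx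
      refine ih _ ?_ ?_
      · obtain ⟨h, hh, hhx⟩ := hx
        exact ⟨h, Finset.mem_filter.mpr ⟨hh, hhx⟩⟩
      · intro C hC h0
        rw [Finset.filter_filter]
        by_cases hcC : c ∈ C ∧ h0 c ≠ x
        · have : (N.filter fun h => h c = x ∧ ∀ d ∈ C, h d = h0 d) = ∅ := by
            rw [Finset.filter_eq_empty_iff]
            rintro h _ ⟨e1, e2⟩
            exact hcC.2 ((e2 c hcC.1).symm.trans e1)
          rw [this]; simp
        · have h3 := hE (insert c C) ((Finset.card_insert_le _ _).trans (by omega))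
            (Function.update h0 c x)
          convert h3 using 3 with h
          simp only [Finset.mem_insert, forall_eq_or_imp, Function.update_self]
          refine and_congr_right fun e1 => ?_
          refine forall_congr' fun d => ?_
          refine imp_congr_right fun hd => ?_
          by_cases hdc : d = c
          · subst hdc
            rw [Function.update_self]
            have : h0 d = x := by
              by_contra h5; exact hcC ⟨hd, h5⟩
            rw [this]
          · rw [Function.update_of_ne hdc]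
    have e1 := hsplit 1
    have e2 := hsplit (-1)
    have hcard : N.card = (N.filter fun h => h c = 1).card + (N.filter fun h => h c = -1).card := by
      rw [← Finset.card_filter_add_card_filter_not (s := N) (fun h => h c = 1)]
      congr 2
      ext h
      simp only [Finset.mem_filter]
      refine and_congr_right fun _ => ?_
      rcases units_cases (h c) with h5 | h5 <;> simp [h5]
    rcases units_cases (h1 c) with h5 | h5 <;> rcases units_cases (h2 c) with h6 | h6
    · exact absurd (h5.trans h6.symm) hc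
    · have := e1 ⟨h1, hh1, h5⟩
      have := e2 ⟨h2, hh2, h6⟩
      rw [hcard, pow_succ]; omega
    · have := e1 ⟨h2, hh2, h6⟩
      have := e2 ⟨h1, hh1, h5⟩
      rw [hcard, pow_succ]; omega
    · exact absurd (h5.trans h6.symm) hc

theorem prod_sign_eq {N : Finset G12} {f : G12 → ℤˣ} :
    ∏ h ∈ N, f h = (-1) ^ (N.filter fun h => f h = -1).card := by
  rw [← Finset.prod_filter_mul_prod_filter_not N (fun h => f h = -1)]
  rw [Finset.prod_congr rfl (g := fun _ => (-1 : ℤˣ)) (fun h hh => (Finset.mem_filter.mp hh).2),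
    Finset.prod_const, Finset.prod_eq_one, mul_one]
  intro h hh
  rcases units_cases (f h) with h5 | h5
  · exact h5
  · exact absurd h5 (Finset.mem_filter.mp hh).2

/-- If `f` has product one over all subcubes of codimension two, then it has no minus signs or at
least eight. -/
theorem rm_lemma (f : G12 → ℤˣ) (hf : ∀ c c' : Fin 12, c ≠ c' → ∀ h0, Qp {c, c'} f h0 = 1) :
    (Finset.univ.filter fun h => f h = -1).card = 0 ∨
      8 ≤ (Finset.univ.filter fun h => f h = -1).card := by
  by_cases hN : (Finset.univ.filter fun h => f h = -1).Nonempty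
  swap
  · left
    rw [Finset.not_nonempty_iff_eq_empty.mp hN]; rfl
  right
  refine rm_aux 2 _ hN ?_
  -- evenness for subcubes of codimension at most two
  have key : ∀ C : Finset (Fin 12), C.card ≤ 2 → ∀ h0, Qp C f h0 = 1 := by
    have h2 : ∀ C : Finset (Fin 12), C.card = 2 → ∀ h0, Qp C f h0 = 1 := by
      intro C hC h0
      obtain ⟨c, c', hne, rfl⟩ := Finset.card_eq_two.mp hC
      exact hf c c' hne h0
    have step : ∀ n, (∀ C : Finset (Fin 12), C.card = n + 1 → ∀ h0, Qp C f h0 = 1) → n < 12 →
        ∀ C : Finset (Fin 12), C.card = n → ∀ h0, Qp C f h0 = 1 := by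
      intro n hn hn12 C hC h0
      obtain ⟨c, hc⟩ : ∃ c, c ∉ C := by
        by_contra hcon
        push Not at hcon
        have : C = Finset.univ := Finset.eq_univ_iff_forall.mpr hcon
        rw [this] at hC
        simp at hC
        omega
      rw [← Qp_D C c hc f h0]
      have e1 : Qp (insert c C) (Dp c f) h0 = Qp (insert c C) f h0 *
          Qp (insert c C) (fun h => f (h * ee c)) h0 := Qp_mul _ _ _ _
      rw [e1, hn _ (by rw [Finset.card_insert_of_notMem hc, hC]) h0, one_mul]
      rw [← hn (insert c C) (by rw [Finset.card_insert_of_notMem hc, hC]) (h0 * ee c)]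
      unfold Qp
      refine Finset.prod_nbij' (fun h => h * ee c) (fun h => h * ee c) ?_ ?_ ?_ ?_ ?_
      · intro h hh
        rw [mem_agree] at hh ⊢
        intro d hd
        rw [Pi.mul_apply, Pi.mul_apply, hh d hd]
      · intro h hh
        rw [mem_agree] at hh ⊢
        intro d hd
        have := hh d hd
        rw [Pi.mul_apply] at this
        rw [Pi.mul_apply, this, mul_assoc, sq_one, mul_one]
      · intro h _
        simp only [mul_assoc, ee_sq, mul_one]
      · intro h _
        simp only [mul_assoc, ee_sq, mul_one]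
      · intro h _
        rfl
    have h1 := step 1 h2 (by norm_num)
    have h0 := step 0 h1 (by norm_num)
    intro C hC
    rcases Nat.lt_or_ge C.card 1 with h | h
    · exact h0 C (by omega)
    · rcases Nat.lt_or_ge C.card 2 with h' | h'
      · exact h1 C (by omega)
      · exact h2 C (by omega)
  intro C hC h0
  have h := key C hC h0
  unfold Qp at h
  rw [prod_sign_eq] at h
  have h4 : ((Finset.univ.filter fun h => f h = -1).filter fun h => ∀ c ∈ C, h c = h0 c) =
      (agree C h0).filter fun h => f h = -1 := by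
    unfold agree
    rw [Finset.filter_filter, Finset.filter_filter]
    ext h; simp [and_comm]
  rw [h4]
  by_contra hodd
  rw [Nat.not_even_iff_odd] at hodd
  rw [hodd.neg_one_pow] at h
  revert h; decide

/-! ### Transport data -/

/-- Transport signs between adjacent chambers. -/
structure Transport (col : Fin 19 → Fin 12) (t : GG → Fin 19 → ℤˣ) : Prop where
  inv : ∀ g v, t (g * gen col v) v = t g v
  flat : ∀ g v w, adjP v w → t g v * t (g * gen col v) w = t g w * t (g * gen col w) v

/-- The monodromy at a special vertex. -/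
def mu (col : Fin 19 → Fin 12) (t : GG → Fin 19 → ℤˣ) (s : Fin 3 → Fin 19) (g : GG) : ℤˣ :=
  t g (s 0) * t (g * gen col (s 0)) (s 1) * t (g * gen col (s 0) * gen col (s 1)) (s 2)

theorem gen_cap (col : Fin 19 → Fin 12) {v : Fin 19} (hv : v.val < 6) (e : G2) (h : G12) :
    ((e, h) : GG) * gen col v = (e * capcol v, h) := by
  unfold gen; rw [if_pos hv, Prod.mk_mul_mk, mul_one]

theorem gen_noncap (col : Fin 19 → Fin 12) {v : Fin 19} (hv : ¬ v.val < 6) (e : G2) (h : G12) :
    ((e, h) : GG) * gen col v = (e, h * ee (col v)) := by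
  unfold gen; rw [if_neg hv, Prod.mk_mul_mk, mul_one]

theorem units_rearrange {a b c d : ℤˣ} (h : a * b = c * d) : a * d = c * b := by
  rcases units_cases a with rfl | rfl <;> rcases units_cases b with rfl | rfl <;>
    rcases units_cases c with rfl | rfl <;> rcases units_cases d with rfl | rfl <;>
    simp at h ⊢

section
variable {col : Fin 19 → Fin 12} {t : GG → Fin 19 → ℤˣ} (ht : Transport col t)
include ht

theorem D_noncap {v w : Fin 19} (hv : ¬ v.val < 6) (hw : ¬ w.val < 6) (hvw : adjP v w) (e : G2) :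
    Dp (col w) (fun h => t (e, h) v) = Dp (col v) (fun h => t (e, h) w) := by
  funext h
  have := ht.flat (e, h) v w hvw
  rw [gen_noncap col hv, gen_noncap col hw] at this
  exact units_rearrange this

theorem D_cap {v s : Fin 19} (hv : ¬ v.val < 6) (hs : s.val < 6) (hvs : adjP s v) (e : G2) :
    Dp (col v) (fun h => t (e, h) s) = fun h => t (e, h) v * t (e * capcol s, h) v := by
  funext h
  have := ht.flat (e, h) s v hvs
  rw [gen_cap col hs, gen_noncap col hv] at this
  exact units_rearrange this

theorem A_eq {v w : Fin 19} (hv : ¬ v.val < 6) (hw : ¬ w.val < 6) (hvw : adjP v w) (e : G2)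
    (C : Finset (Fin 12)) (hvC : col v ∉ C) (hwC : col w ∉ C) (hne : col v ≠ col w) (h0 : G12) :
    Qp (insert (col v) C) (fun h => t (e, h) v) h0 = Qp (insert (col w) C) (fun h => t (e, h) w) h0 := by
  rw [← Qp_D (insert (col v) C) (col w) (by simp [hwC, hne.symm]),
    ← Qp_D (insert (col w) C) (col v) (by simp [hvC, hne]), Finset.insert_comm,
    D_noncap ht hv hw hvw e]

theorem B_eq {v s : Fin 19} (hv : ¬ v.val < 6) (hs : s.val < 6) (hvs : adjP s v) (e : G2)
    (C : Finset (Fin 12)) (hvC : col v ∉ C) (h0 : G12) :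
    Qp C (fun h => t (e, h) s) h0 = Qp (insert (col v) C) (fun h => t (e, h) v) h0 *
      Qp (insert (col v) C) (fun h => t (e * capcol s, h) v) h0 := by
  rw [← Qp_D C (col v) hvC, D_cap ht hv hs hvs e]
  exact Qp_mul _ _ _ _

/-- The products of the transport signs are constant along walks. -/
theorem A_walk (C : Finset (Fin 12)) (h0 : G12) (e : G2) (l : List (Fin 19)) :
    ∀ v0, (∀ v ∈ v0 :: l, ¬ v.val < 6 ∧ col v ∉ C) →
    (v0 :: l).IsChain (fun v w => adjP v w ∧ col v ≠ col w) → ∀ v ∈ v0 :: l,
    Qp (insert (col v) C) (fun h => t (e, h) v) h0 =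
      Qp (insert (col v0) C) (fun h => t (e, h) v0) h0 := by
  induction l with
  | nil =>
    intro v0 _ _ v hv
    simp only [List.mem_singleton] at hv
    rw [hv]
  | cons w l ih =>
    intro v0 h1 h2 v hv
    rw [List.isChain_cons_cons] at h2
    rw [List.mem_cons] at hv
    rcases hv with rfl | hv
    · rfl
    · rw [ih w (fun x hx => h1 x (List.mem_cons_of_mem _ hx)) h2.2 v hv]
      have hv0 := h1 v0 (by simp)
      have hw := h1 w (by simp)
      exact (A_eq ht hv0.1 hw.1 h2.1.1 e C hv0.2 hw.2 h2.1.2 h0).symm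

end

/-- Walks through the facets `b_i` for the colouring `B` avoiding the colour `c`. -/
def pathB : Fin 12 → List (Fin 19) :=
  ![[], [16, 17, 18, 7, 8, 9, 10, 11, 12],
    [15, 16, 17, 18, 7, 8, 9, 10, 11, 12, 13],
    [17, 18, 7, 8, 9, 10, 11, 12, 13, 14, 15],
    [18, 7, 8, 9, 10, 11, 12, 13, 14, 15, 16],
    [7, 8, 9, 10, 11, 12, 13, 14, 15, 16, 17],
    [8, 9, 10, 11, 12, 13, 14, 15, 16, 17, 18],
    [9, 10, 11, 12, 13, 14, 15, 16, 17, 18, 7],
    [10, 11, 12, 13, 14, 15, 16, 17, 18, 7, 8],
    [11, 12, 13, 14, 15, 16, 17, 18, 7, 8, 9],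
    [12, 13, 14, 15, 16, 17, 18, 7, 8, 9, 10],
    [13, 14, 15, 16, 17, 18, 7, 8, 9, 10, 11]]

/-- Walks for the colouring `B` avoiding two colours. -/
def walkB (c c' : Fin 12) : List (Fin 19) :=
  if c = 0 then pathB c' else if c' = 0 then pathB c else
    6 :: ((List.finRange 19).filter fun v => 7 ≤ v.val ∧ colB v ≠ c ∧ colB v ≠ c').flatMap
      fun b => [b, 6]

/-- The properties of the walks. -/
def WalkOK (c c' : Fin 12) (l : List (Fin 19)) : Prop :=
  l ≠ [] ∧ (∀ v ∈ l, ¬ v.val < 6 ∧ colB v ≠ c ∧ colB v ≠ c') ∧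
    l.IsChain (fun v w => adjP v w ∧ colB v ≠ colB w) ∧
    ∀ s : Fin 19, s.val < 6 → s ≠ 0 → ∃ v ∈ l, adjP s v

instance (c c' : Fin 12) (l : List (Fin 19)) : Decidable (WalkOK c c' l) := by
  unfold WalkOK; infer_instance

theorem walkB_ok : ∀ c c' : Fin 12, c ≠ c' → WalkOK c c' (walkB c c') := by
  decide +kernel

/-- For the colouring `B`, the transport products of the caps other than `X₀` are coboundaries. -/
theorem coboundaryB {t : GG → Fin 19 → ℤˣ} (ht : Transport colB t) (c c' : Fin 12) (hc : c ≠ c')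
    (h0 : G12) : ∃ a : G2 → ℤˣ, ∀ s : Fin 19, s.val < 6 → s ≠ 0 → ∀ e,
      Qp {c, c'} (fun h => t (e, h) s) h0 = a e * a (e * capcol s) := by
  obtain ⟨h1, h2, h3, h4⟩ := walkB_ok c c' hc
  cases hl : walkB c c' with
  | nil => exact absurd hl h1
  | cons v0 l =>
    rw [hl] at h2 h3 h4
    refine ⟨fun e => Qp (insert (colB v0) {c, c'}) (fun h => t (e, h) v0) h0, fun s hs hs0 e => ?_⟩
    obtain ⟨v, hv, hsv⟩ := h4 s hs hs0
    have hmem : ∀ v ∈ v0 :: l, ¬ v.val < 6 ∧ colB v ∉ ({c, c'} : Finset (Fin 12)) := by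
      intro v hv
      obtain ⟨e1, e2, e3⟩ := h2 v hv
      refine ⟨e1, ?_⟩
      simp [e2, e3]
    obtain ⟨e1, e2⟩ := hmem v hv
    rw [B_eq ht e1 hs hsv e _ e2 h0, A_walk ht _ h0 e l v0 hmem h3 v hv,
      A_walk ht _ h0 (e * capcol s) l v0 hmem h3 v hv]

theorem mu_prod {col : Fin 19 → Fin 12} (t : GG → Fin 19 → ℤˣ) (s : Fin 3 → Fin 19)
    (hs : ∀ m, (s m).val < 6) (C : Finset (Fin 12)) (h0 : G12) (e : G2) :
    Qp C (fun h => mu col t s (e, h)) h0 =
      Qp C (fun h => t (e, h) (s 0)) h0 * Qp C (fun h => t (e * capcol (s 0), h) (s 1)) h0 *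
      Qp C (fun h => t (e * capcol (s 0) * capcol (s 1), h) (s 2)) h0 := by
  rw [← Qp_mul, ← Qp_mul]
  congr 1
  funext h
  unfold mu
  rw [gen_cap col (hs 0), gen_cap col (hs 1)]

end Pool.Agent.H75.AX
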