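import Pool.Agent.H75.AX.Poly

/-!
Geometric facts about the polytope `PP`.
-/

set_option autoImplicit false

open scoped Topology

noncomputable section

namespace Pool.Agent.H75.AX

theorem continuous_ell (v : Fin 19) : Continuous (ell v) := by
  unfold ell
  have h : ∀ i : Fin 3, Continuous fun u : E3 => u i := fun i => PiLp.continuous_apply 2 _ i
  have h0 := h 0
  have h1 := h 1
  have h2 := h 2
  fun_prop

theorem ell_comb (v : Fin 19) (u w : E3) (a b : ℝ) (hab : a + b = 1) :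
    ell v (a • u + b • w) = a * ell v u + b * ell v w := by
  unfold ell
  simp only [PiLp.add_apply, PiLp.smul_apply, smul_eq_mul]
  linear_combination (-(nc v : ℝ)) * hab

theorem ell_add_smul (v : Fin 19) (u w : E3) (t : ℝ) :
    ell v (u + t • w) = ell v u - t * ((na v 0 : ℝ) * w 0 + (na v 1 : ℝ) * w 1 +
      (na v 2 : ℝ) * w 2) := by
  unfold ell
  simp only [PiLp.add_apply, PiLp.smul_apply, smul_eq_mul]
  ring

theorem convex_PP : Convex ℝ PP := by
  intro u hu w hw a b ha hb hab v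
  rw [ell_comb v u w a b hab]
  exact add_nonneg (mul_nonneg ha (hu v)) (mul_nonneg hb (hw v))

theorem isClosed_PP : IsClosed PP := by
  have : PP = ⋂ v, {u | 0 ≤ ell v u} := by ext; simp [PP]
  rw [this]
  exact isClosed_iInter fun v => isClosed_le continuous_const (continuous_ell v)

theorem PP_bounds {u : E3} (hu : u ∈ PP) (i : Fin 3) : 0 ≤ u i ∧ u i ≤ 24 := by
  have h0 := hu 0
  have h1 := hu 1
  have h2 := hu 2
  have h3 := hu 3
  have h4 := hu 4
  have h5 := hu 5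
  simp [ell, na, nc] at h0 h1 h2 h3 h4 h5
  fin_cases i
  · exact ⟨h0, h3⟩
  · exact ⟨h1, h4⟩
  · exact ⟨h2, h5⟩

theorem isCompact_PP : IsCompact PP := by
  refine Metric.isCompact_of_isClosed_isBounded isClosed_PP ?_
  rw [isBounded_iff_forall_norm_le]
  refine ⟨50, fun u hu => ?_⟩
  rw [EuclideanSpace.norm_eq, Real.sqrt_le_left (by norm_num)]
  rw [Fin.sum_univ_three]
  have h := PP_bounds hu
  have h0 := h 0
  have h1 := h 1
  have h2 := h 2
  simp only [Real.norm_eq_abs, sq_abs]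
  nlinarith

instance : CompactSpace PP := isCompact_iff_compactSpace.mp isCompact_PP

/-- Rational points. -/
def ptZ (n : Fin 3 → ℤ) (d : ℤ) : E3 := WithLp.toLp 2 fun i => (n i : ℝ) / d

@[simp] theorem ptZ_apply (n : Fin 3 → ℤ) (d : ℤ) (i : Fin 3) : ptZ n d i = (n i : ℝ) / d := rfl

/-- `d` times the value of `ell v` at `n / d`. -/
def ev (v : Fin 19) (n : Fin 3 → ℤ) (d : ℤ) : ℤ :=
  nc v * d - (na v 0 * n 0 + na v 1 * n 1 + na v 2 * n 2)

theorem ell_ptZ (v : Fin 19) (n : Fin 3 → ℤ) (d : ℤ) (hd : 0 < d) :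
    ell v (ptZ n d) = (ev v n d : ℝ) / d := by
  have hd' : (d : ℝ) ≠ 0 := by exact_mod_cast hd.ne'
  unfold ell ev
  simp only [ptZ_apply]
  push_cast
  field_simp

theorem ptZ_mem {n : Fin 3 → ℤ} {d : ℤ} (hd : 0 < d) (h : ∀ v, 0 ≤ ev v n d) : ptZ n d ∈ PP := by
  intro v
  rw [ell_ptZ v n d hd]
  have : (0 : ℝ) ≤ ev v n d := by exact_mod_cast h v
  have hd' : (0 : ℝ) < d := by exact_mod_cast hd
  positivity

theorem act_ptZ {n : Fin 3 → ℤ} {d : ℤ} (hd : 0 < d) (v : Fin 19) :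
    v ∈ act (ptZ n d) ↔ ev v n d = 0 := by
  have hd' : (d : ℝ) ≠ 0 := by exact_mod_cast hd.ne'
  change ell v (ptZ n d) = 0 ↔ _
  rw [ell_ptZ v n d hd, div_eq_zero_iff]
  simp [hd']

theorem vert_ok : ∀ t, (∀ v, 0 ≤ ev v (vert t) 1) ∧ (∀ v, ev v (vert t) 1 = 0 ↔ ∃ m, tri t m = v) := by
  decide +kernel

/-- The vertices of the polytope. -/
def vtx (t : Fin 34) : E3 := ptZ (vert t) 1

theorem vtx_mem (t : Fin 34) : vtx t ∈ PP := ptZ_mem one_pos (vert_ok t).1

theorem act_vtx (t : Fin 34) (v : Fin 19) : v ∈ act (vtx t) ↔ ∃ m, tri t m = v := by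
  unfold vtx
  rw [act_ptZ one_pos, (vert_ok t).2]

/-! ### Independence of the normals at a vertex -/

/-- Cross product of integer vectors. -/
def crossZ (x y : Fin 3 → ℤ) : Fin 3 → ℤ :=
  ![x 1 * y 2 - x 2 * y 1, x 2 * y 0 - x 0 * y 2, x 0 * y 1 - x 1 * y 0]

def dotZ (x y : Fin 3 → ℤ) : ℤ := x 0 * y 0 + x 1 * y 1 + x 2 * y 2

/-- The (non-normalized) dual basis of the normals at the vertex `t`. -/
def dualZ (t : Fin 34) : Fin 3 → Fin 3 → ℤ :=
  ![crossZ (na (tri t 1)) (na (tri t 2)), crossZ (na (tri t 2)) (na (tri t 0)),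
    crossZ (na (tri t 0)) (na (tri t 1))]

def detZ (t : Fin 34) : ℤ := dotZ (na (tri t 0)) (dualZ t 0)

theorem dual_ok : ∀ t, detZ t ≠ 0 ∧ ∀ i j, dotZ (na (tri t i)) (dualZ t j) =
    if i = j then detZ t else 0 := by decide +kernel

/-- Directions dual to the normals of the facets meeting in a vertex. -/
theorem exists_dual (t : Fin 34) (w : Fin 19 → ℝ) : ∃ d : E3, ∀ m,
    (na (tri t m) 0 : ℝ) * d 0 + (na (tri t m) 1 : ℝ) * d 1 + (na (tri t m) 2 : ℝ) * d 2 =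
      w (tri t m) := by
  obtain ⟨h0, h1⟩ := dual_ok t
  have hD : (detZ t : ℝ) ≠ 0 := by exact_mod_cast h0
  refine ⟨WithLp.toLp 2 fun i => ∑ j, w (tri t j) / (detZ t : ℝ) * (dualZ t j i : ℝ), fun m => ?_⟩
  simp only [Fin.sum_univ_three]
  have key : ∀ j, (na (tri t m) 0 : ℝ) * (dualZ t j 0 : ℝ) + (na (tri t m) 1 : ℝ) * (dualZ t j 1 : ℝ) +
      (na (tri t m) 2 : ℝ) * (dualZ t j 2 : ℝ) = if m = j then (detZ t : ℝ) else 0 := by
    intro j
    have := h1 m j
    unfold dotZ at this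
    split_ifs with h
    · rw [if_pos h] at this
      exact_mod_cast this
    · rw [if_neg h] at this
      exact_mod_cast this
  have k0 := key 0
  have k1 := key 1
  have k2 := key 2
  fin_cases m <;> simp at k0 k1 k2 ⊢ <;> field_simp <;>
    linear_combination (w (tri t 0)) * k0 + (w (tri t 1)) * k1 + (w (tri t 2)) * k2

/-! ### Special vertices -/

/-- The triples of caps (in the order `X, Y, Z`) at the special vertices `O, x, y, z`. -/
def spt : Fin 4 → Fin 3 → Fin 19 := ![![0, 1, 2], ![3, 1, 2], ![0, 4, 2], ![0, 1, 5]]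

def spn : Fin 4 → Fin 3 → ℤ := ![![0, 0, 0], ![24, 0, 0], ![0, 24, 0], ![0, 0, 24]]

/-- The special vertices. -/
def spv (s : Fin 4) : E3 := ptZ (spn s) 1

theorem sp_ok : ∀ s, (∀ v, 0 ≤ ev v (spn s) 1) ∧
    (∀ v, ev v (spn s) 1 = 0 ↔ v = spt s 0 ∨ v = spt s 1 ∨ v = spt s 2) := by
  decide +kernel

theorem spv_mem (s : Fin 4) : spv s ∈ PP := ptZ_mem one_pos (sp_ok s).1

theorem act_spv (s : Fin 4) (v : Fin 19) :
    v ∈ act (spv s) ↔ v = spt s 0 ∨ v = spt s 1 ∨ v = spt s 2 := by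
  unfold spv
  rw [act_ptZ one_pos, (sp_ok s).2]

theorem spv_unique (s : Fin 4) {u : E3} (h0 : spt s 0 ∈ act u) (h1 : spt s 1 ∈ act u)
    (h2 : spt s 2 ∈ act u) : u = spv s := by
  have e0 : ell _ u = 0 := h0
  have e1 : ell _ u = 0 := h1
  have e2 : ell _ u = 0 := h2
  have key : u 0 = spn s 0 ∧ u 1 = spn s 1 ∧ u 2 = spn s 2 := by
    fin_cases s <;> simp [ell, spt, na, nc, spn] at e0 e1 e2 ⊢ <;>
      refine ⟨?_, ?_, ?_⟩ <;> linarith
  ext i
  fin_cases i
  · simpa [spv] using key.1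
  · simpa [spv] using key.2.1
  · simpa [spv] using key.2.2

theorem spv_injective : Function.Injective spv := by
  intro s s' h
  have h0 : spv s 0 = spv s' 0 := by rw [h]
  have h1 : spv s 1 = spv s' 1 := by rw [h]
  have h2 : spv s 2 = spv s' 2 := by rw [h]
  simp only [spv, ptZ_apply, Int.cast_one, div_one, Int.cast_inj] at h0 h1 h2
  clear h
  revert s s'
  decide +kernel

/-- The set of special vertices. -/
def SV : Set E3 := Set.range spv

/-- A point of `PP` strictly between two points of `PP` has the common active facets. -/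
theorem act_comb {u w : E3} (hu : u ∈ PP) (hw : w ∈ PP) {a b : ℝ} (ha : 0 < a) (hb : 0 < b)
    (hab : a + b = 1) : act (a • u + b • w) = act u ∩ act w := by
  ext v
  change ell v (a • u + b • w) = 0 ↔ ell v u = 0 ∧ ell v w = 0
  rw [ell_comb v u w a b hab]
  have h1 := hu v
  have h2 := hw v
  constructor
  · intro h
    have h3 := mul_nonneg ha.le h1
    have h4 := mul_nonneg hb.le h2
    have h5 : a * ell v u = 0 := by linarith
    have h6 : b * ell v w = 0 := by linarith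
    exact ⟨(mul_eq_zero.mp h5).resolve_left ha.ne', (mul_eq_zero.mp h6).resolve_left hb.ne'⟩
  · rintro ⟨h3, h4⟩
    rw [h3, h4]; ring

theorem convex_diff_sp {C : Set E3} (hC : Convex ℝ C) (hCP : C ⊆ PP) (T : Set (Fin 4)) :
    Convex ℝ (C \ spv '' T) := by
  rw [convex_iff_forall_pos]
  rintro u ⟨hu, hu'⟩ w ⟨hw, hw'⟩ a b ha hb hab
  refine ⟨hC hu hw ha.le hb.le hab, ?_⟩
  rintro ⟨s, hs, hsp⟩
  have h := act_comb (hCP hu) (hCP hw) ha hb hab
  rw [← hsp] at h
  have hact : ∀ m, spt s m ∈ act (spv s) := by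
    intro m
    rw [act_spv]
    fin_cases m
    · exact Or.inl rfl
    · exact Or.inr (Or.inl rfl)
    · exact Or.inr (Or.inr rfl)
  rw [h] at hact
  exact hu' ⟨s, hs, (spv_unique s (hact 0).1 (hact 1).1 (hact 2).1).symm⟩

/-! ### Relative interior points of faces -/

def intn : Fin 3 → ℤ := ![8, 8, 8]

theorem intn_ok : ∀ v, 0 < ev v intn 1 := by decide +kernel

theorem exists_interior : ∃ u ∈ PP, act u = ∅ := by
  refine ⟨ptZ intn 1, ptZ_mem one_pos fun v => (intn_ok v).le, ?_⟩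
  ext v
  rw [act_ptZ one_pos]
  simp [(intn_ok v).ne']

def fct : Fin 19 → Fin 3 → Fin 34 :=
  ![![0, 1, 2], ![0, 1, 7], ![0, 2, 7], ![7, 8, 12], ![2, 3, 13], ![1, 4, 9], ![22, 23, 24],
    ![12, 14, 16], ![16, 17, 22], ![8, 10, 17], ![10, 11, 25], ![9, 11, 20], ![20, 21, 27],
    ![4, 5, 21], ![5, 6, 29], ![3, 6, 18], ![18, 19, 31], ![13, 15, 19], ![14, 15, 23]]

/-- Three times a relative interior point of a facet. -/
def fctn (v : Fin 19) : Fin 3 → ℤ := fun i => vert (fct v 0) i + vert (fct v 1) i + vert (fct v 2) i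

theorem facet_ok : ∀ v w : Fin 19, 0 ≤ ev w (fctn v) 3 ∧ (ev w (fctn v) 3 = 0 ↔ w = v) := by
  decide +kernel

theorem exists_facet_pt (v : Fin 19) : ∃ u ∈ PP, act u = {v} := by
  refine ⟨_, ptZ_mem (by norm_num : (0 : ℤ) < 3) fun w => (facet_ok v w).1, ?_⟩
  ext w
  rw [act_ptZ (by norm_num), (facet_ok v w).2]
  rfl

structure Edge where
  (i j : Fin 19)
  (s t : Fin 34)

def ge (i j s t : ℕ) : Edge := ⟨Fin.ofNat 19 i, Fin.ofNat 19 j, Fin.ofNat 34 s, Fin.ofNat 34 t⟩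

/-- The edges, with their end points. -/
def edg : List Edge :=
  [ge 0 1 0 1, ge 0 2 0 2, ge 0 4 2 3, ge 0 5 1 4, ge 0 13 4 5, ge 0 14 5 6, ge 0 15 3 6,
   ge 1 2 0 7, ge 1 3 7 8, ge 1 5 1 9, ge 1 9 8 10, ge 1 10 10 11, ge 1 11 9 11, ge 2 3 7 12,
   ge 2 4 2 13, ge 2 7 12 14, ge 2 17 13 15, ge 2 18 14 15, ge 3 7 12 16, ge 3 8 16 17,
   ge 3 9 8 17, ge 4 15 3 18, ge 4 16 18 19, ge 4 17 13 19, ge 5 11 9 20, ge 5 12 20 21,
   ge 5 13 4 21, ge 6 7 22 23, ge 6 8 22 24, ge 6 9 24 25, ge 6 10 25 26, ge 6 11 26 27,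
   ge 6 12 27 28, ge 6 13 28 29, ge 6 14 29 30, ge 6 15 30 31, ge 6 16 31 32, ge 6 17 32 33,
   ge 6 18 23 33, ge 7 8 16 22, ge 7 18 14 23, ge 8 9 17 24, ge 9 10 10 25, ge 10 11 11 26,
   ge 11 12 20 27, ge 12 13 21 28, ge 13 14 5 29, ge 14 15 6 30, ge 15 16 18 31,
   ge 16 17 19 32, ge 17 18 15 33]

def edgn (e : Edge) : Fin 3 → ℤ := fun i => vert e.s i + vert e.t i

theorem edge_ok : ∀ e ∈ edg, ∀ x, 0 ≤ ev x (edgn e) 2 ∧ (ev x (edgn e) 2 = 0 ↔ x = e.i ∨ x = e.j) := by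
  decide +kernel

theorem edge_all : ∀ v w : Fin 19, v < w → adjP v w → ∃ e ∈ edg, e.i = v ∧ e.j = w := by
  decide +kernel

theorem exists_edge_pt {v w : Fin 19} (h : adjP v w) : ∃ u ∈ PP, act u = {v, w} := by
  wlog hlt : v < w generalizing v w with H
  · rw [Set.pair_comm]
    refine H (adjP_symm _ _ h) (lt_of_le_of_ne (not_lt.mp hlt) ?_)
    rintro rfl
    exact adjP_irrefl _ h
  obtain ⟨e, he, rfl, rfl⟩ := edge_all v w hlt h
  refine ⟨_, ptZ_mem (by norm_num : (0 : ℤ) < 2) fun x => (edge_ok e he x).1, ?_⟩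
  ext x
  rw [act_ptZ (by norm_num), (edge_ok e he x).2]
  rfl

/-- Near a point, no new facets become active. -/
theorem exists_local (p : E3) : ∃ r > 0, ∀ u ∈ Metric.ball p r, act u ⊆ act p := by
  have h : ∀ v : Fin 19, ∃ r > 0, ∀ u ∈ Metric.ball p r, v ∈ act u → v ∈ act p := by
    intro v
    by_cases hv : v ∈ act p
    · exact ⟨1, one_pos, fun _ _ _ => hv⟩
    · have : ∀ᶠ u in 𝓝 p, ell v u ≠ 0 := (continuous_ell v).continuousAt.eventually_ne hv
      obtain ⟨r, hr, hr'⟩ := Metric.eventually_nhds_iff_ball.mp this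
      exact ⟨r, hr, fun u hu huv => absurd huv (hr' u hu)⟩
  choose r hr hr' using h
  refine ⟨Finset.univ.inf' Finset.univ_nonempty r, ?_, fun u hu v hv => ?_⟩
  · simpa using hr
  · exact hr' v u (Metric.ball_subset_ball (Finset.inf'_le _ (Finset.mem_univ v)) hu) hv

end Pool.Agent.H75.AX
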