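import Pool.Agent.H75.AX.Comb
import Pool.Agent.H75.AX.Poly2

/-!
The number of special points with non-trivial monodromy is not four, for the colouring `B`.
-/

set_option autoImplicit false

noncomputable section

namespace Pool.Agent.H75.AX

theorem capcol_prod (s : Fin 4) : capcol (spt s 0) * capcol (spt s 1) * capcol (spt s 2) = 1 := by
  revert s; decide +kernel

theorem spt_lt (s : Fin 4) (m : Fin 3) : (spt s m).val < 6 := by
  revert s m; decide +kernel

/-- The special points with non-trivial monodromy. -/
def Nset (col : Fin 19 → Fin 12) (t : GG → Fin 19 → ℤˣ) (s : Fin 4) : Finset G12 :=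
  Finset.univ.filter fun h => mu col t (spt s) (1, h) = -1

theorem mu_B {t : GG → Fin 19 → ℤˣ} (ht : Transport colB t) (c c' : Fin 12) (hc : c ≠ c')
    (h0 : G12) : Qp {c, c'} (fun h => mu colB t (spt 1) (1, h)) h0 = 1 ∧
      ∀ s, s ≠ 1 → Qp {c, c'} (fun h => mu colB t (spt s) (1, h)) h0 =
        Qp {c, c'} (fun h => mu colB t (spt 0) (1, h)) h0 := by
  obtain ⟨a, ha⟩ := coboundaryB ht c c' hc h0
  have key : ∀ s, s ≠ 1 → Qp {c, c'} (fun h => mu colB t (spt s) (1, h)) h0 =
      Qp {c, c'} (fun h => t (1, h) 0) h0 * (a (capcol 0) * a 1) := by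
    intro s hs
    have hs0 : spt s 0 = 0 := by revert s; decide +kernel
    have hs1 : spt s 1 ≠ 0 := by revert s; decide +kernel
    have hs2 : spt s 2 ≠ 0 := by revert s; decide +kernel
    rw [mu_prod t (spt s) (spt_lt s), ha _ (spt_lt s 1) hs1, ha _ (spt_lt s 2) hs2, one_mul,
      capcol_prod, hs0]
    generalize Qp {c, c'} (fun h => t (1, h) 0) h0 = q
    generalize a (capcol 0) = x
    generalize a (capcol 0 * capcol (spt s 1)) = y
    have := sq_one y
    calc q * (x * y) * (y * a 1) = q * (x * (y * y) * a 1) := by simp only [mul_assoc]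
      _ = _ := by rw [this, mul_one]
  refine ⟨?_, fun s hs => ?_⟩
  · have h0' : spt 1 0 ≠ 0 := by decide +kernel
    have h1' : spt 1 1 ≠ 0 := by decide +kernel
    have h2' : spt 1 2 ≠ 0 := by decide +kernel
    rw [mu_prod t (spt 1) (spt_lt 1), ha _ (spt_lt 1 0) h0', ha _ (spt_lt 1 1) h1',
      ha _ (spt_lt 1 2) h2', one_mul, capcol_prod]
    generalize a (capcol (spt 1 0)) = x
    generalize a (capcol (spt 1 0) * capcol (spt 1 1)) = y
    generalize a 1 = z
    rcases units_cases x with rfl | rfl <;> rcases units_cases y with rfl | rfl <;>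
      rcases units_cases z with rfl | rfl <;> rfl
  · rw [key s hs, key 0 (by decide)]

theorem comb_final {t : GG → Fin 19 → ℤˣ} (ht : Transport colB t) :
    ∑ s, (Nset colB t s).card ≠ 4 := by
  intro h4
  rw [Fin.sum_univ_four] at h4
  -- the point `x`
  have hx : (Nset colB t 1).card = 0 := by
    rcases rm_lemma (fun h => mu colB t (spt 1) (1, h)) (fun c c' hc h0 => (mu_B ht c c' hc h0).1)
      with h | h
    · exact h
    · have : 8 ≤ (Nset colB t 1).card := h
      omega
  -- the other points
  have hs : ∀ s, s ≠ 1 → Nset colB t s = Nset colB t 0 := by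
    intro s hs1
    have h1 := rm_lemma (fun h => mu colB t (spt s) (1, h) * mu colB t (spt 0) (1, h)) (by
      intro c c' hc h0
      rw [Qp_mul, (mu_B ht c c' hc h0).2 s hs1, sq_one])
    have hsub : (Finset.univ.filter fun h : G12 =>
        mu colB t (spt s) (1, h) * mu colB t (spt 0) (1, h) = -1) ⊆
        Nset colB t s ∪ Nset colB t 0 := by
      intro h hh
      simp only [Finset.mem_filter, Finset.mem_univ, true_and, Finset.mem_union, Nset] at hh ⊢
      rcases units_cases (mu colB t (spt s) (1, h)) with e1 | e1
      · right
        rwa [e1, one_mul] at hh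
      · left; exact e1
    have hle : (Nset colB t s ∪ Nset colB t 0).card ≤ 8 := by
      have h2 := Finset.card_union_le (Nset colB t s) (Nset colB t 0)
      have h3 : (Nset colB t s).card ≤ 4 := by
        have : (Nset colB t s).card ≤ ∑ s, (Nset colB t s).card :=
          Finset.single_le_sum (f := fun s => (Nset colB t s).card) (fun _ _ => Nat.zero_le _)
            (Finset.mem_univ s)
        rw [Fin.sum_univ_four] at this
        omega
      omega
    have hzero : (Finset.univ.filter fun h : G12 =>
        mu colB t (spt s) (1, h) * mu colB t (spt 0) (1, h) = -1).card = 0 := by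
      rcases h1 with h1 | h1
      · exact h1
      · exfalso
        by_cases hs0 : s = 0
        · subst hs0
          have : (Finset.univ.filter fun h : G12 =>
              mu colB t (spt 0) (1, h) * mu colB t (spt 0) (1, h) = -1) = ∅ := by
            rw [Finset.filter_eq_empty_iff]
            intro h _
            rw [sq_one]; decide
          rw [this] at h1
          simp at h1
        · have h2 := (h1.trans (Finset.card_le_card hsub)).trans (Finset.card_union_le _ _)
          have h3 : (Nset colB t s).card + (Nset colB t 0).card ≤ 4 := by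
            fin_cases s
            · exact absurd rfl hs0
            · exact absurd rfl hs1
            · simp only [Fin.reduceFinMk] at *; omega
            · simp only [Fin.reduceFinMk] at *; omega
          omega
    rw [Finset.card_eq_zero, Finset.filter_eq_empty_iff] at hzero
    ext h
    simp only [Nset, Finset.mem_filter, Finset.mem_univ, true_and]
    have := hzero (Finset.mem_univ h)
    rcases units_cases (mu colB t (spt s) (1, h)) with e1 | e1 <;>
      rcases units_cases (mu colB t (spt 0) (1, h)) with e2 | e2 <;> simp [e1, e2] at this ⊢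
  rw [hx, hs 2 (by decide), hs 3 (by decide)] at h4
  omega

end Pool.Agent.H75.AX
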