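import Pool.Agent.H75.AX.Poly

/-!
Maps to the quotient of `ℝ³ ∖ 0` by `± 1`: a stand-in for the projective plane.
-/

set_option autoImplicit false

open scoped Topology unitInterval

noncomputable section

namespace Pool.Agent.H75.AX

/-- Nonzero vectors. -/
abbrev NZ : Type := {z : E3 // z ≠ 0}

theorem units_smul_ne {z : E3} (hz : z ≠ 0) (u : ℤˣ) : u • z ≠ 0 := by
  rcases Int.units_eq_one_or u with rfl | rfl <;> simpa using hz

instance instMulActionNZ : MulAction ℤˣ NZ where
  smul u z := ⟨u • z.1, units_smul_ne z.2 u⟩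
  one_smul _ := Subtype.ext (one_smul _ _)
  mul_smul _ _ _ := Subtype.ext (mul_smul _ _ _)

@[simp] theorem coe_smul_NZ (u : ℤˣ) (z : NZ) : ((u • z : NZ) : E3) = u • (z : E3) := rfl

instance : ContinuousConstSMul ℤˣ NZ where
  continuous_const_smul u := by
    refine Continuous.subtype_mk ?_ _
    rcases Int.units_eq_one_or u with rfl | rfl
    · have : (fun x : NZ => (1 : ℤˣ) • (x : E3)) = Subtype.val := by funext x; simp
      rw [this]; exact continuous_subtype_val
    · have : (fun x : NZ => (-1 : ℤˣ) • (x : E3)) = fun x : NZ => -(x : E3) := by funext x; simp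
      rw [this]; exact continuous_subtype_val.neg

instance : LocallyCompactSpace NZ :=
  (isOpen_compl_singleton (x := (0 : E3))).isOpenEmbedding_subtypeVal.locallyCompactSpace

theorem NZ_free {u : ℤˣ} {z : NZ} (h : u • z = z) : u = 1 := by
  rcases Int.units_eq_one_or u with rfl | rfl
  · rfl
  · exfalso
    have h1 : (-1 : ℤˣ) • (z : E3) = z := congrArg Subtype.val h
    have h2 : -(z : E3) = z := by simpa using h1
    have h3 : (2 : ℝ) • (z : E3) = 0 := by
      rw [two_smul]
      nth_rewrite 1 [← h2]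
      exact neg_add_cancel _
    exact z.2 ((smul_eq_zero.mp h3).resolve_left two_ne_zero)

instance : IsCancelSMul ℤˣ NZ :=
  isCancelSMul_iff_eq_one_of_smul_eq.mpr fun _ _ h => NZ_free h

/-- The quotient. -/
abbrev TT : Type := Quotient (MulAction.orbitRel ℤˣ NZ)

/-- The quotient map. -/
def qq : NZ → TT := Quotient.mk (MulAction.orbitRel ℤˣ NZ)

theorem isCoveringMap_qq : IsCoveringMap qq :=
  isQuotientCoveringMap_quotientMk_of_properlyDiscontinuousSMul.isCoveringMap

theorem continuous_qq : Continuous qq := isCoveringMap_qq.continuous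

theorem qq_smul (u : ℤˣ) (z : NZ) : qq (u • z) = qq z :=
  Quotient.sound ⟨u, rfl⟩

theorem qq_eq {z w : NZ} (h : qq z = qq w) : ∃ u : ℤˣ, z = u • w := by
  obtain ⟨u, hu⟩ := Quotient.exact h
  exact ⟨u, hu.symm⟩

instance : Nonempty NZ := by
  obtain ⟨x, hx⟩ := exists_ne (0 : E3)
  exact ⟨⟨x, hx⟩⟩

theorem qq_surjective (x : TT) : ∃ z, qq z = x := Quotient.exists_rep x

/-- Two lifts of the same map on a connected set differ by a constant sign. -/
theorem lift_sign {A : Type} [TopologicalSpace A] {S : Set A} (hS : IsPreconnected S)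
    (hne : S.Nonempty) {f f' : A → NZ} (hf : ContinuousOn f S) (hf' : ContinuousOn f' S)
    (h : ∀ x ∈ S, qq (f' x) = qq (f x)) : ∃ u : ℤˣ, ∀ x ∈ S, f' x = u • f x := by
  obtain ⟨a, ha⟩ := hne
  obtain ⟨u, hu⟩ := qq_eq (h a ha)
  refine ⟨u, ?_⟩
  have := isCoveringMap_qq.eqOn_of_comp_eqOn hS hf' (hf.const_smul u) (fun x hx => ?_) ha hu
  · exact this
  · change qq (f' x) = qq (u • f x)
    rw [h x hx, qq_smul]

/-- Maps on star-shaped sets can be lifted. -/
theorem star_lift {E : Type} [NormedAddCommGroup E] [NormedSpace ℝ E] {S : Set E} {c : E}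
    (hS : StarConvex ℝ c S) {Θ : E → TT} (hΘ : ContinuousOn Θ S) :
    ∃ f : E → NZ, ContinuousOn f S ∧ ∀ x ∈ S, qq (f x) = Θ x := by
  classical
  obtain ⟨z0, hz0⟩ := qq_surjective (Θ c)
  have hmem : ∀ (t : I) (x : S), (1 - (t : ℝ)) • c + (t : ℝ) • (x : E) ∈ S := fun t x =>
    hS x.2 (sub_nonneg.mpr t.2.2) t.2.1 (by ring)
  let H : C(I × S, TT) :=
    ⟨fun p => Θ ((1 - (p.1 : ℝ)) • c + (p.1 : ℝ) • (p.2 : E)), by
      refine hΘ.comp_continuous ?_ fun p => hmem p.1 p.2
      fun_prop⟩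
  let f0 : C(S, NZ) := ContinuousMap.const S z0
  have H0 : ∀ a, H (0, a) = qq (f0 a) := by
    intro a
    simp only [H, f0, ContinuousMap.coe_mk, ContinuousMap.const_apply]
    rw [hz0]
    congr 1
    simp
  let L := isCoveringMap_qq.liftHomotopy H f0 H0
  refine ⟨fun x => if h : x ∈ S then L (1, ⟨x, h⟩) else z0, ?_, fun x hx => ?_⟩
  · rw [continuousOn_iff_continuous_domRestrict]
    have : S.domRestrict (fun x => if h : x ∈ S then L (1, ⟨x, h⟩) else z0) =
        fun x : S => L (1, x) := by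
      funext x
      change (if h : (x : E) ∈ S then L (1, ⟨x, h⟩) else z0) = L (1, x)
      rw [dif_pos x.2]
    rw [this]
    fun_prop
  · change qq (if h : x ∈ S then L (1, ⟨x, h⟩) else z0) = Θ x
    rw [dif_pos hx]
    have := congrFun (isCoveringMap_qq.liftHomotopy_lifts H f0 H0) (1, ⟨x, hx⟩)
    simp only [Function.comp_apply] at this
    rw [this]
    simp [H]

/-- Maps on the complement of the origin can be lifted. -/
theorem punctured_lift {Θ : E3 → TT} (hΘ : ContinuousOn Θ {0}ᶜ) :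
    ∃ f : E3 → NZ, ContinuousOn f {0}ᶜ ∧ ∀ x ∈ ({0}ᶜ : Set E3), qq (f x) = Θ x := by
  classical
  have hcoord : ∀ i : Fin 3, Continuous fun u : E3 => u i := fun i => PiLp.continuous_apply 2 _ i
  -- the two pieces
  let U : ℝ → Set E3 := fun s => {x | ¬ (x 0 = 0 ∧ x 1 = 0 ∧ s * x 2 ≤ 0)}
  let c : ℝ → E3 := fun s => WithLp.toLp 2 ![0, 0, s]
  have hUo : ∀ s, IsOpen (U s) := by
    intro s
    have : IsClosed {x : E3 | x 0 = 0 ∧ x 1 = 0 ∧ s * x 2 ≤ 0} := by
      refine (isClosed_eq (hcoord 0) continuous_const).inter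
        ((isClosed_eq (hcoord 1) continuous_const).inter
          (isClosed_le (continuous_const.mul (hcoord 2)) continuous_const))
    exact this.isOpen_compl
  have hc0 : ∀ s, (c s) 0 = 0 := fun s => rfl
  have hc1 : ∀ s, (c s) 1 = 0 := fun s => rfl
  have hc2 : ∀ s, (c s) 2 = s := fun s => rfl
  have hstar : ∀ s, s ≠ 0 → StarConvex ℝ (c s) (U s) := by
    intro s hs x hx a b ha hb hab h
    obtain ⟨h0, h1, h2⟩ := h
    simp only [PiLp.add_apply, PiLp.smul_apply, smul_eq_mul, hc0, hc1, hc2, mul_zero, zero_add]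
      at h0 h1 h2
    have hss : 0 < s * s := mul_self_pos.mpr hs
    by_cases hb0 : b = 0
    · subst hb0
      have : a = 1 := by linarith
      subst this
      nlinarith
    · have hb' : 0 < b := lt_of_le_of_ne hb (Ne.symm hb0)
      refine hx ⟨(mul_eq_zero.mp h0).resolve_left hb0, (mul_eq_zero.mp h1).resolve_left hb0, ?_⟩
      by_contra hcon
      push Not at hcon
      have h3 : 0 < b * (s * x 2) := mul_pos hb' hcon
      have h4 : 0 ≤ a * (s * s) := mul_nonneg ha hss.le
      nlinarith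
  have hsub : ∀ s, U s ⊆ {0}ᶜ := by
    intro s x hx h0
    rw [Set.mem_singleton_iff] at h0
    subst h0
    exact hx ⟨rfl, rfl, by simp⟩
  obtain ⟨f, hf, hfl⟩ := star_lift (hstar 1 one_ne_zero) (hΘ.mono (hsub 1))
  obtain ⟨g, hg, hgl⟩ := star_lift (hstar (-1) (by norm_num))
    (hΘ.mono (hsub (-1)))
  -- the complement of a line is connected
  let L : Submodule ℝ E3 :=
    { carrier := {x | x 0 = 0 ∧ x 1 = 0}
      add_mem' := by
        rintro x y ⟨h0, h1⟩ ⟨h0', h1'⟩
        exact ⟨by simp [h0, h0'], by simp [h1, h1']⟩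
      zero_mem' := ⟨rfl, rfl⟩
      smul_mem' := by
        rintro a x ⟨h0, h1⟩
        exact ⟨by simp [h0], by simp [h1]⟩ }
  have hLmem : ∀ x : E3, x ∈ L ↔ x 0 = 0 ∧ x 1 = 0 := fun x => Iff.rfl
  have hcod : 1 < Module.rank ℝ (E3 ⧸ L) := by
    let ψ : E3 →ₗ[ℝ] (Fin 2 → ℝ) :=
      { toFun := fun x => ![x 0, x 1]
        map_add' := by intro x y; ext i; fin_cases i <;> simp
        map_smul' := by intro a x; ext i; fin_cases i <;> simp }
    have hker : LinearMap.ker ψ = L := by
      ext x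
      rw [LinearMap.mem_ker, hLmem]
      constructor
      · intro h
        exact ⟨congrFun h 0, congrFun h 1⟩
      · rintro ⟨h0, h1⟩
        ext i
        fin_cases i
        · exact h0
        · exact h1
    have hsurj : Function.Surjective ψ := by
      intro y
      refine ⟨WithLp.toLp 2 ![y 0, y 1, 0], ?_⟩
      ext i
      fin_cases i <;> rfl
    have e := (LinearMap.quotKerEquivOfSurjective ψ hsurj).rank_eq
    rw [hker] at e
    rw [e, rank_fin_fun]
    exact_mod_cast Nat.one_lt_two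
  have hconn : IsConnected ((L : Set E3)ᶜ) := isConnected_compl_of_one_lt_codim hcod
  have hint1 : (L : Set E3)ᶜ ⊆ U 1 := by
    intro x hx h
    exact hx ⟨h.1, h.2.1⟩
  have hint2 : (L : Set E3)ᶜ ⊆ U (-1) := by
    intro x hx h
    exact hx ⟨h.1, h.2.1⟩
  obtain ⟨u, hu⟩ := lift_sign hconn.isPreconnected hconn.nonempty (hg.mono hint2) (hf.mono hint1)
    (fun x hx => by rw [hfl x (hint1 hx), hgl x (hint2 hx)])
  have hcover : ∀ x : E3, x ≠ 0 → x ∉ U 1 → x ∈ U (-1) := by
    intro x hx h1 h2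
    simp only [U, Set.mem_ofPred_eq, not_not] at h1
    apply hx
    ext i
    fin_cases i
    · exact h1.1
    · exact h1.2.1
    · have e1 := h1.2.2
      have e2 := h2.2.2
      show x 2 = 0
      linarith
  have hboth : ∀ x : E3, x ∈ U 1 → x ∈ U (-1) → x ∈ (L : Set E3)ᶜ := by
    intro x h1 h2 hL
    have hL' := (hLmem x).mp hL
    have e1 : ¬ (1 * x 2 ≤ 0) := fun h => h1 ⟨hL'.1, hL'.2, h⟩
    have e2 : ¬ (-1 * x 2 ≤ 0) := fun h => h2 ⟨hL'.1, hL'.2, h⟩
    push Not at e1 e2
    linarith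
  let F : E3 → NZ := fun x => if x ∈ U 1 then f x else u • g x
  have hF1 : ∀ x ∈ U 1, F x = f x := fun x hx => if_pos hx
  have hF2 : ∀ x ∈ U (-1), F x = u • g x := by
    intro x hx
    by_cases h1 : x ∈ U 1
    · rw [hF1 x h1, hu x (hboth x h1 hx)]
    · exact if_neg h1
  refine ⟨F, ?_, ?_⟩
  · intro x hx
    apply ContinuousAt.continuousWithinAt
    by_cases h1 : x ∈ U 1
    · refine ((hf.continuousAt ((hUo 1).mem_nhds h1))).congr ?_
      filter_upwards [(hUo 1).mem_nhds h1] with y hy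
      exact (hF1 y hy).symm
    · have h2 := hcover x hx h1
      refine (((hg.const_smul u).continuousAt ((hUo (-1)).mem_nhds h2))).congr ?_
      filter_upwards [(hUo (-1)).mem_nhds h2] with y hy
      exact (hF2 y hy).symm
  · intro x hx
    by_cases h1 : x ∈ U 1
    · rw [hF1 x h1, hfl x h1]
    · rw [hF2 x (hcover x hx h1), qq_smul, hgl x (hcover x hx h1)]

/-- Maps on a punctured ball can be lifted. -/
theorem punctured_ball_lift {Θ : E3 → TT} {c : E3} {r : ℝ} (hr : 0 < r)
    (hΘ : ContinuousOn Θ (Metric.ball c r \ {c})) :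
    ∃ f : E3 → NZ, ContinuousOn f (Metric.ball c r \ {c}) ∧
      ∀ x ∈ Metric.ball c r \ {c}, qq (f x) = Θ x := by
  let b := OpenPartialHomeomorph.univBall c r
  have hsrc : b.source = Set.univ := OpenPartialHomeomorph.univBall_source c r
  have htgt : b.target = Metric.ball c r := OpenPartialHomeomorph.univBall_target c hr
  have h0 : b 0 = c := OpenPartialHomeomorph.univBall_apply_zero c r
  have hmaps : Set.MapsTo b {0}ᶜ (Metric.ball c r \ {c}) := by
    intro x hx
    refine ⟨htgt ▸ b.map_source (by rw [hsrc]; trivial), fun h => hx ?_⟩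
    rw [Set.mem_singleton_iff] at h ⊢
    exact b.injOn (by rw [hsrc]; trivial) (by rw [hsrc]; trivial) (h.trans h0.symm)
  obtain ⟨f, hf, hfl⟩ := punctured_lift (hΘ.comp
    (OpenPartialHomeomorph.continuous_univBall c r).continuousOn hmaps)
  have hmaps' : Set.MapsTo b.symm (Metric.ball c r \ {c}) {0}ᶜ := by
    rintro x ⟨hx, hxc⟩ h
    apply hxc
    rw [Set.mem_singleton_iff] at h ⊢
    have e := b.right_inv (htgt ▸ hx)
    rw [← e, h, h0]
  refine ⟨f ∘ b.symm, hf.comp ((OpenPartialHomeomorph.continuousOn_univBall_symm c r).mono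
    Set.sdiff_subset) hmaps', fun x hx => ?_⟩
  have := hfl _ (hmaps' hx)
  simp only [Function.comp_apply] at this ⊢
  rw [this, b.right_inv (htgt ▸ hx.1)]

end Pool.Agent.H75.AX
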