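import Mathlib

/-!
Definitions for the topological rigidity question on aspherical three-dimensional Alexandrov
spaces.
-/

set_option autoImplicit false

open scoped Topology UpperHalfPlane

noncomputable section

namespace Pool.Agent.H75.AX

/-- A length space: any two points are joined, for every `ε > 0`, by a curve of length at most
`dist x y + ε` (parametrized as a `1`-Lipschitz map on an interval `[0, l]`, `l ≤ dist x y + ε`). -/
def IsLengthSpace (X : Type) [MetricSpace X] : Prop :=
  ∀ x y : X, ∀ ε : ℝ, 0 < ε → ∃ l : ℝ, 0 ≤ l ∧ l ≤ dist x y + ε ∧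
    ∃ c : ℝ → X, LipschitzOnWith 1 c (Set.Icc 0 l) ∧ c 0 = x ∧ c l = y

/-- Triangle comparison, for triangles with vertices in `U`, with the hyperbolic plane of curvature
`-1 / r ^ 2`, that is, the plane `ℍ` with the metric `r * dist`. For every triangle `q x y` with
vertices in `U`, every point `z` on a shortest path from `x` to `y`, and every comparison triangle
`q' x' y'` with the corresponding point `z'`, one has `d(q', z') ≤ d(q, z)`. -/
def TriangleComparison (X : Type) [MetricSpace X] (r : ℝ) (U : Set X) : Prop :=
  ∀ q ∈ U, ∀ x ∈ U, ∀ y ∈ U, ∀ z : X, dist x z + dist z y = dist x y →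
    ∀ q' x' y' z' : ℍ, r * dist q' x' = dist q x → r * dist q' y' = dist q y →
      r * dist x' y' = dist x y → r * dist x' z' = dist x z → r * dist z' y' = dist z y →
        r * dist q' z' ≤ dist q z

/-- Curvature bounded below (by the negative number `-1 / r ^ 2`) in the sense of Alexandrov:
every point has a neighbourhood in which triangle comparison holds. -/
def CurvatureBoundedBelow (X : Type) [MetricSpace X] : Prop :=
  ∃ r : ℝ, 0 < r ∧ ∀ p : X, ∃ U ∈ 𝓝 p, TriangleComparison X r U

/-- The antipodal equivalence relation `x ~ ± x` on `ℝ³`. -/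
def pmSetoid : Setoid (EuclideanSpace ℝ (Fin 3)) where
  r x y := x = y ∨ x = -y
  iseqv := by
    refine ⟨fun x => Or.inl rfl, ?_, ?_⟩
    · rintro x y (rfl | rfl)
      · exact Or.inl rfl
      · exact Or.inr (neg_neg y).symm
    · rintro x y z (rfl | rfl) (rfl | rfl)
      · exact Or.inl rfl
      · exact Or.inr rfl
      · exact Or.inr rfl
      · exact Or.inl (neg_neg z)

/-- The open cone `ℝ³ / ±1` over the projective plane. -/
abbrev ConeRP : Type := Quotient pmSetoid

/-- The two local models of a three-dimensional Alexandrov space without boundary: every point has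
an open neighbourhood homeomorphic to the open cone over `S²` (that is, `ℝ³`) or to the open cone
over `RP²` (that is, `ℝ³ / ±1`). -/
def HasEmptyBoundary (X : Type) [TopologicalSpace X] : Prop :=
  ∀ p : X, ∃ U : Set X, IsOpen U ∧ p ∈ U ∧
    (Nonempty (U ≃ₜ EuclideanSpace ℝ (Fin 3)) ∨ Nonempty (U ≃ₜ ConeRP))

/-- A closed, connected Alexandrov space of dimension `3`. -/
structure IsClosedAlexandrov3 (X : Type) [MetricSpace X] : Prop where
  compact : CompactSpace X
  connected : ConnectedSpace X
  length : IsLengthSpace X
  curvature : CurvatureBoundedBelow X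
  dimension : dimH (Set.univ : Set X) = 3
  boundary : HasEmptyBoundary X

/-- A path-connected space is aspherical if all its homotopy groups in degrees `≥ 2` vanish. -/
def IsAspherical (X : Type) [TopologicalSpace X] : Prop :=
  PathConnectedSpace X ∧ ∀ n : ℕ, 2 ≤ n → ∀ x : X, Subsingleton (HomotopyGroup.Pi n X x)

/-- The (negated) rigidity statement. -/
def Target : Prop :=
  ∃ (X Y : Type) (_ : MetricSpace X) (_ : MetricSpace Y),
    IsClosedAlexandrov3 X ∧ IsClosedAlexandrov3 Y ∧ IsAspherical X ∧ IsAspherical Y ∧
    Nonempty (ContinuousMap.HomotopyEquiv X Y) ∧ ¬ Nonempty (X ≃ₜ Y)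

end Pool.Agent.H75.AX
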