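import Pool.Agent.H75.AX.Odd

/-!
The topological invariant: existence of a map to `TT` on the regular part which is odd at exactly
four singular points.
-/

set_option autoImplicit false

open scoped Topology

noncomputable section

namespace Pool.Agent.H75.AX

/-- Points with a Euclidean neighbourhood. -/
def IsRegPt {X : Type} [TopologicalSpace X] (p : X) : Prop :=
  ∃ U : Set X, IsOpen U ∧ p ∈ U ∧ Nonempty (U ≃ₜ E3)

theorem reg_not_odd {X : Type} [TopologicalSpace X] {p : X} (hp : IsRegPt p) {Θ : X → TT}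
    {W : Set X} (hW : W ∈ 𝓝 p) (hΘ : ContinuousOn Θ (W \ {p})) : ¬ OddAt Θ p := by
  classical
  obtain ⟨U, hUo, hpU, ⟨φ⟩⟩ := hp
  set c := φ ⟨p, hpU⟩ with hc
  have hφc : φ.symm c = ⟨p, hpU⟩ := φ.symm_apply_apply _
  have h1 : (fun y : E3 => ((φ.symm y : U) : X)) ⁻¹' W ∈ 𝓝 c := by
    have hcont : Continuous fun y : E3 => ((φ.symm y : U) : X) :=
      continuous_subtype_val.comp φ.symm.continuous
    refine hcont.continuousAt.preimage_mem_nhds ?_
    rw [hφc]; exact hW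
  obtain ⟨r, hr, hball⟩ := Metric.mem_nhds_iff.mp h1
  have hmaps : Set.MapsTo (fun y : E3 => ((φ.symm y : U) : X)) (Metric.ball c r \ {c}) (W \ {p}) := by
    rintro y ⟨hy, hyc⟩
    refine ⟨hball hy, fun h => hyc ?_⟩
    rw [Set.mem_singleton_iff] at h ⊢
    have : φ.symm y = ⟨p, hpU⟩ := Subtype.ext h
    rw [← φ.apply_symm_apply y, this]
  obtain ⟨f, hf, hfl⟩ := punctured_ball_lift hr
    (hΘ.comp (continuous_subtype_val.comp φ.symm.continuous).continuousOn hmaps)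
  intro hodd
  let V : Set X := Subtype.val '' (φ ⁻¹' Metric.ball c r)
  have hVo : IsOpen V := hUo.isOpenMap_subtype_val _ (Metric.isOpen_ball.preimage φ.continuous)
  have hpV : p ∈ V := ⟨⟨p, hpU⟩, Metric.mem_ball_self hr, rfl⟩
  obtain ⟨z0⟩ : Nonempty NZ := inferInstance
  let F : X → NZ := fun x => if hx : x ∈ U then f (φ ⟨x, hx⟩) else z0
  have hFU : ∀ x : U, F x = f (φ x) := fun x => by
    change (if hx : (x : X) ∈ U then f (φ ⟨x, hx⟩) else z0) = _
    rw [dif_pos x.2]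
  have hmem : ∀ x : U, (x : X) ∈ V \ {p} → φ x ∈ Metric.ball c r \ {c} := by
    rintro x ⟨⟨y, hy, hyx⟩, hxp⟩
    have : y = x := Subtype.ext hyx
    subst this
    refine ⟨hy, fun h => hxp ?_⟩
    rw [Set.mem_singleton_iff] at h ⊢
    exact congrArg Subtype.val (φ.injective h)
  refine hodd V (hVo.mem_nhds hpV) ⟨F, ?_, ?_⟩
  · intro x hx
    apply ContinuousAt.continuousWithinAt
    obtain ⟨x', hx', rfl⟩ := hx.1
    rw [← hUo.isOpenEmbedding_subtypeVal.continuousAt_iff]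
    have : F ∘ Subtype.val = fun x : U => f (φ x) := funext hFU
    rw [this]
    have h2 := hmem x' hx
    have h3 : ContinuousAt f (φ x') :=
      hf.continuousAt ((Metric.isOpen_ball.sdiff isClosed_singleton).mem_nhds h2)
    exact h3.comp φ.continuous.continuousAt
  · intro x hx
    obtain ⟨x', hx', rfl⟩ := hx.1
    rw [hFU, hfl _ (hmem x' hx)]
    simp

/-- The invariant. -/
def FourOdd (X : Type) [TopologicalSpace X] : Prop :=
  ∃ Θ : X → TT, (∀ p, IsRegPt p → ContinuousAt Θ p) ∧ {p | ¬ IsRegPt p ∧ OddAt Θ p}.ncard = 4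

theorem reg_homeo {X Y : Type} [TopologicalSpace X] [TopologicalSpace Y] (e : X ≃ₜ Y) {p : X}
    (hp : IsRegPt p) : IsRegPt (e p) := by
  obtain ⟨U, hUo, hpU, ⟨φ⟩⟩ := hp
  exact ⟨e '' U, e.isOpenMap _ hUo, ⟨p, hpU, rfl⟩, ⟨(e.image U).symm.trans φ⟩⟩

theorem odd_homeo {X Y : Type} [TopologicalSpace X] [TopologicalSpace Y] (e : X ≃ₜ Y) {p : X}
    {Θ : X → TT} (hp : OddAt Θ p) : OddAt (Θ ∘ e.symm) (e p) := by
  intro V hV
  rintro ⟨f, hf, hfl⟩
  have hmem : ∀ x ∈ e ⁻¹' V \ {p}, e x ∈ V \ {e p} := by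
    rintro x ⟨hx, hxp⟩
    refine ⟨hx, fun h => hxp (e.injective h)⟩
  refine hp (e ⁻¹' V) (e.continuous.continuousAt.preimage_mem_nhds hV)
    ⟨f ∘ e, hf.comp e.continuous.continuousOn hmem, fun x hx => ?_⟩
  have := hfl _ (hmem x hx)
  simpa using this

theorem FourOdd.homeo {X Y : Type} [TopologicalSpace X] [TopologicalSpace Y] (e : X ≃ₜ Y)
    (h : FourOdd X) : FourOdd Y := by
  obtain ⟨Θ, hΘ, hcard⟩ := h
  refine ⟨Θ ∘ e.symm, fun p hp => ?_, ?_⟩
  · exact (hΘ _ (reg_homeo e.symm hp)).comp e.symm.continuous.continuousAt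
  · have : {q | ¬ IsRegPt q ∧ OddAt (Θ ∘ e.symm) q} = e '' {p | ¬ IsRegPt p ∧ OddAt Θ p} := by
      ext q
      constructor
      · rintro ⟨h1, h2⟩
        refine ⟨e.symm q, ⟨fun h => h1 ?_, ?_⟩, by simp⟩
        · have := reg_homeo e h
          simpa using this
        · have := odd_homeo e.symm h2
          have h3 : (Θ ∘ e.symm) ∘ e.symm.symm = Θ := by
            funext x; simp
          rwa [h3] at this
      · rintro ⟨p, ⟨h1, h2⟩, rfl⟩
        refine ⟨fun h => h1 ?_, odd_homeo e h2⟩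
        have := reg_homeo e.symm h
        simpa using this
    rw [this, Set.ncard_image_of_injective _ e.injective, hcard]

/-! ### Maps defined by vectors -/

/-- Nonzero vectors as elements of `NZ`. -/
def toNZ (z : E3) : NZ :=
  haveI := Classical.propDecidable (z ≠ 0)
  if h : z ≠ 0 then ⟨z, h⟩ else Classical.choice inferInstance

theorem toNZ_of_ne {z : E3} (h : z ≠ 0) : toNZ z = ⟨z, h⟩ := by
  unfold toNZ; rw [dif_pos h]

theorem continuousOn_toNZ : ContinuousOn toNZ {z | z ≠ 0} := by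
  rw [continuousOn_iff_continuous_domRestrict]
  have : ({z : E3 | z ≠ 0}).domRestrict toNZ = fun z => ⟨z.1, z.2⟩ := by
    funext z
    exact toNZ_of_ne z.2
  rw [this]
  exact continuous_id

theorem toNZ_smul {z : E3} (h : z ≠ 0) (u : ℤˣ) : toNZ (u • z) = u • toNZ z := by
  rw [toNZ_of_ne h, toNZ_of_ne (units_smul_ne h u)]
  rfl

theorem qq_toNZ_smul {z w : E3} (h : z ≠ 0) {u : ℤˣ} (hw : w = u • z) :
    qq (toNZ w) = qq (toNZ z) := by
  rw [hw, toNZ_smul h, qq_smul]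

section
variable {col : Fin 19 → Fin 12} {X : Type} [TopologicalSpace X] [T2Space X] {κ : GG → PP → X}

/-- The set of special points. -/
def spSet (κ : GG → PP → X) : Set X := Set.range fun p : Fin 4 × G12 => sp κ p.1 p.2

omit [TopologicalSpace X] [T2Space X] in
theorem finite_spSet : (spSet κ).Finite := Set.finite_range _

theorem isOpen_compl_spSet : IsOpen (spSet κ)ᶜ := finite_spSet.isClosed.isOpen_compl

theorem isClosed_sp (s : Fin 4) (h : G12) : IsClosed {sp κ s h} := isClosed_singleton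

variable (hBC : IsBC (gen col) Fac κ)
include hBC

omit [T2Space X] in
theorem notMem_spSet {a : GG} {k : PP} (h : κ a k ∈ (spSet κ)ᶜ) (s : Fin 4) : k.1 ≠ spv s := by
  intro hk
  apply h
  have hk' : k = spP s := Subtype.ext hk
  exact ⟨(s, a.2), by rw [hk']; exact (sp_eq hBC s a.1 a.2).symm⟩

omit [T2Space X] in
theorem mem_compl_spSet {a : GG} {k : PP} (h : ∀ s, k.1 ≠ spv s) : κ a k ∈ (spSet κ)ᶜ := by
  rintro ⟨⟨s, g⟩, hsg⟩
  exact h s (congrArg Subtype.val (eq_sp hBC hsg.symm).1)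

omit [TopologicalSpace X] [T2Space X] hBC in
theorem Dpt_ne {s : Fin 4} {r : ℝ} (hr : r ≤ 1) {u : E3} (hu : u ∈ Dpt s r) (s' : Fin 4) :
    u ≠ spv s' := by
  rintro rfl
  obtain ⟨⟨hP, h1⟩, h2⟩ := hu
  have hne : s' ≠ s := by
    rintro rfl; exact h2 rfl
  rw [Metric.mem_ball, dist_eq_norm] at h1
  have h3 : ∀ i : Fin 3, ‖(spv s' - spv s) i‖ ≤ ‖spv s' - spv s‖ := fun i => PiLp.norm_apply_le _ i
  have h4 : ∃ i : Fin 3, spn s' i - spn s i = 24 ∨ spn s' i - spn s i = -24 := by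
    clear h1 h2 h3 hP
    revert s s'; decide +kernel
  obtain ⟨i, hi⟩ := h4
  have h5 := h3 i
  have h6 : (spv s' - spv s) i = ((spn s' i - spn s i : ℤ) : ℝ) := by
    simp [spv]
  rw [h6] at h5
  rcases hi with hi | hi <;> rw [hi] at h5 <;> norm_num at h5 <;> linarith

/-- A general construction of maps with prescribed chamber lifts. -/
theorem exists_theta (w : GG → E3 → E3) (hwc : ∀ a, Continuous (w a))
    (hw0 : ∀ a, ∀ u ∈ PP, (∀ s, u ≠ spv s) → w a u ≠ 0)
    (hcomp : ∀ a v, ∀ u ∈ PP, v ∈ act u → ∃ t : ℤˣ, w (a * gen col v) u = t • w a u) :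
    ∃ Θ : X → TT, ContinuousOn Θ (spSet κ)ᶜ ∧
      ∀ a k, κ a k ∈ (spSet κ)ᶜ → Θ (κ a k) = qq (toNZ (w a k.1)) := by
  have : Nonempty TT := ⟨qq (Classical.choice inferInstance)⟩
  refine hBC.glue isOpen_compl_spSet (fun a k => qq (toNZ (w a k.1))) ?_ ?_
  · intro a
    refine continuous_qq.comp_continuousOn ?_
    refine continuousOn_toNZ.comp ((hwc a).comp continuous_subtype_val).continuousOn ?_
    intro k hk
    exact hw0 a k.1 k.2 (notMem_spSet hBC hk)
  · intro a i k hik hak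
    obtain ⟨t, ht⟩ := hcomp a i k.1 k.2 hik
    exact qq_toNZ_smul (hw0 a k.1 k.2 (notMem_spSet hBC hak)) ht

/-- The oddness criterion for these maps. -/
theorem odd_theta (w : GG → E3 → E3) (hwc : ∀ a, Continuous (w a))
    (hw0 : ∀ a, ∀ u ∈ PP, (∀ s, u ≠ spv s) → w a u ≠ 0) {Θ : X → TT}
    (hΘ : ∀ a k, κ a k ∈ (spSet κ)ᶜ → Θ (κ a k) = qq (toNZ (w a k.1)))
    (s : Fin 4) (h : G12) (t : G2 → Fin 3 → ℤˣ)
    (ht : ∀ e m, ∀ u ∈ PP, spt s m ∈ act u → dist u (spv s) < 1 →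
      w (e * cc m, h) u = t e m • w (e, h) u) :
    OddAt Θ (sp κ s h) ↔ t 1 0 * t (cc 0) 1 * t (cc 0 * cc 1) 2 = -1 := by
  refine odd_iff hBC isClosed_sp s h one_pos Θ (fun e u => toNZ (w (e, h) u)) t ?_ ?_ ?_
  · intro e
    refine continuousOn_toNZ.comp (hwc (e, h)).continuousOn ?_
    intro u hu
    exact hw0 _ u hu.1.1 (Dpt_ne le_rfl hu)
  · intro e u hu
    have hmem : κ (e, h) ⟨u, hu.1.1⟩ ∈ (spSet κ)ᶜ := mem_compl_spSet hBC (Dpt_ne le_rfl hu)
    rw [inP_of_mem hu.1.1, hΘ _ _ hmem]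
  · intro e m u hu hm
    have h1 : dist u (spv s) < 1 := hu.1.2
    rw [ht e m u hu.1.1 hm h1, toNZ_smul (hw0 _ u hu.1.1 (Dpt_ne le_rfl hu))]

end

end Pool.Agent.H75.AX
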