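import Pool.Agent.H75.AX.Inv

/-!
The special points are singular, and the invariant holds for the colouring `A`.
-/

set_option autoImplicit false

open scoped Topology

noncomputable section

namespace Pool.Agent.H75.AX

/-- Vectors with signs. -/
def vec (e : G2) (x y z : ℝ) : E3 := WithLp.toLp 2 ![((e 0 : ℤ) : ℝ) * x, ((e 1 : ℤ) : ℝ) * y, z]

theorem vec_0 (e : G2) (y z : ℝ) : vec (e * cc 0) 0 y z = (1 : ℤˣ) • vec e 0 y z := by
  have h1 : (e * cc 0) 1 = e 1 := by
    change e 1 * (1 : ℤˣ) = e 1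
    rw [mul_one]
  rw [one_smul]
  unfold vec
  rw [h1]
  simp

theorem vec_1 (e : G2) (x z : ℝ) : vec (e * cc 1) x 0 z = (1 : ℤˣ) • vec e x 0 z := by
  have h1 : (e * cc 1) 0 = e 0 := by
    change e 0 * (1 : ℤˣ) = e 0
    rw [mul_one]
  rw [one_smul]
  unfold vec
  rw [h1]
  simp

theorem vec_2 (e : G2) (x y : ℝ) : vec (e * cc 2) x y 0 = (-1 : ℤˣ) • vec e x y 0 := by
  have h0 : (e * cc 2) 0 = -e 0 := by
    change e 0 * (-1 : ℤˣ) = -e 0
    rw [mul_neg, mul_one]
  have h1 : (e * cc 2) 1 = -e 1 := by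
    change e 1 * (-1 : ℤˣ) = -e 1
    rw [mul_neg, mul_one]
  unfold vec
  rw [h0, h1]
  ext i
  fin_cases i <;> simp

theorem vec_0' (e : G2) (x : ℝ) : vec (e * cc 0) x 0 0 = (-1 : ℤˣ) • vec e x 0 0 := by
  have h0 : (e * cc 0) 0 = -e 0 := by
    change e 0 * (-1 : ℤˣ) = -e 0
    rw [mul_neg, mul_one]
  unfold vec
  rw [h0]
  ext i
  fin_cases i <;> simp

theorem vec_1' (e : G2) (x : ℝ) : vec (e * cc 1) x 0 0 = (1 : ℤˣ) • vec e x 0 0 := vec_1 e x 0

theorem vec_base (e : G2) (x : ℝ) : vec e x 0 0 = e 0 • vec 1 x 0 0 := by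
  unfold vec
  rcases units_cases (e 0) with h | h <;> rw [h] <;> ext i <;> fin_cases i <;> simp

theorem vec_ne {e : G2} {x y z : ℝ} (h : ¬ (x = 0 ∧ y = 0 ∧ z = 0)) : vec e x y z ≠ 0 := by
  intro h0
  apply h
  have h1 : ∀ i, vec e x y z i = 0 := fun i => by rw [h0]; rfl
  have e0 : ((e 0 : ℤ) : ℝ) * x = 0 := h1 0
  have e1 : ((e 1 : ℤ) : ℝ) * y = 0 := h1 1
  have e2 : z = 0 := h1 2
  have n0 : ((e 0 : ℤ) : ℝ) ≠ 0 := by exact_mod_cast (e 0).ne_zero
  have n1 : ((e 1 : ℤ) : ℝ) ≠ 0 := by exact_mod_cast (e 1).ne_zero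
  exact ⟨(mul_eq_zero.mp e0).resolve_left n0, (mul_eq_zero.mp e1).resolve_left n1, e2⟩

theorem continuous_vec (e : G2) {x y z : E3 → ℝ} (hx : Continuous x) (hy : Continuous y)
    (hz : Continuous z) : Continuous fun u => vec e (x u) (y u) (z u) := by
  unfold vec
  refine (PiLp.continuous_toLp 2 _).comp ?_
  refine continuous_pi fun i => ?_
  fin_cases i
  · exact continuous_const.mul hx
  · exact continuous_const.mul hy
  · exact hz

theorem continuous_coord (i : Fin 3) : Continuous fun u : E3 => u i := PiLp.continuous_apply 2 _ i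

/-! ### Coordinates on the caps -/

theorem act0 {u : E3} (h : (0 : Fin 19) ∈ act u) : u 0 = 0 := by
  have h1 : ell 0 u = 0 := h
  simpa [ell, na, nc] using h1

theorem act1 {u : E3} (h : (1 : Fin 19) ∈ act u) : u 1 = 0 := by
  have h1 : ell 1 u = 0 := h
  simpa [ell, na, nc] using h1

theorem act2 {u : E3} (h : (2 : Fin 19) ∈ act u) : u 2 = 0 := by
  have h1 : ell 2 u = 0 := h
  simpa [ell, na, nc] using h1

theorem act3 {u : E3} (h : (3 : Fin 19) ∈ act u) : u 0 = 24 := by
  have h1 : ell 3 u = 0 := h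
  simp [ell, na, nc] at h1
  linarith

theorem act4 {u : E3} (h : (4 : Fin 19) ∈ act u) : u 1 = 24 := by
  have h1 : ell 4 u = 0 := h
  simp [ell, na, nc] at h1
  linarith

theorem act5 {u : E3} (h : (5 : Fin 19) ∈ act u) : u 2 = 24 := by
  have h1 : ell 5 u = 0 := h
  simp [ell, na, nc] at h1
  linarith

theorem PP_sum2 {u : E3} (hu : u ∈ PP) : u 0 + u 1 ≤ 32 ∧ u 0 + u 2 ≤ 32 ∧ u 1 + u 2 ≤ 32 := by
  have h0 := hu 18
  have h1 := hu 10
  have h2 := hu 14
  simp [ell, na, nc] at h0 h1 h2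
  exact ⟨h0, h1, h2⟩

theorem eq_spv {u : E3} {s : Fin 4} (h0 : u 0 = spn s 0) (h1 : u 1 = spn s 1) (h2 : u 2 = spn s 2) :
    u = spv s := by
  ext i
  fin_cases i
  · simpa [spv] using h0
  · simpa [spv] using h1
  · simpa [spv] using h2

/-- Cap facets by type. -/
theorem cap_type : ∀ v : Fin 19, v.val < 6 → (capcol v = cc 0 ∧ (v = 0 ∨ v = 3)) ∨
    (capcol v = cc 1 ∧ (v = 1 ∨ v = 4)) ∨ (capcol v = cc 2 ∧ (v = 2 ∨ v = 5)) := by
  decide +kernel

/-! ### The map for all special points -/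

/-- The vectors defining the map that is odd at all special points. -/
def wM (a : GG) (u : E3) : E3 :=
  vec a.1 (u 0 * (24 - u 0)) (u 1 * (24 - u 1)) (u 2 * (24 - u 2))

theorem wM_continuous (a : GG) : Continuous (wM a) := by
  have h0 := continuous_coord 0
  have h1 := continuous_coord 1
  have h2 := continuous_coord 2
  exact continuous_vec _ (h0.mul (continuous_const.sub h0)) (h1.mul (continuous_const.sub h1))
    (h2.mul (continuous_const.sub h2))

theorem wM_ne (a : GG) {u : E3} (hu : u ∈ PP) (hs : ∀ s, u ≠ spv s) : wM a u ≠ 0 := by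
  apply vec_ne
  rintro ⟨h0, h1, h2⟩
  obtain ⟨s1, s2, s3⟩ := PP_sum2 hu
  have h0' : u 0 = 0 ∨ u 0 = 24 := by
    rcases mul_eq_zero.mp h0 with h | h
    · exact Or.inl h
    · exact Or.inr (by linarith)
  have h1' : u 1 = 0 ∨ u 1 = 24 := by
    rcases mul_eq_zero.mp h1 with h | h
    · exact Or.inl h
    · exact Or.inr (by linarith)
  have h2' : u 2 = 0 ∨ u 2 = 24 := by
    rcases mul_eq_zero.mp h2 with h | h
    · exact Or.inl h
    · exact Or.inr (by linarith)
  rcases h0' with h0 | h0 <;> rcases h1' with h1 | h1 <;> rcases h2' with h2 | h2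
  · exact hs 0 (eq_spv (by simp [h0, spn]) (by simp [h1, spn]) (by simp [h2, spn]))
  · exact hs 3 (eq_spv (by simp [h0, spn]) (by simp [h1, spn]) (by simp [h2, spn]))
  · exact hs 2 (eq_spv (by simp [h0, spn]) (by simp [h1, spn]) (by simp [h2, spn]))
  · linarith
  · exact hs 1 (eq_spv (by simp [h0, spn]) (by simp [h1, spn]) (by simp [h2, spn]))
  · linarith
  · linarith
  · linarith

theorem wM_0 (e : G2) (h : G12) {u : E3} (hu : (0 : Fin 19) ∈ act u ∨ (3 : Fin 19) ∈ act u) :
    wM (e * cc 0, h) u = (1 : ℤˣ) • wM (e, h) u := by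
  have : u 0 * (24 - u 0) = 0 := by
    rcases hu with hu | hu
    · rw [act0 hu]; ring
    · rw [act3 hu]; ring
  unfold wM
  rw [this]
  exact vec_0 e _ _

theorem wM_1 (e : G2) (h : G12) {u : E3} (hu : (1 : Fin 19) ∈ act u ∨ (4 : Fin 19) ∈ act u) :
    wM (e * cc 1, h) u = (1 : ℤˣ) • wM (e, h) u := by
  have : u 1 * (24 - u 1) = 0 := by
    rcases hu with hu | hu
    · rw [act1 hu]; ring
    · rw [act4 hu]; ring
  unfold wM
  rw [this]
  exact vec_1 e _ _

theorem wM_2 (e : G2) (h : G12) {u : E3} (hu : (2 : Fin 19) ∈ act u ∨ (5 : Fin 19) ∈ act u) :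
    wM (e * cc 2, h) u = (-1 : ℤˣ) • wM (e, h) u := by
  have : u 2 * (24 - u 2) = 0 := by
    rcases hu with hu | hu
    · rw [act2 hu]; ring
    · rw [act5 hu]; ring
  unfold wM
  rw [this]
  exact vec_2 e _ _

theorem wM_comp (col : Fin 19 → Fin 12) (a : GG) (v : Fin 19) (u : E3) (hv : v ∈ act u) :
    ∃ t : ℤˣ, wM (a * gen col v) u = t • wM a u := by
  obtain ⟨e, h⟩ := a
  by_cases h6 : v.val < 6
  · rw [gen_cap col h6]
    rcases cap_type v h6 with ⟨h1, h2⟩ | ⟨h1, h2⟩ | ⟨h1, h2⟩
    · rw [h1]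
      refine ⟨1, wM_0 e h ?_⟩
      rcases h2 with rfl | rfl
      · exact Or.inl hv
      · exact Or.inr hv
    · rw [h1]
      refine ⟨1, wM_1 e h ?_⟩
      rcases h2 with rfl | rfl
      · exact Or.inl hv
      · exact Or.inr hv
    · rw [h1]
      refine ⟨-1, wM_2 e h ?_⟩
      rcases h2 with rfl | rfl
      · exact Or.inl hv
      · exact Or.inr hv
  · rw [gen_noncap col h6]
    exact ⟨1, (one_smul _ _).symm⟩

theorem spt_cases : ∀ s, (spt s 0 = 0 ∨ spt s 0 = 3) ∧ (spt s 1 = 1 ∨ spt s 1 = 4) ∧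
    (spt s 2 = 2 ∨ spt s 2 = 5) := by decide +kernel

theorem spt_zero : ∀ s, s ≠ 1 → spt s 0 = 0 := by decide +kernel

section
variable {col : Fin 19 → Fin 12} {X : Type} [TopologicalSpace X] [T2Space X] {κ : GG → PP → X}
variable (hBC : IsBC (gen col) Fac κ)
include hBC

/-- Special points are singular. -/
theorem sp_not_reg (s : Fin 4) (h : G12) : ¬ IsRegPt (sp κ s h) := by
  intro hreg
  obtain ⟨Θ, hΘc, hΘ⟩ := exists_theta hBC wM wM_continuous (fun a u hu hs => wM_ne a hu hs)
    (fun a v u _ hv => wM_comp col a v u hv)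
  have hodd := (odd_theta hBC wM wM_continuous (fun a u hu hs => wM_ne a hu hs) hΘ s h
    (fun _ => ![1, 1, -1]) (by
      intro e m u _ hm _
      obtain ⟨h0, h1, h2⟩ := spt_cases s
      fin_cases m
      · refine wM_0 e h ?_
        change spt s 0 ∈ act u at hm
        rcases h0 with h0 | h0 <;> rw [h0] at hm
        · exact Or.inl hm
        · exact Or.inr hm
      · refine wM_1 e h ?_
        change spt s 1 ∈ act u at hm
        rcases h1 with h1 | h1 <;> rw [h1] at hm
        · exact Or.inl hm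
        · exact Or.inr hm
      · refine wM_2 e h ?_
        change spt s 2 ∈ act u at hm
        rcases h2 with h2 | h2 <;> rw [h2] at hm
        · exact Or.inl hm
        · exact Or.inr hm)).mpr (by decide)
  have hfin : (spSet κ \ {sp κ s h}).Finite := finite_spSet.subset Set.sdiff_subset
  have hW : (spSet κ \ {sp κ s h})ᶜ ∈ 𝓝 (sp κ s h) :=
    hfin.isClosed.isOpen_compl.mem_nhds fun h => h.2 rfl
  refine reg_not_odd hreg hW (hΘc.mono ?_) hodd
  rintro x ⟨hx, hxp⟩ hxs
  exact hx ⟨hxs, hxp⟩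

end

/-! ### The map for the colouring `A` -/

/-- The chambers around the four distinguished special points. -/
def Good (h : G12) : Prop := ∀ c : Fin 12, c ≠ 1 → c ≠ 2 → h c = 1

/-- The cut-off. -/
def rho (u : E3) : ℝ := max (u 0 - 23) 0

/-- The first coordinate. -/
def xi (u : E3) : ℝ := min (24 - u 0) 1

def wA (a : GG) (u : E3) : E3 :=
  haveI := Classical.propDecidable (Good a.2)
  if Good a.2 then vec a.1 (xi u) (rho u * u 1) (rho u * u 2) else vec 1 1 0 0

theorem wA_good {e : G2} {h : G12} (hg : Good h) (u : E3) :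
    wA (e, h) u = vec e (xi u) (rho u * u 1) (rho u * u 2) := if_pos hg

theorem wA_bad {e : G2} {h : G12} (hg : ¬ Good h) (u : E3) :
    wA (e, h) u = vec 1 1 0 0 := if_neg hg

theorem wA_continuous (a : GG) : Continuous (wA a) := by
  obtain ⟨e, h⟩ := a
  have h0 := continuous_coord 0
  have h1 := continuous_coord 1
  have h2 := continuous_coord 2
  have hr : Continuous rho := (h0.sub continuous_const).max continuous_const
  have hx : Continuous xi := (continuous_const.sub h0).min continuous_const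
  by_cases hg : Good h
  · have : wA (e, h) = fun u => vec e (xi u) (rho u * u 1) (rho u * u 2) :=
      funext fun u => wA_good hg u
    rw [this]
    exact continuous_vec e hx (hr.mul h1) (hr.mul h2)
  · have : wA (e, h) = fun _ => vec 1 1 0 0 := funext fun u => wA_bad hg u
    rw [this]
    exact continuous_const

theorem vec_one_ne : vec 1 1 0 0 ≠ 0 := vec_ne fun h => one_ne_zero h.1

theorem wA_ne (a : GG) {u : E3} (_hu : u ∈ PP) (hs : ∀ s, u ≠ spv s) : wA a u ≠ 0 := by
  obtain ⟨e, h⟩ := a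
  by_cases hg : Good h
  · rw [wA_good hg]
    apply vec_ne
    rintro ⟨h0, h1, h2⟩
    have hu0 : u 0 = 24 := by
      unfold xi at h0
      rcases min_choice (24 - u 0) 1 with h3 | h3 <;> rw [h3] at h0 <;> linarith
    have hrho : rho u = 1 := by
      unfold rho; rw [hu0]; norm_num
    rw [hrho, one_mul] at h1 h2
    exact hs 1 (eq_spv (by simp [hu0, spn]) (by simp [h1, spn]) (by simp [h2, spn]))
  · rw [wA_bad hg]; exact vec_one_ne

theorem low_x {u : E3} (h0 : u 0 ≤ 23) : xi u = 1 ∧ rho u = 0 := by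
  unfold xi rho
  exact ⟨min_eq_right (by linarith), max_eq_right (by linarith)⟩

/-- Low points: the vectors are `±` the first basis vector. -/
theorem wA_low (a : GG) {u : E3} (h0 : u 0 ≤ 23) : ∃ t : ℤˣ, wA a u = t • vec 1 1 0 0 := by
  obtain ⟨e, h⟩ := a
  obtain ⟨hx, hr⟩ := low_x h0
  by_cases hg : Good h
  · rw [wA_good hg, hx, hr, zero_mul, zero_mul]
    exact ⟨e 0, vec_base e 1⟩
  · rw [wA_bad hg]
    exact ⟨1, (one_smul _ _).symm⟩

theorem low_facets : ∀ v : Fin 19, ¬ v.val < 6 → v ≠ 7 → v ≠ 8 → v ≠ 9 → ∀ u ∈ PP, v ∈ act u →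
    u 0 ≤ 23 := by
  intro v h6 h7 h8 h9 u hu hv
  have e : ell v u = 0 := hv
  have f := hu
  have f0 := hu 0
  have f1 := hu 1
  have f2 := hu 2
  have f3 := hu 3
  have f4 := hu 4
  have f5 := hu 5
  have f6 := hu 6
  have f7 := hu 7
  have f8 := hu 8
  have f9 := hu 9
  have f10 := hu 10
  have f11 := hu 11
  have f12 := hu 12
  have f13 := hu 13
  have f14 := hu 14
  have f15 := hu 15
  have f16 := hu 16
  have f17 := hu 17
  have f18 := hu 18
  clear hv hu f
  simp [ell, na, nc] at f0 f1 f2 f3 f4 f5 f6 f7 f8 f9 f10 f11 f12 f13 f14 f15 f16 f17 f18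
  fin_cases v <;> first
    | exact absurd (by decide) h6
    | exact absurd rfl h7
    | exact absurd rfl h8
    | exact absurd rfl h9
    | (simp [ell, na, nc] at e; linarith)

theorem wA_0 (e : G2) {h : G12} (hg : Good h) {u : E3} (hu : (0 : Fin 19) ∈ act u) :
    wA (e * cc 0, h) u = (-1 : ℤˣ) • wA (e, h) u := by
  obtain ⟨hx, hr⟩ := low_x (u := u) (by rw [act0 hu]; norm_num)
  rw [wA_good hg, wA_good hg, hx, hr, zero_mul, zero_mul]
  exact vec_0' e 1

theorem wA_3 (e : G2) {h : G12} (hg : Good h) {u : E3} (hu : (3 : Fin 19) ∈ act u) :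
    wA (e * cc 0, h) u = (1 : ℤˣ) • wA (e, h) u := by
  have hx : xi u = 0 := by
    unfold xi; rw [act3 hu]; norm_num
  rw [wA_good hg, wA_good hg, hx]
  exact vec_0 e _ _

theorem wA_1 (e : G2) {h : G12} (hg : Good h) {u : E3} (huP : u ∈ PP)
    (hu : (1 : Fin 19) ∈ act u ∨ (4 : Fin 19) ∈ act u) :
    wA (e * cc 1, h) u = (1 : ℤˣ) • wA (e, h) u := by
  have hx : rho u * u 1 = 0 := by
    rcases hu with hu | hu
    · rw [act1 hu, mul_zero]
    · have h1 := act4 hu
      have h2 := (PP_sum2 huP).1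
      rw [(low_x (u := u) (by linarith)).2, zero_mul]
  rw [wA_good hg, wA_good hg, hx]
  exact vec_1 e _ _

theorem wA_2 (e : G2) {h : G12} (hg : Good h) {u : E3} (huP : u ∈ PP)
    (hu : (2 : Fin 19) ∈ act u ∨ (5 : Fin 19) ∈ act u) :
    wA (e * cc 2, h) u = (-1 : ℤˣ) • wA (e, h) u := by
  have hx : rho u * u 2 = 0 := by
    rcases hu with hu | hu
    · rw [act2 hu, mul_zero]
    · have h1 := act5 hu
      have h2 := (PP_sum2 huP).2.1
      rw [(low_x (u := u) (by linarith)).2, zero_mul]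
  rw [wA_good hg, wA_good hg, hx]
  exact vec_2 e _ _

theorem good_mul {h : G12} {c : Fin 12} (hc : c = 1 ∨ c = 2) : Good (h * ee c) ↔ Good h := by
  unfold Good
  refine forall_congr' fun d => imp_congr_right fun h1 => imp_congr_right fun h2 => ?_
  rw [Pi.mul_apply, ee_ne (by rintro rfl; rcases hc with h | h; exacts [h1 h, h2 h]), mul_one]

theorem wA_comp (a : GG) (v : Fin 19) (u : E3) (hu : u ∈ PP) (hv : v ∈ act u) :
    ∃ t : ℤˣ, wA (a * gen colA v) u = t • wA a u := by
  obtain ⟨e, h⟩ := a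
  by_cases h6 : v.val < 6
  · rw [gen_cap colA h6]
    by_cases hg : Good h
    · rcases cap_type v h6 with ⟨h1, h2⟩ | ⟨h1, h2⟩ | ⟨h1, h2⟩
      · rw [h1]
        rcases h2 with rfl | rfl
        · exact ⟨-1, wA_0 e hg hv⟩
        · exact ⟨1, wA_3 e hg hv⟩
      · rw [h1]
        refine ⟨1, wA_1 e hg hu ?_⟩
        rcases h2 with rfl | rfl
        · exact Or.inl hv
        · exact Or.inr hv
      · rw [h1]
        refine ⟨-1, wA_2 e hg hu ?_⟩
        rcases h2 with rfl | rfl
        · exact Or.inl hv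
        · exact Or.inr hv
    · rw [wA_bad hg, wA_bad hg]
      exact ⟨1, (one_smul _ _).symm⟩
  · rw [gen_noncap colA h6]
    by_cases h789 : v = 7 ∨ v = 8 ∨ v = 9
    · have hc : colA v = 1 ∨ colA v = 2 := by
        rcases h789 with rfl | rfl | rfl <;> decide
      have hgg := good_mul (h := h) hc
      refine ⟨1, ?_⟩
      rw [one_smul]
      by_cases hg : Good h
      · rw [wA_good hg, wA_good (hgg.mpr hg)]
      · rw [wA_bad hg, wA_bad (fun h' => hg (hgg.mp h'))]
    · push Not at h789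
      have hlow := low_facets v h6 h789.1 h789.2.1 h789.2.2 u hu hv
      obtain ⟨t1, ht1⟩ := wA_low (e, h * ee (colA v)) hlow
      obtain ⟨t2, ht2⟩ := wA_low (e, h) hlow
      refine ⟨t1 * t2, ?_⟩
      rw [ht1, ht2, ← mul_smul, mul_assoc, sq_one, mul_one]

theorem ncard_good : {h : G12 | Good h}.ncard = 4 := by
  have h1 : {h : G12 | Good h} = Set.range fun p : ℤˣ × ℤˣ => fun c : Fin 12 =>
      if c = 1 then p.1 else if c = 2 then p.2 else 1 := by
    ext h
    constructor
    · intro hg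
      refine ⟨(h 1, h 2), ?_⟩
      funext c
      change (if c = 1 then h 1 else if c = 2 then h 2 else 1) = h c
      by_cases h1 : c = 1
      · rw [if_pos h1, h1]
      · by_cases h2 : c = 2
        · rw [if_neg h1, if_pos h2, h2]
        · rw [if_neg h1, if_neg h2, hg c h1 h2]
    · rintro ⟨p, rfl⟩ c h1 h2
      simp [h1, h2]
  have h2 : Function.Injective fun p : ℤˣ × ℤˣ => (fun c : Fin 12 =>
      if c = 1 then p.1 else if c = 2 then p.2 else 1 : G12) := by
    rintro ⟨a, b⟩ ⟨c, d⟩ h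
    have e1 := congrFun h 1
    have e2 := congrFun h 2
    simp at e1 e2
    rw [e1, e2]
  rw [h1, ← Set.image_univ, Set.ncard_image_of_injective _ h2, Set.ncard_univ, Nat.card_prod,
    Nat.card_eq_fintype_card]
  rfl

theorem fourOdd_A {X : Type} [TopologicalSpace X] [T2Space X] {κ : GG → PP → X}
    (hBC : IsBC (gen colA) Fac κ) (hreg : ∀ a (k : PP), (∀ s, k.1 ≠ spv s) → IsRegPt (κ a k)) :
    FourOdd X := by
  classical
  obtain ⟨Θ, hΘc, hΘ⟩ := exists_theta hBC wA wA_continuous (fun a u hu hs => wA_ne a hu hs)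
    (fun a v u hu hv => wA_comp a v u hu hv)
  refine ⟨Θ, fun p hp => ?_, ?_⟩
  · refine hΘc.continuousAt (isOpen_compl_spSet.mem_nhds ?_)
    rintro ⟨⟨s, h⟩, rfl⟩
    exact sp_not_reg hBC s h hp
  · have hodd : ∀ s h, OddAt Θ (sp κ s h) ↔ s = 1 ∧ Good h := by
      intro s h
      let t : G2 → Fin 3 → ℤˣ := fun _ =>
        if Good h then ![if s = 1 then 1 else -1, 1, -1] else 1
      rw [odd_theta hBC wA wA_continuous (fun a u hu hs => wA_ne a hu hs) hΘ s h t]
      · by_cases hg : Good h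
        · by_cases hs : s = 1
          · simp [t, hg, hs]
          · simp [t, hg, hs]
        · simp [t, hg]
      · intro e m u hu hm _
        obtain ⟨h0, h1, h2⟩ := spt_cases s
        by_cases hg : Good h
        · have ht : t e = ![if s = 1 then 1 else -1, 1, -1] := if_pos hg
          rw [ht]
          fin_cases m
          · change spt s 0 ∈ act u at hm
            change wA (e * cc 0, h) u = (if s = 1 then (1 : ℤˣ) else -1) • wA (e, h) u
            by_cases hs : s = 1
            · subst hs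
              rw [if_pos rfl]
              exact wA_3 e hg hm
            · rw [if_neg hs]
              rw [spt_zero s hs] at hm
              exact wA_0 e hg hm
          · change spt s 1 ∈ act u at hm
            refine wA_1 e hg hu ?_
            rcases h1 with h1 | h1 <;> rw [h1] at hm
            · exact Or.inl hm
            · exact Or.inr hm
          · change spt s 2 ∈ act u at hm
            refine wA_2 e hg hu ?_
            rcases h2 with h2 | h2 <;> rw [h2] at hm
            · exact Or.inl hm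
            · exact Or.inr hm
        · have ht : t e = 1 := if_neg hg
          rw [ht, wA_bad hg, wA_bad hg]
          exact (one_smul _ _).symm
    have hset : {p | ¬ IsRegPt p ∧ OddAt Θ p} = (fun h => sp κ 1 h) '' {h | Good h} := by
      ext p
      constructor
      · rintro ⟨h1, h2⟩
        obtain ⟨a, k, rfl⟩ := hBC.surj p
        by_cases hk : ∀ s, k.1 ≠ spv s
        · exact absurd (hreg a k hk) h1
        · push Not at hk
          obtain ⟨s, hs⟩ := hk
          have hk' : k = spP s := Subtype.ext hs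
          have ha : κ a k = sp κ s a.2 := by
            rw [hk']; exact sp_eq hBC s a.1 a.2
          rw [ha] at h2 ⊢
          obtain ⟨h3, h4⟩ := (hodd s a.2).mp h2
          exact ⟨a.2, h4, by rw [h3]⟩
      · rintro ⟨h, hg, rfl⟩
        exact ⟨sp_not_reg hBC 1 h, (hodd 1 h).mpr ⟨rfl, hg⟩⟩
    rw [hset, Set.ncard_image_of_injective _ (fun h h' he => (sp_injective hBC he).2), ncard_good]

end Pool.Agent.H75.AX
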