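import Pool.Agent.H75.AX.MirDefs
import Pool.Agent.H75.AX.J1

/-!
Absolute extensor property of the pieces of the basic construction.
-/

set_option autoImplicit false

open scoped Topology

noncomputable section

namespace Pool.Agent.H75.AX

/-- The nerve lemma for absolute extensors. -/
theorem nerve {Y ι : Type} [TopologicalSpace Y] [DecidableEq ι] (J : Finset ι) (hJ : J.Nonempty) :
    ∀ (S : ι → Set Y), (∀ i, IsClosed (S i)) →
    (∀ J' ⊆ J, J'.Nonempty → AE ↥(⋂ i ∈ J', S i)) → AE ↥(⋃ i ∈ J, S i) := by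
  induction hJ using Finset.Nonempty.cons_induction with
  | singleton a =>
    intro S hS h
    have h1 := h {a} subset_rfl ⟨a, Finset.mem_singleton_self a⟩
    have i1 : (⋂ i ∈ ({a} : Finset ι), S i) = S a := by ext x; simp
    have i2 : (⋃ i ∈ ({a} : Finset ι), S i) = S a := by ext x; simp
    rw [i1] at h1
    rw [i2]
    exact h1
  | cons a J ha hJ ih =>
    intro S hS h
    have e1 : (⋃ i ∈ Finset.cons a J ha, S i) = S a ∪ ⋃ i ∈ J, S i := by
      ext x; simp
    rw [e1]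
    have hclosed : IsClosed (⋃ i ∈ J, S i) :=
      Set.Finite.isClosed_biUnion J.finite_toSet fun i _ => hS i
    refine J1_union Y _ _ (hS a) hclosed ?_ ?_ ?_
    · have h1 := h {a} (by intro x hx; rw [Finset.mem_singleton] at hx; subst hx; simp)
        ⟨a, Finset.mem_singleton_self a⟩
      have i1 : (⋂ i ∈ ({a} : Finset ι), S i) = S a := by ext x; simp
      rw [i1] at h1
      exact h1
    · refine ih S hS fun J' hJ' hne => h J' (hJ'.trans ?_) hne
      intro x hx; simp [hx]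
    · have e2 : S a ∩ ⋃ i ∈ J, S i = ⋃ i ∈ J, S i ∩ S a := by
        ext x
        simp only [Set.mem_inter_iff, Set.mem_iUnion, exists_prop]
        constructor
        · rintro ⟨h1, i, hi, h2⟩; exact ⟨i, hi, h2, h1⟩
        · rintro ⟨i, hi, h2, h1⟩; exact ⟨h1, i, hi, h2⟩
      rw [e2]
      refine ih (fun i => S i ∩ S a) (fun i => (hS i).inter (hS a)) fun J' hJ' hne => ?_
      have e3 : (⋂ i ∈ J', S i ∩ S a) = ⋂ i ∈ insert a J', S i := by
        obtain ⟨j, hj⟩ := hne
        ext x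
        simp only [Set.mem_iInter, Set.mem_inter_iff, Finset.mem_insert, forall_eq_or_imp]
        constructor
        · intro h1; exact ⟨(h1 j hj).2, fun i hi => (h1 i hi).1⟩
        · rintro ⟨h1, h2⟩ i hi; exact ⟨h2 i hi, h1⟩
      rw [e3]
      refine h _ ?_ ⟨a, by simp⟩
      intro x hx
      rw [Finset.mem_insert] at hx
      rcases hx with rfl | hx
      · simp
      · simp [hJ' hx]

/-! ### The subgroups generated by caps -/

/-- The subgroup generated by the colours of the caps in `T`. -/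
def capcl (T : Set (Fin 19)) : Subgroup G2 :=
  Subgroup.closure (capcol '' {w | w ∈ T ∧ w.val < 6})

/-- The subgroup generated by the colours of the other facets in `T`. -/
def noncl (col : Fin 19 → Fin 12) (T : Set (Fin 19)) : Subgroup G12 :=
  Subgroup.closure ((fun w => ee (col w)) '' {w | w ∈ T ∧ ¬ w.val < 6})

theorem capcl_mono {T T' : Set (Fin 19)} (h : ∀ w, w.val < 6 → w ∈ T → w ∈ T') :
    capcl T ≤ capcl T' :=
  Subgroup.closure_mono (Set.image_mono fun w hw => ⟨h w hw.2 hw.1, hw.2⟩)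

theorem mem_closure_gen (col : Fin 19 → Fin 12) (T : Set (Fin 19)) (a : GG) :
    a ∈ Subgroup.closure (gen col '' T) ↔ a.1 ∈ capcl T ∧ a.2 ∈ noncl col T := by
  constructor
  · intro h
    induction h using Subgroup.closure_induction with
    | mem x hx =>
      obtain ⟨v, hv, rfl⟩ := hx
      unfold gen
      by_cases h6 : v.val < 6
      · rw [if_pos h6]
        exact ⟨Subgroup.subset_closure ⟨v, ⟨hv, h6⟩, rfl⟩, Subgroup.one_mem _⟩
      · rw [if_neg h6]
        exact ⟨Subgroup.one_mem _, Subgroup.subset_closure ⟨v, ⟨hv, h6⟩, rfl⟩⟩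
    | one => exact ⟨Subgroup.one_mem _, Subgroup.one_mem _⟩
    | mul x y _ _ hx hy => exact ⟨Subgroup.mul_mem _ hx.1 hy.1, Subgroup.mul_mem _ hx.2 hy.2⟩
    | inv x _ hx => exact ⟨Subgroup.inv_mem _ hx.1, Subgroup.inv_mem _ hx.2⟩
  · rintro ⟨h1, h2⟩
    have e1 : capcl T ≤ (Subgroup.closure (gen col '' T)).comap (MonoidHom.inl G2 G12) := by
      unfold capcl
      rw [Subgroup.closure_le]
      rintro _ ⟨w, ⟨hw, h6⟩, rfl⟩
      change ((capcol w, 1) : GG) ∈ Subgroup.closure (gen col '' T)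
      refine Subgroup.subset_closure ⟨w, hw, ?_⟩
      unfold gen; rw [if_pos h6]
    have e2 : noncl col T ≤ (Subgroup.closure (gen col '' T)).comap (MonoidHom.inr G2 G12) := by
      unfold noncl
      rw [Subgroup.closure_le]
      rintro _ ⟨w, ⟨hw, h6⟩, rfl⟩
      change ((1, ee (col w)) : GG) ∈ Subgroup.closure (gen col '' T)
      refine Subgroup.subset_closure ⟨w, hw, ?_⟩
      unfold gen; rw [if_neg h6]
    have h3 : ((a.1, 1) : GG) ∈ Subgroup.closure (gen col '' T) := e1 h1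
    have h4 : ((1, a.2) : GG) ∈ Subgroup.closure (gen col '' T) := e2 h2
    have h5 := Subgroup.mul_mem _ h3 h4
    rwa [Prod.mk_mul_mk, one_mul, mul_one] at h5

section
variable {col : Fin 19 → Fin 12} {X : Type} [MetricSpace X] {κ : GG → PP → X}

/-- The image of a subset of the polytope in the chamber `e`. -/
def img (κ : GG → PP → X) (e : G2) (A : Set E3) : Set X := {x | ∃ u : PP, u.1 ∈ A ∧ κ (e, 1) u = x}

variable (hBC : IsBC (gen col) Fac κ)
include hBC

theorem kappa_eq_iff (a b : GG) (u w : PP) : κ a u = κ b w ↔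
    u = w ∧ a.1⁻¹ * b.1 ∈ capcl (act u.1) ∧ a.2⁻¹ * b.2 ∈ noncl col (act u.1) := by
  rw [hBC.eq_iff]
  refine and_congr_right fun _ => ?_
  exact mem_closure_gen col (act u.1) (a⁻¹ * b)

theorem kappa_eq_iff' (e e' : G2) (h : G12) (u w : PP) : κ (e, h) u = κ (e', h) w ↔
    u = w ∧ e⁻¹ * e' ∈ capcl (act u.1) := by
  rw [kappa_eq_iff hBC]
  refine and_congr_right fun _ => ?_
  rw [inv_mul_cancel]
  exact and_iff_left (Subgroup.one_mem _)

theorem isClosed_img (e : G2) {A : Set E3} (hA : IsClosed A) : IsClosed (img κ e A) := by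
  have : img κ e A = κ (e, 1) '' (Subtype.val ⁻¹' A) := rfl
  rw [this]
  exact ((hA.preimage continuous_subtype_val).isCompact.image (hBC.continuous _)).isClosed

theorem AE_img (e : G2) {A : Set E3} (hA : IsClosed A) (hc : Convex ℝ A) (hne : (PP ∩ A).Nonempty) :
    AE ↥(img κ e A) := by
  have h1 : AE ↥(PP ∩ A) := J1_convex E3 (PP ∩ A) (convex_PP.inter hc) (isClosed_PP.inter hA) hne
  let f : ↥(PP ∩ A) → ↥(img κ e A) := fun u => ⟨κ (e, 1) ⟨u.1, u.2.1⟩, ⟨⟨u.1, u.2.1⟩, u.2.2, rfl⟩⟩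
  have hf : Continuous f := by
    refine Continuous.subtype_mk ((hBC.continuous _).comp ?_) _
    exact Continuous.subtype_mk continuous_subtype_val _
  have hbij : Function.Bijective f := by
    constructor
    · intro u w huw
      have h2 := congrArg Subtype.val huw
      obtain ⟨h3, -⟩ := (kappa_eq_iff' hBC e e 1 _ _).mp h2
      exact Subtype.ext (Subtype.mk.inj h3)
    · rintro ⟨x, u, hu, rfl⟩
      exact ⟨⟨u.1, u.2, hu⟩, rfl⟩
  have hcomp : CompactSpace ↥(PP ∩ A) :=
    isCompact_iff_compactSpace.mp (isCompact_PP.inter_right hA)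
  have hcl : IsClosedMap f := hf.isClosedMap
  let φ : ↥(PP ∩ A) ≃ₜ ↥(img κ e A) :=
    (Equiv.ofBijective f hbij).toHomeomorphOfIsInducing
      (Topology.IsClosedEmbedding.of_continuous_injective_isClosedMap hf hbij.1 hcl).isInducing
  exact J1_homeo _ _ φ h1

/-- The face given by a set of facets. -/
def faceS (T : Finset (Fin 19)) : Set E3 := {u | ∀ w ∈ T, ell w u = 0}

omit hBC in
omit [MetricSpace X] in
theorem isClosed_faceS (T : Finset (Fin 19)) : IsClosed (faceS T) := by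
  have : faceS T = ⋂ w ∈ T, {u | ell w u = 0} := by ext; simp [faceS]
  rw [this]
  exact isClosed_biInter fun w _ => isClosed_eq (continuous_ell w) continuous_const

omit hBC in
omit [MetricSpace X] in
theorem convex_faceS (T : Finset (Fin 19)) : Convex ℝ (faceS T) := by
  intro x hx y hy a b _ _ hab w hw
  rw [ell_comb w x y a b hab, hx w hw, hy w hw]
  ring

/-- Stars of chambers are absolute extensors. -/
theorem AE_star {A : Set E3} (hA : IsClosed A) (hc : Convex ℝ A) {p : E3} (hpA : p ∈ A)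
    (hpP : p ∈ PP) (hcap : ∀ u ∈ PP, u ∈ A → ∀ w : Fin 19, w.val < 6 → w ∈ act u → w ∈ act p)
    (e0 : G2) : AE ↥(⋃ e ∈ {e : G2 | e0⁻¹ * e ∈ capcl (act p)}, img κ e A) := by
  classical
  set J : Finset G2 := Finset.univ.filter fun e => e0⁻¹ * e ∈ capcl (act p) with hJ
  have hJm : ∀ e, e ∈ J ↔ e0⁻¹ * e ∈ capcl (act p) := fun e => by simp [hJ]
  have e1 : (⋃ e ∈ {e : G2 | e0⁻¹ * e ∈ capcl (act p)}, img κ e A) = ⋃ e ∈ J, img κ e A := by
    ext x
    simp only [Set.mem_iUnion, exists_prop, hJm]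
    rfl
  rw [e1]
  have hJne : J.Nonempty := ⟨e0, by rw [hJm, inv_mul_cancel]; exact Subgroup.one_mem _⟩
  refine nerve J hJne (fun e => img κ e A) (fun e => isClosed_img hBC e hA) ?_
  intro J' hJ' hne
  obtain ⟨e2, he2⟩ := hne
  have hdiff : ∀ e ∈ J', e2⁻¹ * e ∈ capcl (act p) := by
    intro e he
    have h1 := (hJm e).mp (hJ' he)
    have h2 := (hJm e2).mp (hJ' he2)
    have h3 := Subgroup.mul_mem _ (Subgroup.inv_mem _ h2) h1
    have : (e0⁻¹ * e2)⁻¹ * (e0⁻¹ * e) = e2⁻¹ * e := by group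
    rwa [this] at h3
  -- the admissible sets of caps
  set 𝒯 : Finset (Finset (Fin 19)) := Finset.univ.filter fun T =>
    (∀ w ∈ T, w ∈ act p) ∧ ∀ e ∈ J', e2⁻¹ * e ∈ capcl (T : Set (Fin 19)) with h𝒯
  have h𝒯m : ∀ T, T ∈ 𝒯 ↔ (∀ w ∈ T, w ∈ act p) ∧
      ∀ e ∈ J', e2⁻¹ * e ∈ capcl (T : Set (Fin 19)) := fun T => by simp [h𝒯]
  have e3 : (⋂ e ∈ J', img κ e A) = ⋃ T ∈ 𝒯, img κ e2 (A ∩ faceS T) := by
    ext x
    simp only [Set.mem_iInter, Set.mem_iUnion, exists_prop]
    constructor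
    · intro hx
      obtain ⟨u, hu, rfl⟩ := hx e2 he2
      refine ⟨Finset.univ.filter fun w => w.val < 6 ∧ w ∈ act u.1, ?_, u, ⟨hu, ?_⟩, rfl⟩
      · rw [h𝒯m]
        constructor
        · intro w hw
          simp only [Finset.mem_filter, Finset.mem_univ, true_and] at hw
          exact hcap u.1 u.2 hu w hw.1 hw.2
        · intro e he
          obtain ⟨u', hu', hux⟩ := hx e he
          obtain ⟨h1, h2⟩ := (kappa_eq_iff' hBC e e2 1 u' u).mp hux
          subst h1
          have h3 := Subgroup.inv_mem _ h2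
          rw [mul_inv_rev, inv_inv] at h3
          refine capcl_mono ?_ h3
          intro w h6 hw
          simp [h6, hw]
      · intro w hw
        simp only [Finset.mem_filter, Finset.mem_univ, true_and] at hw
        exact hw.2
    · rintro ⟨T, hT, u, ⟨hu, hf⟩, rfl⟩ e he
      refine ⟨u, hu, ?_⟩
      rw [kappa_eq_iff' hBC]
      refine ⟨rfl, ?_⟩
      have h1 := ((h𝒯m T).mp hT).2 e he
      have h2 := Subgroup.inv_mem _ h1
      rw [mul_inv_rev, inv_inv] at h2
      exact capcl_mono (fun w _ hw => hf w hw) h2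
  rw [e3]
  refine nerve 𝒯 ?_ (fun T => img κ e2 (A ∩ faceS T))
    (fun T => isClosed_img hBC e2 (hA.inter (isClosed_faceS T))) ?_
  · refine ⟨Finset.univ.filter fun w => w ∈ act p, ?_⟩
    rw [h𝒯m]
    refine ⟨fun w hw => by simpa using hw, fun e he => capcl_mono (fun w _ hw => by simpa using hw)
      (hdiff e he)⟩
  · intro 𝒯' h𝒯' hne'
    have e4 : (⋂ T ∈ 𝒯', img κ e2 (A ∩ faceS T)) = img κ e2 (A ∩ faceS (𝒯'.biUnion id)) := by
      ext x
      simp only [Set.mem_iInter]
      constructor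
      · intro hx
        obtain ⟨T0, hT0⟩ := hne'
        obtain ⟨u, ⟨hu, hf⟩, rfl⟩ := hx T0 hT0
        refine ⟨u, ⟨hu, ?_⟩, rfl⟩
        intro w hw
        obtain ⟨T, hT, hwT⟩ := Finset.mem_biUnion.mp hw
        obtain ⟨u', ⟨_, hf'⟩, hux⟩ := hx T hT
        obtain ⟨h1, -⟩ := (kappa_eq_iff' hBC e2 e2 1 u' u).mp hux
        rw [← h1]
        exact hf' w hwT
      · rintro ⟨u, ⟨hu, hf⟩, rfl⟩ T hT
        exact ⟨u, ⟨hu, fun w hw => hf w (Finset.mem_biUnion.mpr ⟨T, hT, hw⟩)⟩, rfl⟩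
    rw [e4]
    refine AE_img hBC e2 (hA.inter (isClosed_faceS _)) (hc.inter (convex_faceS _)) ⟨p, hpP, hpA, ?_⟩
    intro w hw
    obtain ⟨T, hT, hwT⟩ := Finset.mem_biUnion.mp hw
    exact ((h𝒯m T).mp (h𝒯' hT)).1 w hwT

end

end Pool.Agent.H75.AX
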