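import Pool.Agent.H75.AX.KMir
import Pool.Agent.H75.AX.InvA

/-!
The mirrored space `K`: conclusion.
-/

set_option autoImplicit false

open scoped Topology

noncomputable section

namespace Pool.Agent.H75.AX

theorem capcl_spv (s : Fin 4) : capcl (act (spv s)) = ⊤ := by
  rw [eq_top_iff]
  intro e _
  have := closure_sp (col := colA) s e
  rw [mem_closure_gen] at this
  exact this.1

theorem cap_enum : ∀ w : Fin 19, w.val < 6 → w = 0 ∨ w = 1 ∨ w = 2 ∨ w = 3 ∨ w = 4 ∨ w = 5 := by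
  decide +kernel

/-- The points at the necks. -/
def nck : Fin 3 → Fin 3 → ℤ := ![![20, 0, 0], ![0, 20, 0], ![0, 0, 20]]

theorem nck_ok : ∀ i v, 0 ≤ ev v (nck i) 1 := by decide +kernel

/-- The caps active at the necks. -/
def nckcaps (i : Fin 3) : Finset G2 :=
  (Finset.univ.filter fun w : Fin 19 => w.val < 6 ∧ ev w (nck i) 1 = 0).image capcol

theorem nck_gen : ∀ i e, clB (nckcaps i) e := by decide +kernel

/-- The necks. -/
def nk (i : Fin 3) : E3 := ptZ (nck i) 1

theorem nk_mem (i : Fin 3) : nk i ∈ PP := ptZ_mem one_pos (nck_ok i)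

theorem capcl_nk (i : Fin 3) : capcl (act (nk i)) = ⊤ := by
  rw [eq_top_iff]
  intro e _
  have h := (mem_closure_clB _ _).mpr (nck_gen i e)
  unfold capcl
  refine Subgroup.closure_mono ?_ h
  intro x hx
  obtain ⟨w, hw, rfl⟩ := Finset.mem_image.mp hx
  obtain ⟨-, h6, h0⟩ := Finset.mem_filter.mp hw
  refine ⟨w, ⟨?_, h6⟩, rfl⟩
  unfold nk
  rw [act_ptZ one_pos]
  exact h0

/-- The central part. -/
def PO : Set E3 := {u | u 0 ≤ 20 ∧ u 1 ≤ 20 ∧ u 2 ≤ 20}

/-- The arms. -/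
def PI (i : Fin 3) : Set E3 := {u | 20 ≤ u i}

theorem isClosed_PO : IsClosed PO :=
  (isClosed_le (continuous_coord 0) continuous_const).inter
    ((isClosed_le (continuous_coord 1) continuous_const).inter
      (isClosed_le (continuous_coord 2) continuous_const))

theorem isClosed_PI (i : Fin 3) : IsClosed (PI i) :=
  isClosed_le continuous_const (continuous_coord i)

theorem convex_PO : Convex ℝ PO := by
  rintro x ⟨h0, h1, h2⟩ y ⟨k0, k1, k2⟩ a b ha hb hab
  refine ⟨?_, ?_, ?_⟩ <;> simp only [PiLp.add_apply, PiLp.smul_apply, smul_eq_mul] <;> nlinarith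

theorem convex_PI (i : Fin 3) : Convex ℝ (PI i) := by
  intro x hx y hy a b ha hb hab
  change 20 ≤ (a • x + b • y) i
  have h1 : (20 : ℝ) ≤ x i := hx
  have h2 : (20 : ℝ) ≤ y i := hy
  simp only [PiLp.add_apply, PiLp.smul_apply, smul_eq_mul]
  nlinarith

/-- The special vertex of an arm. -/
def armv (i : Fin 3) : Fin 4 := ![1, 2, 3] i

theorem armv_ok : ∀ i, (20 : ℤ) ≤ spn (armv i) i := by decide +kernel

theorem arm_caps (i : Fin 3) {u : E3} (hu : u ∈ PP) (hi : u ∈ PI i) (w : Fin 19) (hw : w.val < 6)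
    (hwu : w ∈ act u) : w ∈ act (spv (armv i)) := by
  obtain ⟨s1, s2, s3⟩ := PP_sum2 hu
  have b := PP_bounds hu
  have b0 := b 0
  have b1 := b 1
  have b2 := b 2
  have hi' : (20 : ℝ) ≤ u i := hi
  rw [act_spv]
  rcases cap_enum w hw with rfl | rfl | rfl | rfl | rfl | rfl
  · have := act0 hwu
    fin_cases i
    · exfalso
      change (20 : ℝ) ≤ u 0 at hi'
      linarith
    · simp [armv, spt]
    · simp [armv, spt]
  · have := act1 hwu
    fin_cases i
    · simp [armv, spt]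
    · exfalso
      change (20 : ℝ) ≤ u 1 at hi'
      linarith
    · simp [armv, spt]
  · have := act2 hwu
    fin_cases i
    · simp [armv, spt]
    · simp [armv, spt]
    · exfalso
      change (20 : ℝ) ≤ u 2 at hi'
      linarith
  · have := act3 hwu
    fin_cases i
    · simp [armv, spt]
    · exfalso
      change (20 : ℝ) ≤ u 1 at hi'
      linarith
    · exfalso
      change (20 : ℝ) ≤ u 2 at hi'
      linarith
  · have := act4 hwu
    fin_cases i
    · exfalso
      change (20 : ℝ) ≤ u 0 at hi'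
      linarith
    · simp [armv, spt]
    · exfalso
      change (20 : ℝ) ≤ u 2 at hi'
      linarith
  · have := act5 hwu
    fin_cases i
    · exfalso
      change (20 : ℝ) ≤ u 0 at hi'
      linarith
    · exfalso
      change (20 : ℝ) ≤ u 1 at hi'
      linarith
    · simp [armv, spt]

theorem center_caps {u : E3} (h : u ∈ PO) (w : Fin 19) (hw : w.val < 6)
    (hwu : w ∈ act u) : w ∈ act (spv 0) := by
  obtain ⟨h0, h1, h2⟩ := h
  rw [act_spv]
  rcases cap_enum w hw with rfl | rfl | rfl | rfl | rfl | rfl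
  · simp [spt]
  · simp [spt]
  · simp [spt]
  · have := act3 hwu; exfalso; linarith
  · have := act4 hwu; exfalso; linarith
  · have := act5 hwu; exfalso; linarith

theorem neck_caps (i : Fin 3) {u : E3} (h : u ∈ PO) (hi : u ∈ PI i) (w : Fin 19)
    (hw : w.val < 6) (hwu : w ∈ act u) : w ∈ act (nk i) := by
  obtain ⟨h0, h1, h2⟩ := h
  have hi' : (20 : ℝ) ≤ u i := hi
  unfold nk
  rw [act_ptZ one_pos]
  rcases cap_enum w hw with rfl | rfl | rfl | rfl | rfl | rfl
  · have := act0 hwu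
    fin_cases i
    · exfalso
      change (20 : ℝ) ≤ u 0 at hi'
      linarith
    · decide
    · decide
  · have := act1 hwu
    fin_cases i
    · decide
    · exfalso
      change (20 : ℝ) ≤ u 1 at hi'
      linarith
    · decide
  · have := act2 hwu
    fin_cases i
    · decide
    · decide
    · exfalso
      change (20 : ℝ) ≤ u 2 at hi'
      linarith
  · have := act3 hwu; exfalso; linarith
  · have := act4 hwu; exfalso; linarith
  · have := act5 hwu; exfalso; linarith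

section
variable {col : Fin 19 → Fin 12} {X : Type} [MetricSpace X] {κ : GG → PP → X}

/-- The union of the images in the four chambers. -/
def KP (κ : GG → PP → X) (A : Set E3) : Set X := ⋃ e : G2, img κ e A

omit [MetricSpace X] in
theorem mem_KP {A : Set E3} {x : X} : x ∈ KP κ A ↔ ∃ e : G2, ∃ u : PP, u.1 ∈ A ∧ κ (e, 1) u = x := by
  unfold KP img
  simp

omit [MetricSpace X] in
theorem KP_union (A B : Set E3) : KP κ A ∪ KP κ B = KP κ (A ∪ B) := by
  ext x
  simp only [Set.mem_union, mem_KP]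
  constructor
  · rintro (⟨e, u, h1, h2⟩ | ⟨e, u, h1, h2⟩)
    · exact ⟨e, u, Or.inl h1, h2⟩
    · exact ⟨e, u, Or.inr h1, h2⟩
  · rintro ⟨e, u, h1 | h1, h2⟩
    · exact Or.inl ⟨e, u, h1, h2⟩
    · exact Or.inr ⟨e, u, h1, h2⟩

variable (hBC : IsBC (gen col) Fac κ)
include hBC

theorem KP_inter (A B : Set E3) : KP κ A ∩ KP κ B = KP κ (A ∩ B) := by
  ext x
  simp only [Set.mem_inter_iff, mem_KP]
  constructor
  · rintro ⟨⟨e, u, h1, h2⟩, ⟨e', u', h1', h2'⟩⟩
    obtain ⟨h3, -⟩ := (kappa_eq_iff' hBC e e' 1 u u').mp (h2.trans h2'.symm)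
    exact ⟨e, u, ⟨h1, h3 ▸ h1'⟩, h2⟩
  · rintro ⟨e, u, ⟨h1, h1'⟩, h2⟩
    exact ⟨⟨e, u, h1, h2⟩, ⟨e, u, h1', h2⟩⟩

omit hBC in
omit [MetricSpace X] in
theorem KP_congr {A B : Set E3} (h : ∀ u ∈ PP, u ∈ A ↔ u ∈ B) : KP κ A = KP κ B := by
  ext x
  simp only [mem_KP]
  constructor
  · rintro ⟨e, u, h1, h2⟩; exact ⟨e, u, (h u.1 u.2).mp h1, h2⟩
  · rintro ⟨e, u, h1, h2⟩; exact ⟨e, u, (h u.1 u.2).mpr h1, h2⟩

theorem isClosed_KP {A : Set E3} (hA : IsClosed A) : IsClosed (KP κ A) :=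
  isClosed_iUnion_of_finite fun e => isClosed_img hBC e hA

theorem AE_KP {A : Set E3} (hA : IsClosed A) (hc : Convex ℝ A) {p : E3} (hpA : p ∈ A)
    (hpP : p ∈ PP) (hcap : ∀ u ∈ PP, u ∈ A → ∀ w : Fin 19, w.val < 6 → w ∈ act u → w ∈ act p)
    (hgen : capcl (act p) = ⊤) : AE ↥(KP κ A) := by
  have h1 := AE_star hBC hA hc hpA hpP hcap 1
  have h2 : (⋃ e ∈ {e : G2 | (1 : G2)⁻¹ * e ∈ capcl (act p)}, img κ e A) = KP κ A := by
    unfold KP
    ext x
    simp only [Set.mem_iUnion, exists_prop]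
    constructor
    · rintro ⟨e, -, h⟩; exact ⟨e, h⟩
    · rintro ⟨e, h⟩
      refine ⟨e, ?_, h⟩
      change (1 : G2)⁻¹ * e ∈ capcl (act p)
      rw [hgen]; trivial
  rw [h2] at h1
  exact h1

theorem AE_PI (i : Fin 3) : AE ↥(KP κ (PI i)) := by
  refine AE_KP hBC (isClosed_PI i) (convex_PI i) (p := spv (armv i)) ?_ (spv_mem _)
    (fun u hu hi w hw hwu => arm_caps i hu hi w hw hwu) (capcl_spv _)
  change (20 : ℝ) ≤ spv (armv i) i
  have := armv_ok i
  simp only [spv, ptZ_apply, Int.cast_one, div_one]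
  exact_mod_cast this

theorem AE_PO : AE ↥(KP κ PO) := by
  refine AE_KP hBC isClosed_PO convex_PO (p := spv 0) ?_ (spv_mem _)
    (fun u _ hi w hw hwu => center_caps hi w hw hwu) (capcl_spv _)
  refine ⟨?_, ?_, ?_⟩ <;> simp [spv, spn]

theorem AE_neck (i : Fin 3) : AE ↥(KP κ (PO ∩ PI i)) := by
  refine AE_KP hBC (isClosed_PO.inter (isClosed_PI i)) (convex_PO.inter (convex_PI i)) (p := nk i)
    ?_ (nk_mem _) (fun u _ hi w hw hwu => neck_caps i hi.1 hi.2 w hw hwu) (capcl_nk _)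
  refine ⟨⟨?_, ?_, ?_⟩, ?_⟩
  · fin_cases i <;> simp [nk, nck]
  · fin_cases i <;> simp [nk, nck]
  · fin_cases i <;> simp [nk, nck]
  · change (20 : ℝ) ≤ nk i i
    fin_cases i <;> simp [nk, nck]

theorem AE_K : AE ↥(KP κ Set.univ) := by
  have c0 := isClosed_KP hBC isClosed_PO
  have c1 := isClosed_KP hBC (isClosed_PI 0)
  have c2 := isClosed_KP hBC (isClosed_PI 1)
  have c3 := isClosed_KP hBC (isClosed_PI 2)
  have a1 : AE ↥(KP κ PO ∪ KP κ (PI 0)) := by
    refine J1_union X _ _ c0 c1 (AE_PO hBC) (AE_PI hBC 0) ?_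
    rw [KP_inter hBC]
    exact AE_neck hBC 0
  have a2 : AE ↥((KP κ PO ∪ KP κ (PI 0)) ∪ KP κ (PI 1)) := by
    refine J1_union X _ _ (c0.union c1) c2 a1 (AE_PI hBC 1) ?_
    have : (KP κ PO ∪ KP κ (PI 0)) ∩ KP κ (PI 1) = KP κ (PO ∩ PI 1) := by
      rw [KP_union, KP_inter hBC]
      refine KP_congr fun u hu => ?_
      obtain ⟨s1, s2, s3⟩ := PP_sum2 hu
      constructor
      · rintro ⟨h1 | h1, h2⟩
        · exact ⟨h1, h2⟩
        · exfalso
          have e1 : (20 : ℝ) ≤ u 0 := h1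
          have e2 : (20 : ℝ) ≤ u 1 := h2
          linarith
      · rintro ⟨h1, h2⟩; exact ⟨Or.inl h1, h2⟩
    rw [this]
    exact AE_neck hBC 1
  have a3 : AE ↥(((KP κ PO ∪ KP κ (PI 0)) ∪ KP κ (PI 1)) ∪ KP κ (PI 2)) := by
    refine J1_union X _ _ ((c0.union c1).union c2) c3 a2 (AE_PI hBC 2) ?_
    have : ((KP κ PO ∪ KP κ (PI 0)) ∪ KP κ (PI 1)) ∩ KP κ (PI 2) = KP κ (PO ∩ PI 2) := by
      rw [KP_union, KP_union, KP_inter hBC]
      refine KP_congr fun u hu => ?_
      obtain ⟨s1, s2, s3⟩ := PP_sum2 hu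
      constructor
      · rintro ⟨(h1 | h1) | h1, h2⟩
        · exact ⟨h1, h2⟩
        · exfalso
          have e1 : (20 : ℝ) ≤ u 0 := h1
          have e2 : (20 : ℝ) ≤ u 2 := h2
          linarith
        · exfalso
          have e1 : (20 : ℝ) ≤ u 1 := h1
          have e2 : (20 : ℝ) ≤ u 2 := h2
          linarith
      · rintro ⟨h1, h2⟩; exact ⟨Or.inl (Or.inl h1), h2⟩
    rw [this]
    exact AE_neck hBC 2
  have hK : ((KP κ PO ∪ KP κ (PI 0)) ∪ KP κ (PI 1)) ∪ KP κ (PI 2) = KP κ Set.univ := by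
    rw [KP_union, KP_union, KP_union]
    refine KP_congr fun u _ => ?_
    simp only [Set.mem_univ, iff_true, Set.mem_union]
    by_cases h0 : 20 ≤ u 0
    · exact Or.inl (Or.inl (Or.inr h0))
    by_cases h1 : 20 ≤ u 1
    · exact Or.inl (Or.inr h1)
    by_cases h2 : 20 ≤ u 2
    · exact Or.inr h2
    · push Not at h0 h1 h2
      exact Or.inl (Or.inl (Or.inl ⟨h0.le, h1.le, h2.le⟩))
  rw [hK] at a3
  exact a3

end

theorem AE_of_image {X : Type} [TopologicalSpace X] {K : Set X} (S : Set K) {T : Set X}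
    (hT : Subtype.val '' S = T) (h : AE ↥T) : AE ↥S := by
  subst hT
  exact J1_homeo _ _ (Topology.IsEmbedding.subtypeVal.homeomorphImage S).symm h

/-- Module K. -/
theorem specK : SpecK := by
  classical
  intro col X _ _ κ hBC
  choose τ hτc hτ using fun h : G12 => hBC.exists_translation ((1, h) : GG)
  have hτ' : ∀ (h : G12) (e : G2) (u : PP), τ h (κ (e, 1) u) = κ (e, h) u := by
    intro h e u
    rw [hτ, Prod.mk_mul_mk, one_mul, mul_one]
  set K : Set X := KP κ Set.univ with hK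
  have hKm : ∀ (e : G2) (u : PP), κ (e, 1) u ∈ K := fun e u => mem_KP.mpr ⟨e, u, trivial, rfl⟩
  have hKx : ∀ x : K, ∃ e : G2, ∃ u : PP, κ (e, 1) u = x.1 := by
    intro x
    obtain ⟨e, u, -, h⟩ := mem_KP.mp x.2
    exact ⟨e, u, h⟩
  let F : Mir → Set K := fun i => {x | x.1 ∈ MF κ i}
  let κ' : G12 → K → X := fun h x => τ h x.1
  have hKc : IsCompact K := (isClosed_KP hBC isClosed_univ).isCompact
  refine ⟨K, F, κ', hKc, ⟨?_, ?_, ?_⟩, ⟨?_, ?_, ?_⟩⟩
  · -- closed mirrors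
    intro i
    exact (isClosed_MF hBC i).preimage continuous_subtype_val
  · -- adjacency
    intro i j x hij hi hj
    obtain ⟨e, u, hx⟩ := hKx x
    have hi' : κ (e, 1) u ∈ MF κ i := by rw [hx]; exact hi
    have hj' : κ (e, 1) u ∈ MF κ j := by rw [hx]; exact hj
    obtain ⟨h1, h2⟩ := (MF_iff hBC i e u).mp hi'
    obtain ⟨h3, h4⟩ := (MF_iff hBC j e u).mp hj'
    refine ⟨adj_of_act u.2 ?_ h1 h3, e, h2, h4⟩
    intro hlab
    apply hij
    apply Subtype.ext
    refine Prod.ext hlab ?_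
    change i.cls = j.cls
    rw [cls_eq h2, cls_eq h4, hlab]
  · -- absolute extensors
    intro σ hσ
    by_cases hne : σ.Nonempty
    · refine AE_of_image _ ?_ (AE_mirror hBC σ hσ hne)
      ext x
      constructor
      · rintro ⟨y, hy, rfl⟩ i hi
        have := Set.mem_iInter₂.mp hy i hi
        exact this
      · intro hx
        obtain ⟨i, hi⟩ := hne
        obtain ⟨e, he, u, hu, rfl⟩ := hx i hi
        exact ⟨⟨κ (e, 1) u, hKm e u⟩, Set.mem_iInter₂.mpr fun j hj => hx j hj, rfl⟩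
    · rw [Finset.not_nonempty_iff_eq_empty] at hne
      subst hne
      refine AE_of_image _ ?_ (AE_K hBC)
      ext x
      constructor
      · rintro ⟨y, -, rfl⟩; exact y.2
      · intro hx
        exact ⟨⟨x, hx⟩, by simp, rfl⟩
  · -- surjectivity
    intro x
    obtain ⟨a, k, rfl⟩ := hBC.surj x
    exact ⟨a.2, ⟨κ (a.1, 1) k, hKm _ _⟩, hτ' a.2 a.1 k⟩
  · -- identifications
    intro a b x y
    obtain ⟨e, u, hx⟩ := hKx x
    obtain ⟨e', u', hy⟩ := hKx y
    have h1 : κ' a x = κ (e, a) u := by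
      change τ a x.1 = _
      rw [← hx, hτ']
    have h2 : κ' b y = κ (e', b) u' := by
      change τ b y.1 = _
      rw [← hy, hτ']
    have h3 : x = y ↔ u = u' ∧ e⁻¹ * e' ∈ capcl (act u.1) := by
      rw [Subtype.ext_iff, ← hx, ← hy, kappa_eq_iff' hBC]
    have h4 : (fun i : Mir => ee (col i.lab)) '' {i | x ∈ F i} =
        (fun w => ee (col w)) '' {w | w ∈ act u.1 ∧ ¬ w.val < 6} := by
      ext z
      constructor
      · rintro ⟨i, hi, rfl⟩
        have hi' : κ (e, 1) u ∈ MF κ i := by rw [hx]; exact hi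
        exact ⟨i.lab, ⟨((MF_iff hBC i e u).mp hi').1, i.2.1⟩, rfl⟩
      · rintro ⟨w, ⟨hw, hw6⟩, rfl⟩
        let i : Mir := ⟨(w, {x | e⁻¹ * x ∈ capsub w}), hw6, e, rfl⟩
        refine ⟨i, ?_, rfl⟩
        change x.1 ∈ MF κ i
        rw [← hx, MF_iff hBC]
        refine ⟨hw, ?_⟩
        change e⁻¹ * e ∈ capsub w
        rw [inv_mul_cancel]; exact Subgroup.one_mem _
    rw [h1, h2, kappa_eq_iff hBC, h3, h4]
    unfold noncl
    tauto
  · -- topology
    intro U
    constructor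
    · intro hU h
      exact hU.preimage ((hτc h).comp continuous_subtype_val)
    · intro hU
      rw [hBC.isOpen_iff]
      intro a
      have h1 : κ a ⁻¹' U = (fun u : PP => (⟨κ (a.1, 1) u, hKm _ _⟩ : K)) ⁻¹' (κ' a.2 ⁻¹' U) := by
        ext u
        simp only [Set.mem_preimage]
        change κ a u ∈ U ↔ τ a.2 (κ (a.1, 1) u) ∈ U
        rw [hτ']
      rw [h1]
      exact (hU a.2).preimage (Continuous.subtype_mk (hBC.continuous _) _)

end Pool.Agent.H75.AX
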