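import Pool.Agent.H75.AX.KAE

/-!
The mirrored space `K` and the basic construction over it.
-/

set_option autoImplicit false

open scoped Topology

noncomputable section

namespace Pool.Agent.H75.AX

/-! ### Computable closures in `G2` -/

/-- The subgroup generated by a finite set in `G2`. -/
def clB (S : Finset G2) (e : G2) : Prop := e = 1 ∨ e ∈ S ∨ ∃ a ∈ S, ∃ b ∈ S, e = a * b

instance (S : Finset G2) (e : G2) : Decidable (clB S e) := by
  unfold clB; infer_instance

theorem clB_mul : ∀ S : Finset G2, ∀ x y, clB S x → clB S y → clB S (x * y) := by decide +kernel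

theorem mem_closure_clB (S : Finset G2) (e : G2) :
    e ∈ Subgroup.closure (S : Set G2) ↔ clB S e := by
  constructor
  · intro h
    induction h using Subgroup.closure_induction with
    | mem x hx => exact Or.inr (Or.inl hx)
    | one => exact Or.inl rfl
    | mul x y _ _ hx hy => exact clB_mul S x y hx hy
    | inv x _ hx =>
      have : x⁻¹ = x := by
        rw [inv_eq_iff_mul_eq_one]; exact G2_sq x
      rwa [this]
  · rintro (rfl | h | ⟨a, ha, b, hb, rfl⟩)
    · exact Subgroup.one_mem _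
    · exact Subgroup.subset_closure h
    · exact Subgroup.mul_mem _ (Subgroup.subset_closure ha) (Subgroup.subset_closure hb)

/-- Colours of the caps adjacent to `v`. -/
def capF (v : Fin 19) : Finset G2 :=
  (Finset.univ.filter fun w : Fin 19 => w.val < 6 ∧ adjP w v).image capcol

theorem mem_capsub (v : Fin 19) (e : G2) : e ∈ capsub v ↔ clB (capF v) e := by
  rw [← mem_closure_clB]
  unfold capsub capF
  have : {e | ∃ w : Fin 19, w.val < 6 ∧ adjP w v ∧ capcol w = e} =
      (((Finset.univ.filter fun w : Fin 19 => w.val < 6 ∧ adjP w v).image capcol : Finset G2) :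
        Set G2) := by
    ext e
    simp only [Finset.coe_image, Finset.coe_filter, Finset.mem_univ, true_and, Set.mem_image]
    constructor
    · rintro ⟨w, h1, h2, h3⟩; exact ⟨w, ⟨h1, h2⟩, h3⟩
    · rintro ⟨w, ⟨h1, h2⟩, h3⟩; exact ⟨w, h1, h2, h3⟩
  rw [this]

/-- Colours of the caps at the vertex `t`. -/
def capV (t : Fin 34) : Finset G2 :=
  (Finset.univ.filter fun w : Fin 19 => w.val < 6 ∧ ∃ m, tri t m = w).image capcol

theorem mem_capcl_vtx (t : Fin 34) (e : G2) : e ∈ capcl (act (vtx t)) ↔ clB (capV t) e := by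
  rw [← mem_closure_clB]
  unfold capcl capV
  have : capcol '' {w | w ∈ act (vtx t) ∧ w.val < 6} =
      (((Finset.univ.filter fun w : Fin 19 => w.val < 6 ∧ ∃ m, tri t m = w).image capcol :
        Finset G2) : Set G2) := by
    ext e
    simp only [Finset.coe_image, Finset.coe_filter, Finset.mem_univ, true_and]
    constructor
    · rintro ⟨w, ⟨h1, h2⟩, h3⟩; exact ⟨w, ⟨h2, (act_vtx t w).mp h1⟩, h3⟩
    · rintro ⟨w, ⟨h1, h2⟩, h3⟩; exact ⟨w, ⟨(act_vtx t w).mpr h2, h1⟩, h3⟩
  rw [this]

theorem D1 : ∀ v : Fin 19, ¬ v.val < 6 → ∃ t, (∃ m, tri t m = v) ∧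
    ∀ w : Fin 19, w.val < 6 → adjP w v → ∃ m, tri t m = w := by decide +kernel

theorem D2 : ∀ v w : Fin 19, ¬ v.val < 6 → ¬ w.val < 6 → adjP v w → ∃ t, ((∃ m, tri t m = v) ∧
    (∃ m, tri t m = w)) ∧ (∀ c : Fin 19, c.val < 6 → adjP c v → adjP c w → ∃ m, tri t m = c) ∧
    ∀ e, clB (capF v) e → clB (capF w) e → clB (capV t) e := by decide +kernel

theorem D3 : ∀ v w x : Fin 19, ¬ v.val < 6 → ¬ w.val < 6 → ¬ x.val < 6 → adjP v w → adjP v x →
    adjP w x → v = 6 ∨ w = 6 ∨ x = 6 := by decide +kernel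

theorem D4 : ∀ e, clB (capF 6) e → e = 1 := by decide +kernel

theorem tri_adj : ∀ t m n, m ≠ n → adjP (tri t m) (tri t n) := by decide +kernel

theorem capcl_le_capsub {u : E3} (hu : u ∈ PP) {v : Fin 19} (hv : ¬ v.val < 6) (hvu : v ∈ act u) :
    capcl (act u) ≤ capsub v := by
  unfold capcl capsub
  refine Subgroup.closure_mono ?_
  rintro _ ⟨w, ⟨hw, h6⟩, rfl⟩
  refine ⟨w, h6, adj_of_act hu ?_ hw hvu, rfl⟩
  rintro rfl
  exact hv h6

theorem mem_faceS_vtx {t : Fin 34} {T : Finset (Fin 19)} (h : ∀ w ∈ T, ∃ m, tri t m = w) :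
    vtx t ∈ faceS T := fun w hw => (act_vtx t w).mpr (h w hw)

theorem Mir.lab_ge (i : Mir) : ¬ i.lab.val < 6 := i.2.1

section
variable {col : Fin 19 → Fin 12} {X : Type} [MetricSpace X] {κ : GG → PP → X}

/-- The mirrors as subsets of the space. -/
def MF (κ : GG → PP → X) (i : Mir) : Set X :=
  {x | ∃ e ∈ i.cls, ∃ u : PP, i.lab ∈ act u.1 ∧ κ (e, 1) u = x}

omit [MetricSpace X] in
theorem cls_mul {i : Mir} {e e' : G2} (he : e ∈ i.cls) (h : e⁻¹ * e' ∈ capsub i.lab) :
    e' ∈ i.cls := by
  obtain ⟨e0, he0⟩ := i.2.2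
  have h1 : i.cls = {x | e0⁻¹ * x ∈ capsub i.lab} := he0
  rw [h1] at he ⊢
  have h2 : e0⁻¹ * e ∈ capsub i.lab := he
  have h3 := Subgroup.mul_mem _ h2 h
  have h4 : e0⁻¹ * e * (e⁻¹ * e') = e0⁻¹ * e' := by group
  rw [h4] at h3
  exact h3

omit [MetricSpace X] in
theorem cls_eq {i : Mir} {e : G2} (he : e ∈ i.cls) : i.cls = {x | e⁻¹ * x ∈ capsub i.lab} := by
  obtain ⟨e0, he0⟩ := i.2.2
  have h1 : i.cls = {x | e0⁻¹ * x ∈ capsub i.lab} := he0
  ext x
  constructor
  · intro hx
    rw [h1] at he hx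
    have h2 := Subgroup.mul_mem _ (Subgroup.inv_mem _ (show e0⁻¹ * e ∈ capsub i.lab from he))
      (show e0⁻¹ * x ∈ capsub i.lab from hx)
    have h4 : (e0⁻¹ * e)⁻¹ * (e0⁻¹ * x) = e⁻¹ * x := by group
    rw [h4] at h2
    exact h2
  · intro hx
    exact cls_mul he hx

variable (hBC : IsBC (gen col) Fac κ)
include hBC

theorem MF_iff (i : Mir) (e : G2) (u : PP) : κ (e, 1) u ∈ MF κ i ↔ i.lab ∈ act u.1 ∧ e ∈ i.cls := by
  constructor
  · rintro ⟨e', he', u', hu', heq⟩
    obtain ⟨h1, h2⟩ := (kappa_eq_iff' hBC e' e 1 u' u).mp heq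
    subst h1
    exact ⟨hu', cls_mul he' (capcl_le_capsub u'.2 i.2.1 hu' h2)⟩
  · rintro ⟨h1, h2⟩
    exact ⟨e, h2, u, h1, rfl⟩

theorem isClosed_MF (i : Mir) : IsClosed (MF κ i) := by
  have : MF κ i = ⋃ e ∈ i.cls, img κ e (faceS {i.lab}) := by
    ext x
    simp only [Set.mem_iUnion, exists_prop]
    constructor
    · rintro ⟨e, he, u, hu, rfl⟩
      exact ⟨e, he, u, fun w hw => by rw [Finset.mem_singleton] at hw; rw [hw]; exact hu, rfl⟩
    · rintro ⟨e, he, u, hu, rfl⟩
      exact ⟨e, he, u, hu _ (Finset.mem_singleton_self _), rfl⟩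
  rw [this]
  exact Set.Finite.isClosed_biUnion (Set.toFinite _) fun e _ => isClosed_img hBC e (isClosed_faceS _)

theorem AE_mirror (σ : Finset Mir) (hσ : ∀ i ∈ σ, ∀ j ∈ σ, i ≠ j → adjI i j) (hne : σ.Nonempty) :
    AE ↥{x : X | ∀ i ∈ σ, x ∈ MF κ i} := by
  classical
  by_cases h6 : ∃ i ∈ σ, i.lab = 6
  · -- a mirror with label `o`
    obtain ⟨i, hi, hi6⟩ := h6
    obtain ⟨e0, he0⟩ : ∃ e0, e0 ∈ i.cls := by
      obtain ⟨e0, he0⟩ := i.2.2
      refine ⟨e0, ?_⟩
      have h1 : i.cls = {x | e0⁻¹ * x ∈ capsub i.lab} := he0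
      rw [h1]
      change e0⁻¹ * e0 ∈ capsub i.lab
      rw [inv_mul_cancel]; exact Subgroup.one_mem _
    have huniq : ∀ e ∈ i.cls, e = e0 := by
      intro e he
      rw [cls_eq he0] at he
      have h1 : e0⁻¹ * e ∈ capsub i.lab := he
      rw [hi6, mem_capsub] at h1
      exact (inv_mul_eq_one.mp (D4 _ h1)).symm
    have hset : {x : X | ∀ i ∈ σ, x ∈ MF κ i} = img κ e0 (faceS (σ.image Mir.lab)) := by
      ext x
      constructor
      · intro hx
        obtain ⟨e, he, u, hu, rfl⟩ := hx i hi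
        have := huniq e he
        subst this
        refine ⟨u, ?_, rfl⟩
        intro w hw
        obtain ⟨j, hj, rfl⟩ := Finset.mem_image.mp hw
        exact ((MF_iff hBC j e u).mp (hx j hj)).1
      · rintro ⟨u, hu, rfl⟩ j hj
        rw [MF_iff hBC]
        refine ⟨hu _ (Finset.mem_image_of_mem _ hj), ?_⟩
        by_cases hij : j = i
        · rw [hij]; exact he0
        · obtain ⟨e, he1, he2⟩ := (hσ i hi j hj (Ne.symm hij)).2
          rw [← huniq e he1]; exact he2
    rw [hset]
    obtain ⟨t, ht⟩ := clique_sub (s := ((σ.image Mir.lab : Finset (Fin 19)) : Set (Fin 19))) (by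
      intro v hv w hw hvw
      obtain ⟨j, hj, rfl⟩ := Finset.mem_image.mp hv
      obtain ⟨k, hk, rfl⟩ := Finset.mem_image.mp hw
      exact (hσ j hj k hk (by rintro rfl; exact hvw rfl)).1)
    refine AE_img hBC e0 (isClosed_faceS _) (convex_faceS _) ⟨vtx t, vtx_mem t, ?_⟩
    exact mem_faceS_vtx fun w hw => ht w hw
  · push Not at h6
    obtain ⟨i, hi⟩ := hne
    obtain ⟨e1, he1⟩ : ∃ e0, e0 ∈ i.cls := by
      obtain ⟨e0, he0⟩ := i.2.2
      refine ⟨e0, ?_⟩
      have h1 : i.cls = {x | e0⁻¹ * x ∈ capsub i.lab} := he0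
      rw [h1]
      change e0⁻¹ * e0 ∈ capsub i.lab
      rw [inv_mul_cancel]; exact Subgroup.one_mem _
    by_cases h2 : ∃ j ∈ σ, j ≠ i
    · -- two mirrors
      obtain ⟨j, hj, hji⟩ := h2
      have hadj := hσ i hi j hj hji.symm
      have hall : ∀ k ∈ σ, k = i ∨ k = j := by
        intro k hk
        by_contra hcon
        push Not at hcon
        rcases D3 i.lab j.lab k.lab i.2.1 j.2.1 k.2.1 hadj.1 (hσ i hi k hk hcon.1.symm).1
          (hσ j hj k hk hcon.2.symm).1 with h | h | h
        · exact h6 i hi h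
        · exact h6 j hj h
        · exact h6 k hk h
      obtain ⟨t, ⟨ht1, ht2⟩, ht3, ht4⟩ := D2 i.lab j.lab i.2.1 j.2.1 hadj.1
      obtain ⟨e0, he0i, he0j⟩ := hadj.2
      have hvi : i.lab ∈ act (vtx t) := (act_vtx t _).mpr ht1
      have hvj : j.lab ∈ act (vtx t) := (act_vtx t _).mpr ht2
      have hset : {x : X | ∀ i ∈ σ, x ∈ MF κ i} =
          ⋃ e ∈ {e : G2 | e0⁻¹ * e ∈ capcl (act (vtx t))}, img κ e (faceS {i.lab, j.lab}) := by
        ext x
        simp only [Set.mem_iUnion, exists_prop]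
        constructor
        · intro hx
          obtain ⟨e, he, u, hu, rfl⟩ := hx i hi
          have hj' := (MF_iff hBC j e u).mp (hx j hj)
          refine ⟨e, ?_, u, ?_, rfl⟩
          · rw [cls_eq he0i] at he
            have h3 := hj'.2
            rw [cls_eq he0j] at h3
            change e0⁻¹ * e ∈ capcl (act (vtx t))
            rw [mem_capcl_vtx]
            exact ht4 _ ((mem_capsub _ _).mp he) ((mem_capsub _ _).mp h3)
          · intro w hw
            rw [Finset.mem_insert, Finset.mem_singleton] at hw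
            rcases hw with rfl | rfl
            · exact hu
            · exact hj'.1
        · rintro ⟨e, he, u, hu, rfl⟩ k hk
          have he' : e0⁻¹ * e ∈ capcl (act (vtx t)) := he
          rcases hall k hk with rfl | rfl
          · rw [MF_iff hBC]
            refine ⟨hu _ (Finset.mem_insert_self _ _), ?_⟩
            rw [cls_eq he0i]
            exact capcl_le_capsub (vtx_mem t) (Mir.lab_ge _) hvi he'
          · rw [MF_iff hBC]
            refine ⟨hu _ (by simp), ?_⟩
            rw [cls_eq he0j]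
            exact capcl_le_capsub (vtx_mem t) (Mir.lab_ge _) hvj he'
      rw [hset]
      refine AE_star hBC (isClosed_faceS _) (convex_faceS _) (p := vtx t) ?_ (vtx_mem t) ?_ e0
      · refine mem_faceS_vtx fun w hw => ?_
        rw [Finset.mem_insert, Finset.mem_singleton] at hw
        rcases hw with rfl | rfl
        · exact ht1
        · exact ht2
      · intro u hu huf w hw6 hwu
        rw [act_vtx]
        have h1 : i.lab ∈ act u := huf _ (Finset.mem_insert_self _ _)
        have h2 : j.lab ∈ act u := huf _ (by simp)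
        refine ht3 w hw6 (adj_of_act hu ?_ hwu h1) (adj_of_act hu ?_ hwu h2)
        · rintro h; rw [h] at hw6; exact i.2.1 hw6
        · rintro h; rw [h] at hw6; exact j.2.1 hw6
    · -- one mirror
      push Not at h2
      obtain ⟨t, ht1, ht3⟩ := D1 i.lab i.2.1
      have hvi : i.lab ∈ act (vtx t) := (act_vtx t _).mpr ht1
      have hset : {x : X | ∀ i ∈ σ, x ∈ MF κ i} =
          ⋃ e ∈ {e : G2 | e1⁻¹ * e ∈ capcl (act (vtx t))}, img κ e (faceS {i.lab}) := by
        ext x
        simp only [Set.mem_iUnion, exists_prop]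
        constructor
        · intro hx
          obtain ⟨e, he, u, hu, rfl⟩ := hx i hi
          refine ⟨e, ?_, u, ?_, rfl⟩
          · rw [cls_eq he1] at he
            have h3 : e1⁻¹ * e ∈ capsub i.lab := he
            change e1⁻¹ * e ∈ capcl (act (vtx t))
            revert h3
            have hle : capsub i.lab ≤ capcl (act (vtx t)) := by
              unfold capsub capcl
              refine Subgroup.closure_mono ?_
              rintro _ ⟨w, h6w, hwa, rfl⟩
              exact ⟨w, ⟨(act_vtx t w).mpr (ht3 w h6w hwa), h6w⟩, rfl⟩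
            exact fun h => hle h
          · intro w hw
            rw [Finset.mem_singleton] at hw
            rw [hw]; exact hu
        · rintro ⟨e, he, u, hu, rfl⟩ k hk
          have he' : e1⁻¹ * e ∈ capcl (act (vtx t)) := he
          rw [h2 k hk, MF_iff hBC]
          refine ⟨hu _ (Finset.mem_singleton_self _), ?_⟩
          rw [cls_eq he1]
          exact capcl_le_capsub (vtx_mem t) i.2.1 hvi he'
      rw [hset]
      refine AE_star hBC (isClosed_faceS _) (convex_faceS _) (p := vtx t) ?_ (vtx_mem t) ?_ e1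
      · refine mem_faceS_vtx fun w hw => ?_
        rw [Finset.mem_singleton] at hw
        rw [hw]; exact ht1
      · intro u hu huf w hw6 hwu
        rw [act_vtx]
        have h1 : i.lab ∈ act u := huf _ (Finset.mem_singleton_self _)
        refine ht3 w hw6 (adj_of_act hu ?_ hwu h1)
        rintro h; rw [h] at hw6; exact i.2.1 hw6

end

end Pool.Agent.H75.AX
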