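import Pool.Agent.H75.AX.Spec
import Pool.Agent.H75.AX.Inv

/-!
The manifold `M` covering the examples, the group of sign changes, and the chambers.
-/

set_option autoImplicit false

open scoped Topology InnerProductSpace

noncomputable section

namespace Pool.Agent.H75.AX

/-- The ambient space of the manifold. -/
abbrev EM : Type := EuclideanSpace ℝ (Fin 3 ⊕ Fin 19)

/-- The space of the equations. -/
abbrev EV : Type := EuclideanSpace ℝ (Fin 19)

/-- Sign changes. -/
abbrev SS : Type := Fin 19 → ℤˣ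

/-- The projection to the polytope. -/
def prj (x : EM) : E3 := WithLp.toLp 2 fun i => x (Sum.inl i)

/-- The defining equations. -/
def Phi (x : EM) : EV := WithLp.toLp 2 fun v => (x (Sum.inr v)) ^ 2 - ell v (prj x)

/-- The manifold. -/
def MM : Set EM := Phi ⁻¹' {0}

theorem mem_MM {x : EM} : x ∈ MM ↔ ∀ v, (x (Sum.inr v)) ^ 2 = ell v (prj x) := by
  unfold MM
  rw [Set.mem_preimage, Set.mem_singleton_iff]
  constructor
  · intro h v
    have : Phi x v = 0 := by rw [h]; rfl
    exact sub_eq_zero.mp this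
  · intro h
    ext v
    exact sub_eq_zero.mpr (h v)

/-- The point over `u` in the chamber `s`. -/
def theta (s : SS) (u : E3) : EM :=
  WithLp.toLp 2 (Sum.elim (fun i => u i) (fun v => ((s v : ℤ) : ℝ) * √(ell v u)))

@[simp] theorem theta_inl (s : SS) (u : E3) (i : Fin 3) : theta s u (Sum.inl i) = u i := rfl

@[simp] theorem theta_inr (s : SS) (u : E3) (v : Fin 19) :
    theta s u (Sum.inr v) = ((s v : ℤ) : ℝ) * √(ell v u) := rfl

theorem prj_theta (s : SS) (u : E3) : prj (theta s u) = u := rfl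

theorem units_sq_real (x : ℤˣ) : ((x : ℤ) : ℝ) * ((x : ℤ) : ℝ) = 1 := by
  rcases units_cases x with rfl | rfl <;> norm_num

theorem theta_mem (s : SS) {u : E3} (hu : u ∈ PP) : theta s u ∈ MM := by
  rw [mem_MM]
  intro v
  rw [theta_inr, prj_theta, mul_pow, Real.sq_sqrt (hu v), pow_two, units_sq_real, one_mul]

theorem exists_theta_eq {x : EM} (hx : x ∈ MM) : prj x ∈ PP ∧ ∃ s : SS, theta s (prj x) = x := by
  rw [mem_MM] at hx
  refine ⟨fun v => by rw [← hx v]; positivity, fun v => if 0 ≤ x (Sum.inr v) then 1 else -1, ?_⟩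
  ext j
  rcases j with i | v
  · rfl
  · rw [theta_inr, ← hx v, Real.sqrt_sq_eq_abs]
    by_cases h : 0 ≤ x (Sum.inr v)
    · simp [h, abs_of_nonneg h]
    · simp [h, abs_of_neg (not_le.mp h)]

theorem theta_eq_iff {s s' : SS} {u u' : E3} (hu : u ∈ PP) :
    theta s u = theta s' u' ↔ u = u' ∧ ∀ v, v ∉ act u → s v = s' v := by
  constructor
  · intro h
    have h1 : u = u' := by
      rw [← prj_theta s u, h, prj_theta]
    subst h1
    refine ⟨rfl, fun v hv => ?_⟩
    have h2 : theta s u (Sum.inr v) = theta s' u (Sum.inr v) := by rw [h]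
    rw [theta_inr, theta_inr] at h2
    have hne : ell v u ≠ 0 := hv
    have hpos : 0 < ell v u := lt_of_le_of_ne (hu v) (Ne.symm hne)
    have h3 := mul_right_cancel₀ (Real.sqrt_pos.mpr hpos).ne' h2
    exact Units.ext (by exact_mod_cast h3)
  · rintro ⟨rfl, h⟩
    ext j
    rcases j with i | v
    · rfl
    · rw [theta_inr, theta_inr]
      by_cases hv : v ∈ act u
      · have : ell v u = 0 := hv
        rw [this, Real.sqrt_zero, mul_zero, mul_zero]
      · rw [h v hv]

theorem continuous_theta (s : SS) : Continuous (theta s) := by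
  unfold theta
  refine (PiLp.continuous_toLp 2 _).comp (continuous_pi fun j => ?_)
  rcases j with i | v
  · exact PiLp.continuous_apply 2 _ i
  · exact continuous_const.mul (Real.continuous_sqrt.comp (continuous_ell v))

theorem MM_eq : MM = ⋃ s : SS, theta s '' PP := by
  ext x
  simp only [Set.mem_iUnion]
  constructor
  · intro hx
    obtain ⟨h1, s, hs⟩ := exists_theta_eq hx
    exact ⟨s, prj x, h1, hs⟩
  · rintro ⟨s, u, hu, rfl⟩
    exact theta_mem s hu

theorem isCompact_MM : IsCompact MM := by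
  rw [MM_eq]
  exact isCompact_iUnion fun s => isCompact_PP.image (continuous_theta s)

theorem isConnected_MM : IsConnected MM := by
  classical
  refine ⟨⟨theta 1 (spv 0), theta_mem 1 (spv_mem 0)⟩, ?_⟩
  rw [MM_eq]
  have hpc : ∀ s : SS, IsPreconnected (theta s '' PP) := fun s =>
    convex_PP.isPreconnected.image _ (continuous_theta s).continuousOn
  have hstep : ∀ (s : SS) (v : Fin 19) (x : ℤˣ),
      (theta s '' PP ∩ theta (Function.update s v x) '' PP).Nonempty := by
    intro s v x
    obtain ⟨u, hu, hact⟩ := exists_facet_pt v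
    refine ⟨theta s u, ⟨u, hu, rfl⟩, u, hu, ?_⟩
    rw [theta_eq_iff hu]
    refine ⟨rfl, fun w hw => ?_⟩
    rw [Function.update_of_ne]
    rintro rfl
    apply hw
    rw [hact]; rfl
  refine IsPreconnected.iUnion_of_reflTransGen hpc fun s s' => ?_
  have key : ∀ T : Finset (Fin 19), Relation.ReflTransGen
      (fun i j : SS => (theta i '' PP ∩ theta j '' PP).Nonempty) s
      (fun v => if v ∈ T then s' v else s v) := by
    intro T
    induction T using Finset.induction_on with
    | empty => simp only [Finset.notMem_empty, if_false]; exact Relation.ReflTransGen.refl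
    | insert v T hv ih =>
      refine ih.tail ?_
      have : (fun w => if w ∈ insert v T then s' w else s w) =
          Function.update (fun w => if w ∈ T then s' w else s w) v (s' v) := by
        funext w
        by_cases hw : w = v
        · subst hw; simp
        · rw [Function.update_of_ne hw]
          simp [hw]
      rw [this]
      exact hstep _ v (s' v)
  have := key Finset.univ
  simpa using this

/-! ### Smoothness -/

theorem contDiff_Phi : ContDiff ℝ 3 Phi := by
  rw [contDiff_euclidean]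
  intro v
  have h : ∀ j : Fin 3 ⊕ Fin 19, ContDiff ℝ 3 fun x : EM => x j := fun j =>
    (EuclideanSpace.proj j : EM →L[ℝ] ℝ).contDiff
  have h0 := h (Sum.inl 0)
  have h1 := h (Sum.inl 1)
  have h2 := h (Sum.inl 2)
  have hv := h (Sum.inr v)
  change ContDiff ℝ 3 fun x : EM => (x (Sum.inr v)) ^ 2 - ((nc v : ℝ) -
    ((na v 0 : ℝ) * x (Sum.inl 0) + (na v 1 : ℝ) * x (Sum.inl 1) + (na v 2 : ℝ) * x (Sum.inl 2)))
  fun_prop

/-- The derivative of the defining equations. -/
theorem fderiv_Phi (x d : EM) (v : Fin 19) :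
    (fderiv ℝ Phi x d) v = 2 * x (Sum.inr v) * d (Sum.inr v) +
      ((na v 0 : ℝ) * d (Sum.inl 0) + (na v 1 : ℝ) * d (Sum.inl 1) + (na v 2 : ℝ) * d (Sum.inl 2)) := by
  have hΦ : HasFDerivAt Phi (fderiv ℝ Phi x) x :=
    (contDiff_Phi.differentiable (by norm_num)).differentiableAt.hasFDerivAt
  have h1 : HasFDerivAt (fun x : EM => Phi x v)
      ((EuclideanSpace.proj v : EV →L[ℝ] ℝ).comp (fderiv ℝ Phi x)) x :=
    ((EuclideanSpace.proj v : EV →L[ℝ] ℝ).hasFDerivAt (x := Phi x)).comp x hΦ
  have hp : ∀ j : Fin 3 ⊕ Fin 19, HasFDerivAt (fun x : EM => x j)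
      (EuclideanSpace.proj j : EM →L[ℝ] ℝ) x := fun j =>
    (EuclideanSpace.proj j : EM →L[ℝ] ℝ).hasFDerivAt
  have h2 : HasFDerivAt (fun x : EM => (x (Sum.inr v)) ^ 2 - ((nc v : ℝ) -
      ((na v 0 : ℝ) * x (Sum.inl 0) + (na v 1 : ℝ) * x (Sum.inl 1) +
      (na v 2 : ℝ) * x (Sum.inl 2)))) _ x :=
    ((hp (Sum.inr v)).pow 2).sub ((hasFDerivAt_const (nc v : ℝ) x).sub
      ((((hp (Sum.inl 0)).const_mul (na v 0 : ℝ)).add ((hp (Sum.inl 1)).const_mul (na v 1 : ℝ))).add
        ((hp (Sum.inl 2)).const_mul (na v 2 : ℝ))))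
  have h3 := h1.unique h2
  have h4 := congrArg (fun L : EM →L[ℝ] ℝ => L d) h3
  have hpr : ∀ j : Fin 3 ⊕ Fin 19, (EuclideanSpace.proj j : EM →L[ℝ] ℝ) d = d j := fun _ => rfl
  have h5 : ((EuclideanSpace.proj v : EV →L[ℝ] ℝ).comp (fderiv ℝ Phi x)) d =
      (fderiv ℝ Phi x d) v := rfl
  rw [← h5]
  refine h4.trans ?_
  simp only [sub_apply, add_apply, smul_apply, hpr, zero_apply, smul_eq_mul]
  norm_num
  ring

theorem surj_fderiv {x : EM} (hx : x ∈ MM) : Function.Surjective (fderiv ℝ Phi x) := by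
  intro w
  obtain ⟨hP, -⟩ := exists_theta_eq hx
  obtain ⟨t, ht⟩ := act_sub hP
  obtain ⟨d, hd⟩ := exists_dual t (fun v => w v)
  rw [mem_MM] at hx
  refine ⟨WithLp.toLp 2 (Sum.elim (fun i => d i) fun v =>
    (w v - ((na v 0 : ℝ) * d 0 + (na v 1 : ℝ) * d 1 + (na v 2 : ℝ) * d 2)) / (2 * x (Sum.inr v))), ?_⟩
  ext v
  rw [fderiv_Phi]
  simp only [Sum.elim_inl, Sum.elim_inr]
  by_cases hv : v ∈ act (prj x)
  · have h0 : x (Sum.inr v) = 0 := by
      have h1 := hx v
      have h2 : ell v (prj x) = 0 := hv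
      rw [h2] at h1
      exact pow_eq_zero_iff (two_ne_zero) |>.mp h1
    obtain ⟨m, hm⟩ := ht v hv
    have := hd m
    rw [hm] at this
    rw [h0, mul_zero, zero_mul, zero_add]
    exact this
  · have h0 : x (Sum.inr v) ≠ 0 := by
      intro h
      apply hv
      have h1 := hx v
      rw [h] at h1
      change ell v (prj x) = 0
      rw [← h1]; norm_num
    field_simp
    ring

/-! ### Sign changes -/

/-- The isometry given by a sign change. -/
def signIso (s : SS) : EM ≃ₗᵢ[ℝ] EM where
  toFun x := WithLp.toLp 2 (Sum.elim (fun i => x (Sum.inl i))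
    (fun v => ((s v : ℤ) : ℝ) * x (Sum.inr v)))
  invFun x := WithLp.toLp 2 (Sum.elim (fun i => x (Sum.inl i))
    (fun v => ((s v : ℤ) : ℝ) * x (Sum.inr v)))
  map_add' x y := by
    ext j
    rcases j with i | v
    · rfl
    · simp [mul_add]
  map_smul' c x := by
    ext j
    rcases j with i | v
    · rfl
    · simp; ring
  left_inv x := by
    ext j
    rcases j with i | v
    · rfl
    · simp [← mul_assoc, units_sq_real]
  right_inv x := by
    ext j
    rcases j with i | v
    · rfl
    · simp [← mul_assoc, units_sq_real]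
  norm_map' x := by
    rw [EuclideanSpace.norm_eq, EuclideanSpace.norm_eq]
    congr 1
    refine Finset.sum_congr rfl fun j _ => ?_
    rcases j with i | v
    · rfl
    · simp only [LinearEquiv.coe_mk, LinearMap.coe_mk, AddHom.coe_mk, Sum.elim_inr]
      rw [norm_mul]
      rcases units_cases (s v) with h | h <;> simp [h]

@[simp] theorem signIso_inl (s : SS) (x : EM) (i : Fin 3) :
    signIso s x (Sum.inl i) = x (Sum.inl i) := rfl

@[simp] theorem signIso_inr (s : SS) (x : EM) (v : Fin 19) :
    signIso s x (Sum.inr v) = ((s v : ℤ) : ℝ) * x (Sum.inr v) := rfl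

/-- The action of the sign changes. -/
def signHom : SS →* (EM ≃ₗᵢ[ℝ] EM) where
  toFun := signIso
  map_one' := by
    ext x j
    rcases j with i | v
    · rfl
    · simp
  map_mul' s s' := by
    ext x j
    rcases j with i | v
    · rfl
    · change (((s * s') v : ℤ) : ℝ) * x (Sum.inr v) =
        ((s v : ℤ) : ℝ) * (((s' v : ℤ) : ℝ) * x (Sum.inr v))
      simp [mul_assoc]

theorem signHom_theta (s s' : SS) (u : E3) : signHom s (theta s' u) = theta (s * s') u := by
  ext j
  rcases j with i | v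
  · rfl
  · change ((s v : ℤ) : ℝ) * theta s' u (Sum.inr v) = _
    rw [theta_inr, theta_inr]
    simp [mul_assoc]

theorem signHom_mem (s : SS) {x : EM} (hx : x ∈ MM) : signHom s x ∈ MM := by
  obtain ⟨h1, s', hs'⟩ := exists_theta_eq hx
  rw [← hs', signHom_theta]
  exact theta_mem _ h1

end Pool.Agent.H75.AX
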