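import Pool.Agent.H75.AX.Mfd

/-!
The colour homomorphism and its kernel.
-/

set_option autoImplicit false

open scoped Topology InnerProductSpace

noncomputable section

namespace Pool.Agent.H75.AX

/-- Admissible colourings of the facets that are not caps. -/
structure GoodCol (col : Fin 19 → Fin 12) : Prop where
  ne : ∀ v w : Fin 19, ¬ v.val < 6 → ¬ w.val < 6 → adjP v w → col v ≠ col w
  surj : ∀ c, ∃ v : Fin 19, ¬ v.val < 6 ∧ col v = c

theorem goodCol_A : GoodCol colA := ⟨by decide +kernel, by decide +kernel⟩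

theorem goodCol_B : GoodCol colB := ⟨by decide +kernel, by decide +kernel⟩

/-- The colour homomorphism. -/
def lam (col : Fin 19 → Fin 12) : SS →* GG where
  toFun s := (![s 0 * s 3 * (s 2 * s 5), s 1 * s 4 * (s 2 * s 5)],
    fun c => ∏ v ∈ Finset.univ.filter (fun v : Fin 19 => ¬ v.val < 6 ∧ col v = c), s v)
  map_one' := by
    refine Prod.ext ?_ ?_
    · funext i; fin_cases i <;> rfl
    · funext c; simp
  map_mul' s s' := by
    refine Prod.ext ?_ ?_
    · funext i
      fin_cases i
      · change (s * s') 0 * (s * s') 3 * ((s * s') 2 * (s * s') 5) =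
          s 0 * s 3 * (s 2 * s 5) * (s' 0 * s' 3 * (s' 2 * s' 5))
        simp only [Pi.mul_apply]
        ac_rfl
      · change (s * s') 1 * (s * s') 4 * ((s * s') 2 * (s * s') 5) =
          s 1 * s 4 * (s 2 * s 5) * (s' 1 * s' 4 * (s' 2 * s' 5))
        simp only [Pi.mul_apply]
        ac_rfl
    · funext c
      simp only [Pi.mul_apply, Prod.snd_mul, Finset.prod_mul_distrib]

theorem lam_fst0 (col : Fin 19 → Fin 12) (s : SS) :
    (lam col s).1 0 = s 0 * s 3 * (s 2 * s 5) := rfl

theorem lam_fst1 (col : Fin 19 → Fin 12) (s : SS) :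
    (lam col s).1 1 = s 1 * s 4 * (s 2 * s 5) := rfl

theorem lam_snd (col : Fin 19 → Fin 12) (s : SS) (c : Fin 12) : (lam col s).2 c =
    ∏ v ∈ Finset.univ.filter (fun v : Fin 19 => ¬ v.val < 6 ∧ col v = c), s v := rfl

/-- The generator of a facet. -/
def ss (v : Fin 19) : SS := Pi.mulSingle v (-1)

theorem ss_same (v : Fin 19) : ss v v = -1 := by simp [ss]

theorem ss_ne {v w : Fin 19} (h : w ≠ v) : ss v w = 1 := by simp [ss, h]

theorem capcol_lam : ∀ v : Fin 19, (![ss v 0 * ss v 3 * (ss v 2 * ss v 5),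
    ss v 1 * ss v 4 * (ss v 2 * ss v 5)] : G2) = if v.val < 6 then capcol v else 1 := by
  decide +kernel

theorem lam_ss (col : Fin 19 → Fin 12) (v : Fin 19) : lam col (ss v) = gen col v := by
  refine Prod.ext ?_ ?_
  · refine (capcol_lam v).trans ?_
    unfold gen
    split_ifs <;> rfl
  · funext c
    rw [lam_snd]
    unfold gen
    by_cases hv : v.val < 6
    · rw [if_pos hv]
      refine Finset.prod_eq_one fun w hw => ss_ne ?_
      rintro rfl
      exact (Finset.mem_filter.mp hw).2.1 hv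
    · rw [if_neg hv]
      change _ = ee (col v) c
      by_cases hc : c = col v
      · subst hc
        rw [ee_same, Finset.prod_eq_single v, ss_same]
        · intro w _ hw
          exact ss_ne hw
        · intro h
          exact absurd (Finset.mem_filter.mpr ⟨Finset.mem_univ _, hv, rfl⟩) h
      · rw [ee_ne hc]
        refine Finset.prod_eq_one fun w hw => ss_ne ?_
        rintro rfl
        exact hc (Finset.mem_filter.mp hw).2.2.symm

/-- Supported on a set of facets. -/
def Supp (s : SS) (T : Set (Fin 19)) : Prop := ∀ v, v ∉ T → s v = 1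

theorem lam_mem_closure (col : Fin 19 → Fin 12) {s : SS} {T : Set (Fin 19)} (hs : Supp s T) :
    lam col s ∈ Subgroup.closure (gen col '' T) := by
  rw [← Finset.univ_prod_mulSingle s, map_prod]
  refine Subgroup.prod_mem _ fun v _ => ?_
  by_cases hv : v ∈ T
  · rcases units_cases (s v) with h | h
    · rw [h, Pi.mulSingle_one, map_one]
      exact Subgroup.one_mem _
    · rw [h]
      change lam col (ss v) ∈ _
      rw [lam_ss]
      exact Subgroup.subset_closure ⟨v, hv, rfl⟩
  · rw [hs v hv, Pi.mulSingle_one, map_one]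
    exact Subgroup.one_mem _

theorem exists_supp (col : Fin 19 → Fin 12) {g : GG} {T : Set (Fin 19)}
    (hg : g ∈ Subgroup.closure (gen col '' T)) : ∃ s : SS, Supp s T ∧ lam col s = g := by
  induction hg using Subgroup.closure_induction with
  | mem x hx =>
    obtain ⟨v, hv, rfl⟩ := hx
    refine ⟨ss v, fun w hw => ss_ne ?_, lam_ss col v⟩
    rintro rfl
    exact hw hv
  | one => exact ⟨1, fun _ _ => rfl, map_one _⟩
  | mul x y _ _ ihx ihy =>
    obtain ⟨s, hs, rfl⟩ := ihx
    obtain ⟨s', hs', rfl⟩ := ihy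
    exact ⟨s * s', fun v hv => by rw [Pi.mul_apply, hs v hv, hs' v hv, one_mul], map_mul _ _ _⟩
  | inv x _ ih =>
    obtain ⟨s, hs, rfl⟩ := ih
    exact ⟨s⁻¹, fun v hv => by rw [Pi.inv_apply, hs v hv, inv_one], map_inv _ _⟩

/-- A section of the colour homomorphism. -/
theorem exists_section {col : Fin 19 → Fin 12} (hcol : GoodCol col) :
    ∃ σ : GG → SS, ∀ g, lam col (σ g) = g := by
  classical
  choose vc hvc using hcol.surj
  refine ⟨fun g v => if v = 0 then g.1 0 else if v = 1 then g.1 1 else if v.val < 6 then 1 else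
    if v = vc (col v) then g.2 (col v) else 1, fun g => ?_⟩
  refine Prod.ext ?_ ?_
  · funext i
    fin_cases i
    · change (_ : ℤˣ) = g.1 0
      rw [show ((0 : Fin 2) : Fin 2) = 0 from rfl]
      change (if (0 : Fin 19) = 0 then g.1 0 else _) * _ * (_ * _) = g.1 0
      simp
    · change (_ : ℤˣ) = g.1 1
      change _ * _ * (_ * _) = g.1 1
      simp
  · funext c
    rw [lam_snd, Finset.prod_eq_single (vc c)]
    · have h6 := (hvc c).1
      have h0 : vc c ≠ 0 := by rintro h; rw [h] at h6; exact h6 (by decide)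
      have h1 : vc c ≠ 1 := by rintro h; rw [h] at h6; exact h6 (by decide)
      beta_reduce
      rw [if_neg h0, if_neg h1, if_neg h6, (hvc c).2, if_pos rfl]
    · intro v hv hne
      obtain ⟨-, h6, hc⟩ := Finset.mem_filter.mp hv
      have h0 : v ≠ 0 := by rintro rfl; exact h6 (by decide)
      have h1 : v ≠ 1 := by rintro rfl; exact h6 (by decide)
      beta_reduce
      rw [if_neg h0, if_neg h1, if_neg h6, hc, if_neg hne]
    · intro h
      exact absurd (Finset.mem_filter.mpr ⟨Finset.mem_univ _, (hvc c).1, (hvc c).2⟩) h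

set_option synthInstance.maxSize 1000 in
theorem cap_clique : ∀ i j k : Fin 19, (i = 0 ∨ i = 3) → (j = 1 ∨ j = 4) → (k = 2 ∨ k = 5) →
    adjP i j → adjP i k → adjP j k → ∃ s, spt s 0 = i ∧ spt s 1 = j ∧ spt s 2 = k := by
  decide +kernel

/-- The non-trivial element of the kernel supported at a special vertex. -/
def hsp (s : Fin 4) : SS := ss (spt s 0) * ss (spt s 1) * ss (spt s 2)

theorem hsp_ker (col : Fin 19 → Fin 12) (s : Fin 4) : lam col (hsp s) = 1 := by
  unfold hsp
  rw [map_mul, map_mul, lam_ss, lam_ss, lam_ss, gen_spt, gen_spt, gen_spt]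
  decide +revert +kernel

/-- Elements of the kernel supported on the active facets. -/
theorem ker_cases {col : Fin 19 → Fin 12} (hcol : GoodCol col) {u : E3} (hu : u ∈ PP) {h : SS}
    (hk : lam col h = 1) (hs : Supp h (act u)) : h = 1 ∨ ∃ s, u = spv s ∧ h = hsp s := by
  -- no facets other than caps
  have hact : ∀ v, h v = -1 → v ∈ act u := by
    intro v hv
    by_contra hn
    rw [hs v hn] at hv
    exact absurd hv (by decide)
  have hnc : ∀ v : Fin 19, ¬ v.val < 6 → h v = 1 := by
    intro v hv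
    rcases units_cases (h v) with h1 | h1
    · exact h1
    · exfalso
      have h2 : (lam col h).2 (col v) = -1 := by
        rw [lam_snd, Finset.prod_eq_single v, h1]
        · intro w hw hne
          obtain ⟨-, h6, hc⟩ := Finset.mem_filter.mp hw
          rcases units_cases (h w) with h3 | h3
          · exact h3
          · exfalso
            exact hcol.ne w v h6 hv (adj_of_act hu hne (hact w h3) (hact v h1)) hc
        · intro hn
          exact absurd (Finset.mem_filter.mpr ⟨Finset.mem_univ _, hv, rfl⟩) hn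
      rw [hk] at h2
      exact absurd h2 (by simp)
  have e0 : h 0 * h 3 * (h 2 * h 5) = 1 := by
    rw [← lam_fst0 col h, hk]; rfl
  have e1 : h 1 * h 4 * (h 2 * h 5) = 1 := by
    rw [← lam_fst1 col h, hk]; rfl
  have n03 : ¬ (h 0 = -1 ∧ h 3 = -1) := fun ⟨a, b⟩ =>
    absurd (adj_of_act hu (by decide) (hact 0 a) (hact 3 b)) (by decide)
  have n14 : ¬ (h 1 = -1 ∧ h 4 = -1) := fun ⟨a, b⟩ =>
    absurd (adj_of_act hu (by decide) (hact 1 a) (hact 4 b)) (by decide)
  have n25 : ¬ (h 2 = -1 ∧ h 5 = -1) := fun ⟨a, b⟩ =>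
    absurd (adj_of_act hu (by decide) (hact 2 a) (hact 5 b)) (by decide)
  -- the two possibilities
  have hcase : (h 0 = 1 ∧ h 3 = 1 ∧ h 1 = 1 ∧ h 4 = 1 ∧ h 2 = 1 ∧ h 5 = 1) ∨
      (((h 0 = -1 ∧ h 3 = 1) ∨ (h 3 = -1 ∧ h 0 = 1)) ∧ ((h 1 = -1 ∧ h 4 = 1) ∨ (h 4 = -1 ∧ h 1 = 1)) ∧
        ((h 2 = -1 ∧ h 5 = 1) ∨ (h 5 = -1 ∧ h 2 = 1))) := by
    revert e0 e1 n03 n14 n25
    rcases units_cases (h 0) with a0 | a0 <;> rcases units_cases (h 1) with a1 | a1 <;>
      rcases units_cases (h 2) with a2 | a2 <;> rcases units_cases (h 3) with a3 | a3 <;>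
      rcases units_cases (h 4) with a4 | a4 <;> rcases units_cases (h 5) with a5 | a5 <;>
      rw [a0, a1, a2, a3, a4, a5] <;> simp
  rcases hcase with ⟨a0, a3, a1, a4, a2, a5⟩ | ⟨hx, hy, hz⟩
  · left
    funext v
    by_cases hv : v.val < 6
    · have : v = 0 ∨ v = 1 ∨ v = 2 ∨ v = 3 ∨ v = 4 ∨ v = 5 := by
        revert hv; clear * -; revert v; decide +kernel
      rcases this with rfl | rfl | rfl | rfl | rfl | rfl
      · exact a0
      · exact a1
      · exact a2
      · exact a3
      · exact a4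
      · exact a5
    · exact hnc v hv
  · right
    obtain ⟨i, hi, hi1, hi2⟩ : ∃ i : Fin 19, (i = 0 ∨ i = 3) ∧ h i = -1 ∧
        ∀ w : Fin 19, (w = 0 ∨ w = 3) → w ≠ i → h w = 1 := by
      rcases hx with ⟨a, b⟩ | ⟨a, b⟩
      · exact ⟨0, Or.inl rfl, a, by rintro w (rfl | rfl) hw; exacts [absurd rfl hw, b]⟩
      · exact ⟨3, Or.inr rfl, a, by rintro w (rfl | rfl) hw; exacts [b, absurd rfl hw]⟩
    obtain ⟨j, hj, hj1, hj2⟩ : ∃ i : Fin 19, (i = 1 ∨ i = 4) ∧ h i = -1 ∧
        ∀ w : Fin 19, (w = 1 ∨ w = 4) → w ≠ i → h w = 1 := by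
      rcases hy with ⟨a, b⟩ | ⟨a, b⟩
      · exact ⟨1, Or.inl rfl, a, by rintro w (rfl | rfl) hw; exacts [absurd rfl hw, b]⟩
      · exact ⟨4, Or.inr rfl, a, by rintro w (rfl | rfl) hw; exacts [b, absurd rfl hw]⟩
    obtain ⟨k, hk', hk1, hk2⟩ : ∃ i : Fin 19, (i = 2 ∨ i = 5) ∧ h i = -1 ∧
        ∀ w : Fin 19, (w = 2 ∨ w = 5) → w ≠ i → h w = 1 := by
      rcases hz with ⟨a, b⟩ | ⟨a, b⟩
      · exact ⟨2, Or.inl rfl, a, by rintro w (rfl | rfl) hw; exacts [absurd rfl hw, b]⟩
      · exact ⟨5, Or.inr rfl, a, by rintro w (rfl | rfl) hw; exacts [b, absurd rfl hw]⟩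
    have hij : i ≠ j := by
      rintro rfl
      rcases hi with rfl | rfl <;> rcases hj with h | h <;> exact absurd h (by decide)
    have hik : i ≠ k := by
      rintro rfl
      rcases hi with rfl | rfl <;> rcases hk' with h | h <;> exact absurd h (by decide)
    have hjk : j ≠ k := by
      rintro rfl
      rcases hj with rfl | rfl <;> rcases hk' with h | h <;> exact absurd h (by decide)
    obtain ⟨s, s0, s1, s2⟩ := cap_clique i j k hi hj hk' (adj_of_act hu hij (hact i hi1) (hact j hj1))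
      (adj_of_act hu hik (hact i hi1) (hact k hk1)) (adj_of_act hu hjk (hact j hj1) (hact k hk1))
    refine ⟨s, spv_unique s (by rw [s0]; exact hact i hi1) (by rw [s1]; exact hact j hj1)
      (by rw [s2]; exact hact k hk1), ?_⟩
    unfold hsp
    rw [s0, s1, s2]
    funext v
    simp only [Pi.mul_apply]
    by_cases hvi : v = i
    · subst hvi
      rw [ss_same, ss_ne hij, ss_ne hik, hi1]; rfl
    by_cases hvj : v = j
    · subst hvj
      rw [ss_same, ss_ne hij.symm, ss_ne hjk, hj1]; rfl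
    by_cases hvk : v = k
    · subst hvk
      rw [ss_same, ss_ne hik.symm, ss_ne hjk.symm, hk1]; rfl
    rw [ss_ne hvi, ss_ne hvj, ss_ne hvk, one_mul, one_mul]
    by_cases hv : v.val < 6
    · have : v = 0 ∨ v = 1 ∨ v = 2 ∨ v = 3 ∨ v = 4 ∨ v = 5 := by
        revert hv; clear * -; revert v; decide +kernel
      rcases this with rfl | rfl | rfl | rfl | rfl | rfl
      · exact hi2 _ (Or.inl rfl) hvi
      · exact hj2 _ (Or.inl rfl) hvj
      · exact hk2 _ (Or.inl rfl) hvk
      · exact hi2 _ (Or.inr rfl) hvi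
      · exact hj2 _ (Or.inr rfl) hvj
      · exact hk2 _ (Or.inr rfl) hvk
    · exact hnc v hv

end Pool.Agent.H75.AX
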