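import Pool.Agent.H75.AX.Mfd2

/-!
The closed Alexandrov space of a colouring, as a basic construction over the polytope.
-/

set_option autoImplicit false

open scoped Topology InnerProductSpace

noncomputable section

namespace Pool.Agent.H75.AX

/-- Tangent vectors in the sense of `Geom` are in the kernel of the derivative. -/
theorem tangent_of_geom {Pr : EM → EM →L[ℝ] EM} {Q : EM → EM →L[ℝ] EM →L[ℝ] EM} {C r : ℝ}
    (hG : Spec.Geom MM 3 Pr Q C r) {x : EM} (hx : x ∈ MM) {v : EM} (hv : Pr x v = v) :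
    fderiv ℝ Phi x v = 0 := by
  -- scale to a short vector
  set c : ℝ := r / (‖v‖ + 1) with hc
  have hn : 0 < ‖v‖ + 1 := by positivity
  have hcpos : 0 < c := div_pos hG.r_pos hn
  have hcv : Pr x (c • v) = c • v := by rw [map_smul, hv]
  have hnorm : ‖c • v‖ ≤ r := by
    rw [norm_smul, Real.norm_eq_abs, abs_of_pos hcpos, hc, div_mul_eq_mul_div, div_le_iff₀ hn]
    have := hG.r_pos
    nlinarith [norm_nonneg v]
  obtain ⟨γ, γ', h0, h0', hγ⟩ := hG.exist x hx (c • v) hcv hnorm
  have hmem0 : (0 : ℝ) ∈ Set.Icc (0 : ℝ) 1 := ⟨le_rfl, zero_le_one⟩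
  have hd : HasDerivWithinAt γ (γ' 0) (Set.Icc 0 1) 0 := (hγ 0 hmem0).2.1
  have hΦ : HasFDerivAt Phi (fderiv ℝ Phi x) x :=
    (contDiff_Phi.differentiable (by norm_num)).differentiableAt.hasFDerivAt
  rw [← h0] at hΦ
  have h1 : HasDerivWithinAt (Phi ∘ γ) (fderiv ℝ Phi (γ 0) (γ' 0)) (Set.Icc 0 1) 0 :=
    hΦ.comp_hasDerivWithinAt 0 hd
  have h2 : HasDerivWithinAt (Phi ∘ γ) 0 (Set.Icc 0 1) 0 := by
    refine (hasDerivWithinAt_const (0 : ℝ) (Set.Icc (0 : ℝ) 1) (0 : EV)).congr ?_ ?_
    · intro t ht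
      exact (hγ t ht).1
    · exact (hγ 0 hmem0).1
  have h3 := (uniqueDiffOn_Icc zero_lt_one 0 hmem0).eq_deriv _ h1 h2
  rw [h0', h0, map_smul] at h3
  exact (smul_eq_zero.mp h3).resolve_left hcpos.ne'

/-- At a special vertex the element of the kernel acts by `-1` on the tangent space. -/
theorem neg_of_special (s : Fin 4) (ε : SS) {v : EM}
    (hv : fderiv ℝ Phi (theta ε (spv s)) v = 0) : signHom (hsp s) v = -v := by
  have hcomp : ∀ w : Fin 19, 2 * theta ε (spv s) (Sum.inr w) * v (Sum.inr w) +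
      ((na w 0 : ℝ) * v (Sum.inl 0) + (na w 1 : ℝ) * v (Sum.inl 1) +
        (na w 2 : ℝ) * v (Sum.inl 2)) = 0 := by
    intro w
    rw [← fderiv_Phi, hv]; rfl
  have hact : ∀ m, (na (spt s m) 0 : ℝ) * v (Sum.inl 0) + (na (spt s m) 1 : ℝ) * v (Sum.inl 1) +
      (na (spt s m) 2 : ℝ) * v (Sum.inl 2) = 0 := by
    intro m
    have h1 := hcomp (spt s m)
    have h2 : ell (spt s m) (spv s) = 0 := spt_mem s m
    rw [theta_inr, h2, Real.sqrt_zero, mul_zero, mul_zero, zero_mul, zero_add] at h1
    exact h1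
  have hbase : ∀ i : Fin 3, v (Sum.inl i) = 0 := by
    have e0 := hact 0
    have e1 := hact 1
    have e2 := hact 2
    intro i
    fin_cases s <;> simp [spt, na] at e0 e1 e2 <;> fin_cases i
    all_goals first | exact e0 | exact e1 | exact e2
  have hfib : ∀ w : Fin 19, w ∉ act (spv s) → v (Sum.inr w) = 0 := by
    intro w hw
    have h1 := hcomp w
    rw [hbase, hbase, hbase, mul_zero, mul_zero, mul_zero, add_zero, add_zero, add_zero,
      theta_inr] at h1
    have hpos : 0 < ell w (spv s) := lt_of_le_of_ne (spv_mem s w) (Ne.symm hw)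
    have hs : √(ell w (spv s)) ≠ 0 := (Real.sqrt_pos.mpr hpos).ne'
    have hε : ((ε w : ℤ) : ℝ) ≠ 0 := by exact_mod_cast (ε w).ne_zero
    have h4 : 2 * (((ε w : ℤ) : ℝ) * √(ell w (spv s))) ≠ 0 :=
      mul_ne_zero two_ne_zero (mul_ne_zero hε hs)
    exact (mul_eq_zero.mp h1).resolve_left h4
  ext j
  rcases j with i | w
  · change v (Sum.inl i) = -v (Sum.inl i)
    rw [hbase i, neg_zero]
  · change ((hsp s w : ℤ) : ℝ) * v (Sum.inr w) = -v (Sum.inr w)
    by_cases hw : w ∈ act (spv s)
    · have h1 : hsp s w = -1 := by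
        obtain ⟨m, rfl⟩ := (act_spv_iff s w).mp hw
        clear hw hact hcomp hfib hbase hv
        revert s m; decide +kernel
      rw [h1]; simp
    · rw [hfib w hw]; simp

/-- The closed Alexandrov space of an admissible colouring. -/
theorem exists_space (hJ5 : Spec.J5) (hJ6 : Spec.J6) {col : Fin 19 → Fin 12} (hcol : GoodCol col) :
    ∃ (X : Type) (_ : MetricSpace X) (κ : GG → PP → X), IsClosedAlexandrov3 X ∧
      IsBC (gen col) Fac κ ∧ ∀ a (k : PP), (∀ s, k.1 ≠ spv s) → IsRegPt (κ a k) := by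
  classical
  have hfr : Module.finrank ℝ EM = 3 + Module.finrank ℝ EV := by
    rw [finrank_euclideanSpace, finrank_euclideanSpace]; rfl
  obtain ⟨Pr, Q, C, r, hG⟩ := hJ5 EM EV Phi MM 3 contDiff_Phi rfl isCompact_MM isConnected_MM
    (fun x hx => surj_fderiv hx) hfr
  let H : Subgroup SS := (lam col).ker
  let ρ : H →* (EM ≃ₗᵢ[ℝ] EM) := signHom.comp H.subtype
  have hρ : ∀ (h : H) (s : SS) (u : E3), ρ h (theta s u) = theta (h.1 * s) u := fun h s u =>
    signHom_theta h.1 s u
  have hfix : ∀ (h : H) (s : SS) {u : E3}, u ∈ PP → (ρ h (theta s u) = theta s u ↔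
      Supp h.1 (act u)) := by
    intro h s u hu
    rw [hρ, theta_eq_iff hu]
    constructor
    · rintro ⟨-, h1⟩ v hv
      have := h1 v hv
      rw [Pi.mul_apply] at this
      exact mul_eq_right.mp this
    · intro h1
      refine ⟨rfl, fun v hv => ?_⟩
      rw [Pi.mul_apply, h1 v hv, one_mul]
  have hfree : ∀ (s : SS) {u : E3}, u ∈ PP → (∀ s', u ≠ spv s') → ∀ h : H,
      ρ h (theta s u) = theta s u → h = 1 := by
    intro s u hu hns h hh
    rcases ker_cases hcol hu (MonoidHom.mem_ker.mp h.2) ((hfix h s hu).mp hh) with h1 | ⟨s', h1, -⟩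
    · exact Subtype.ext h1
    · exact absurd h1 (hns s')
  obtain ⟨X, hX, π, hπc, hπs, hπ, hcomp, hconn, hlen, hcurv, hdim, hreg, hcone⟩ :=
    hJ6 EM MM Pr Q C r hG H ρ (fun h x hx => signHom_mem h.1 hx)
  obtain ⟨σ, hσ⟩ := exists_section hcol
  let κ : GG → PP → X := fun a u => π ⟨theta (σ a) u.1, theta_mem _ u.2⟩
  have hκ : ∀ (s : SS) (u : PP), π ⟨theta s u.1, theta_mem _ u.2⟩ = κ (lam col s) u := by
    intro s u
    refine (hπ _ _).mpr ⟨⟨σ (lam col s) * s⁻¹, ?_⟩, ?_⟩
    · rw [MonoidHom.mem_ker, map_mul, hσ, map_inv, mul_inv_cancel]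
    · rw [hρ]
      simp
  have hκsurj : ∀ x, ∃ a k, κ a k = x := by
    intro x
    obtain ⟨m, rfl⟩ := hπs x
    obtain ⟨h1, s, hs⟩ := exists_theta_eq m.2
    refine ⟨lam col s, ⟨prj m.1, h1⟩, ?_⟩
    rw [← hκ]
    congr 1
    exact Subtype.ext hs
  have hκcont : ∀ a, Continuous (κ a) := by
    intro a
    refine hπc.comp (Continuous.subtype_mk ?_ _)
    exact (continuous_theta _).comp continuous_subtype_val
  have hBC : IsBC (gen col) Fac κ := by
    refine ⟨hκsurj, ?_, ?_⟩
    · intro a b k l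
      rw [hπ]
      constructor
      · rintro ⟨h, hh⟩
        rw [hρ, theta_eq_iff k.2] at hh
        obtain ⟨h1, h2⟩ := hh
        refine ⟨Subtype.ext h1, ?_⟩
        have h3 : Supp ((σ a)⁻¹ * σ b * (h.1)⁻¹) (act k.1) := by
          intro v hv
          have := h2 v hv
          simp only [Pi.mul_apply, Pi.inv_apply] at this ⊢
          rw [← this]
          have e1 := sq_one (h.1 v)
          have e2 := sq_one (σ a v)
          rw [Int.units_inv_eq_self, Int.units_inv_eq_self]
          calc σ a v * (h.1 v * σ a v) * h.1 v = (σ a v * σ a v) * (h.1 v * h.1 v) := by ac_rfl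
            _ = 1 := by rw [e1, e2, one_mul]
        have h4 := lam_mem_closure col h3
        rw [map_mul, map_mul, map_inv, map_inv, hσ, hσ, MonoidHom.mem_ker.mp h.2, inv_one,
          mul_one] at h4
        exact h4
      · rintro ⟨rfl, hab⟩
        obtain ⟨w, hw, hwl⟩ := exists_supp col hab
        refine ⟨⟨σ b * (σ a)⁻¹ * w⁻¹, ?_⟩, ?_⟩
        · rw [MonoidHom.mem_ker, map_mul, map_mul, map_inv, map_inv, hσ, hσ, hwl,
            mul_comm a⁻¹ b, mul_inv_cancel]
        · rw [hρ, theta_eq_iff k.2]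
          refine ⟨rfl, fun v hv => ?_⟩
          simp only [Pi.mul_apply, Pi.inv_apply]
          rw [hw v hv, inv_one, mul_one, inv_mul_cancel_right]
    · intro U
      constructor
      · intro hU a
        exact hU.preimage (hκcont a)
      · intro hU
        let q : (Σ _ : GG, PP) → X := fun p => κ p.1 p.2
        have hq : Continuous q := by
          rw [continuous_sigma_iff]
          exact hκcont
        have hqs : Function.Surjective q := by
          intro x
          obtain ⟨a, k, hak⟩ := hκsurj x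
          exact ⟨⟨a, k⟩, hak⟩
        have hquot : Topology.IsQuotientMap q := (hq.isClosedMap).isQuotientMap hq hqs
        rw [← hquot.isOpen_preimage, isOpen_sigma_iff]
        exact hU
  have hregκ : ∀ (a : GG) (k : PP), (∀ s, k.1 ≠ spv s) → IsRegPt (κ a k) := by
    intro a k hk
    exact hreg ⟨theta (σ a) k.1, theta_mem _ k.2⟩ (hfree (σ a) k.2 hk)
  refine ⟨X, hX, κ, ⟨hcomp, hconn, hlen, hcurv, ?_, ?_⟩, hBC, hregκ⟩
  · -- dimension
    obtain ⟨u, hu, hact⟩ := exists_interior
    refine hdim ⟨theta 1 u, theta_mem 1 hu, hfree 1 hu fun s hs => ?_⟩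
    have := spt_mem s 0
    rw [← hs, hact] at this
    exact this
  · -- local structure
    intro p
    obtain ⟨m, rfl⟩ := hπs p
    obtain ⟨h1, s, hs⟩ := exists_theta_eq m.2
    by_cases hns : ∀ s', prj m.1 ≠ spv s'
    · obtain ⟨U, hU, hpU, ⟨φ⟩⟩ := hreg m (by
        intro h hh
        rw [← hs] at hh
        exact hfree s h1 hns h hh)
      exact ⟨U, hU, hpU, Or.inl ⟨φ⟩⟩
    · push Not at hns
      obtain ⟨s', hs'⟩ := hns
      have hmx : (m : EM) = theta s (spv s') := by rw [← hs', hs]
      obtain ⟨U, hU, hpU, ⟨φ⟩⟩ := hcone m ⟨hsp s', MonoidHom.mem_ker.mpr (hsp_ker col s')⟩ (by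
        intro h
        have h2 : hsp s' (spt s' 0) = 1 := by
          have := congrArg Subtype.val h
          change hsp s' = 1 at this
          rw [this]; rfl
        clear hmx hs' h
        revert s'; decide +kernel) (by
        intro h
        rw [hmx, hfix h s (spv_mem s')]
        constructor
        · intro hsupp
          rcases ker_cases hcol (spv_mem s') (MonoidHom.mem_ker.mp h.2) hsupp with h2 | ⟨s2, h2, h3⟩
          · exact Or.inl (Subtype.ext h2)
          · right
            have : s' = s2 := spv_injective h2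
            subst this
            exact Subtype.ext h3
        · rintro (rfl | rfl)
          · intro v _; rfl
          · intro v hv
            change hsp s' v = 1
            rw [act_spv] at hv
            push Not at hv
            unfold hsp
            simp only [Pi.mul_apply]
            rw [ss_ne hv.1, ss_ne hv.2.1, ss_ne hv.2.2, one_mul, one_mul]) (by
        intro v hv
        have h2 := tangent_of_geom hG m.2 hv
        rw [hmx] at h2
        exact neg_of_special s' s h2)
      exact ⟨U, hU, hpU, Or.inr ⟨φ⟩⟩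

end Pool.Agent.H75.AX
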