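import Pool.Agent.H75.AX.BC
import Pool.Agent.H75.AX.Cover
import Pool.Agent.H75.AX.Comb2

/-!
Basic constructions over the polytope: the special points and the oddness criterion.
-/

set_option autoImplicit false

open scoped Topology

noncomputable section

namespace Pool.Agent.H75.AX

/-- The facets as subsets of the polytope. -/
def Fac (v : Fin 19) : Set PP := {u | v ∈ act u.1}

/-- The colours of the caps of types `X, Y, Z`. -/
def cc : Fin 3 → G2 := ![![-1, 1], ![1, -1], ![-1, -1]]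

theorem capcol_spt : ∀ s m, capcol (spt s m) = cc m := by decide +kernel

theorem G2_cases : ∀ e : G2, e = 1 ∨ e = cc 0 ∨ e = cc 1 ∨ e = cc 2 := by decide +kernel

theorem cc_mul : cc 0 * cc 1 = cc 2 ∧ cc 1 * cc 0 = cc 2 ∧ cc 0 * cc 2 = cc 1 ∧ cc 2 * cc 0 = cc 1 ∧
    cc 1 * cc 2 = cc 0 ∧ cc 2 * cc 1 = cc 0 := by decide +kernel

theorem cc_sq (m : Fin 3) : cc m * cc m = 1 := G2_sq _

/-- Solving the cocycle equation on the complete graph with four vertices. -/
theorem exists_signs (t : G2 → Fin 3 → ℤˣ) (sym : ∀ e m, t (e * cc m) m = t e m)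
    (flat : ∀ e m n, m ≠ n → t e m * t (e * cc m) n = t e n * t (e * cc n) m)
    (hmu : t 1 0 * t (cc 0) 1 * t (cc 0 * cc 1) 2 = 1) :
    ∃ σ : G2 → ℤˣ, ∀ e m, σ (e * cc m) * t e m = σ e := by
  obtain ⟨c01, c10, c02, c20, c12, c21⟩ := cc_mul
  have s0 := sym 1 0
  have s1 := sym 1 1
  have s2 := sym 1 2
  have s01 := sym (cc 0) 1
  have s02 := sym (cc 0) 2
  have s10 := sym (cc 1) 0
  rw [one_mul] at s0 s1 s2
  rw [c01] at s01
  rw [c02] at s02
  rw [c10] at s10
  have f01 := flat 1 0 1 (by decide)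
  have f02 := flat 1 0 2 (by decide)
  have f12 := flat 1 1 2 (by decide)
  rw [one_mul, one_mul] at f01 f02 f12
  have g12 := flat (cc 0) 1 2 (by decide)
  rw [c01, c02] at g12
  rw [c01] at hmu
  have hne0 : cc 0 ≠ 1 := by decide
  have hne1 : cc 1 ≠ 1 := by decide
  have hne2 : cc 2 ≠ 1 := by decide
  have hne10 : cc 1 ≠ cc 0 := by decide
  have hne20 : cc 2 ≠ cc 0 := by decide
  have hne21 : cc 2 ≠ cc 1 := by decide
  have key : ∀ a b c x y z : ℤˣ, a * x = b * y → a * z = c * y → b * z = c * x →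
      a * x * c = 1 → x * c = z * b → (c * x = a ∧ b * z = a ∧ c * y = b ∧ a * z = b ∧
        b * y = c ∧ a * x = c) := by
    intro a b c x y z
    rcases units_cases a with rfl | rfl <;> rcases units_cases b with rfl | rfl <;>
      rcases units_cases c with rfl | rfl <;> rcases units_cases x with rfl | rfl <;>
      rcases units_cases y with rfl | rfl <;> rcases units_cases z with rfl | rfl <;> decide
  have e22 : t (cc 2) 2 = t 1 2 := s2
  have e00 : t (cc 0) 0 = t 1 0 := s0
  have e11 : t (cc 1) 1 = t 1 1 := s1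
  rw [e22] at hmu g12
  rw [e11] at g12
  rw [s10] at f02
  rw [s01, s02] at f12
  obtain ⟨k1, k2, k3, k4, k5, k6⟩ := key (t 1 0) (t 1 1) (t 1 2) (t (cc 0) 1) (t (cc 1) 0)
    (t (cc 0) 2) f01 f02 f12 hmu g12
  let σ : G2 → ℤˣ := fun e => if e = 1 then 1 else if e = cc 0 then t 1 0 else
    if e = cc 1 then t 1 1 else t 1 2
  have σ1 : σ 1 = 1 := if_pos rfl
  have σa : σ (cc 0) = t 1 0 := by simp only [σ, if_neg hne0, if_true]
  have σb : σ (cc 1) = t 1 1 := by simp only [σ, if_neg hne1, if_neg hne10, if_true]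
  have σc : σ (cc 2) = t 1 2 := by simp only [σ, if_neg hne2, if_neg hne20, if_neg hne21]
  refine ⟨σ, fun e m => ?_⟩
  rcases G2_cases e with rfl | rfl | rfl | rfl
  · rw [one_mul, σ1]
    fin_cases m
    · change σ (cc 0) * t 1 0 = 1
      rw [σa, sq_one]
    · change σ (cc 1) * t 1 1 = 1
      rw [σb, sq_one]
    · change σ (cc 2) * t 1 2 = 1
      rw [σc, sq_one]
  · fin_cases m
    · change σ (cc 0 * cc 0) * t (cc 0) 0 = σ (cc 0)
      rw [cc_sq, σ1, e00, σa, one_mul]
    · change σ (cc 0 * cc 1) * t (cc 0) 1 = σ (cc 0)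
      rw [c01, σc, σa, k1]
    · change σ (cc 0 * cc 2) * t (cc 0) 2 = σ (cc 0)
      rw [c02, σb, σa, k2]
  · fin_cases m
    · change σ (cc 1 * cc 0) * t (cc 1) 0 = σ (cc 1)
      rw [c10, σc, σb, k3]
    · change σ (cc 1 * cc 1) * t (cc 1) 1 = σ (cc 1)
      rw [cc_sq, σ1, e11, σb, one_mul]
    · change σ (cc 1 * cc 2) * t (cc 1) 2 = σ (cc 1)
      rw [c12, σa, σb, s02, k4]
  · fin_cases m
    · change σ (cc 2 * cc 0) * t (cc 2) 0 = σ (cc 2)
      rw [c20, σb, σc, s10, k5]
    · change σ (cc 2 * cc 1) * t (cc 2) 1 = σ (cc 2)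
      rw [c21, σa, σc, s01, k6]
    · change σ (cc 2 * cc 2) * t (cc 2) 2 = σ (cc 2)
      rw [cc_sq, σ1, e22, σc, one_mul]

/-! ### Special points -/

section
variable {col : Fin 19 → Fin 12} {X : Type} [TopologicalSpace X] {κ : GG → PP → X}

theorem closure_snd {S : Set (Fin 19)} (hS : ∀ v ∈ S, v.val < 6) {b : GG}
    (hb : b ∈ Subgroup.closure (gen col '' S)) : b.2 = 1 := by
  induction hb using Subgroup.closure_induction with
  | mem x hx =>
    obtain ⟨v, hv, rfl⟩ := hx
    unfold gen; rw [if_pos (hS v hv)]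
  | one => rfl
  | mul x y _ _ ihx ihy => rw [Prod.snd_mul, ihx, ihy, mul_one]
  | inv x _ ih => rw [Prod.snd_inv, ih, inv_one]

theorem gen_spt (s : Fin 4) (m : Fin 3) : gen col (spt s m) = (cc m, 1) := by
  unfold gen; rw [if_pos (spt_lt s m), capcol_spt]

theorem spt_mem (s : Fin 4) (m : Fin 3) : spt s m ∈ act (spv s) := by
  rw [act_spv]
  fin_cases m
  · exact Or.inl rfl
  · exact Or.inr (Or.inl rfl)
  · exact Or.inr (Or.inr rfl)

theorem act_spv_iff (s : Fin 4) (v : Fin 19) : v ∈ act (spv s) ↔ ∃ m, v = spt s m := by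
  constructor
  · intro h
    rcases (act_spv s v).mp h with h | h | h
    · exact ⟨0, h⟩
    · exact ⟨1, h⟩
    · exact ⟨2, h⟩
  · rintro ⟨m, rfl⟩; exact spt_mem s m

theorem act_spv_lt (s : Fin 4) (v : Fin 19) (hv : v ∈ act (spv s)) : v.val < 6 := by
  obtain ⟨m, rfl⟩ := (act_spv_iff s v).mp hv
  exact spt_lt s m

theorem closure_sp (s : Fin 4) (e : G2) :
    ((e, 1) : GG) ∈ Subgroup.closure (gen col '' act (spv s)) := by
  have h : ∀ m, ((cc m, 1) : GG) ∈ Subgroup.closure (gen col '' act (spv s)) := fun m =>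
    Subgroup.subset_closure ⟨spt s m, spt_mem s m, gen_spt s m⟩
  rcases G2_cases e with rfl | rfl | rfl | rfl
  · exact Subgroup.one_mem _
  · exact h 0
  · exact h 1
  · exact h 2

/-- A point of the polytope. -/
def inP (u : E3) : PP :=
  haveI := Classical.propDecidable (u ∈ PP)
  if h : u ∈ PP then ⟨u, h⟩ else ⟨spv 0, spv_mem 0⟩

theorem inP_of_mem {u : E3} (h : u ∈ PP) : inP u = ⟨u, h⟩ := by
  unfold inP; rw [dif_pos h]

theorem inP_coe (u : PP) : inP u.1 = u := inP_of_mem u.2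

theorem continuousOn_inP : ContinuousOn inP PP := by
  rw [continuousOn_iff_continuous_domRestrict]
  have : PP.domRestrict inP = id := by
    funext u; exact inP_coe u
  rw [this]; exact continuous_id

/-- The special vertices as points of the polytope. -/
def spP (s : Fin 4) : PP := ⟨spv s, spv_mem s⟩

/-- The special points. -/
def sp (κ : GG → PP → X) (s : Fin 4) (h : G12) : X := κ (1, h) (spP s)

variable (hBC : IsBC (gen col) Fac κ)
include hBC

theorem sp_eq (s : Fin 4) (e : G2) (h : G12) : κ (e, h) (spP s) = sp κ s h := by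
  have := hBC.mul_mem (1, h) (e, 1) (spP s) (closure_sp s e)
  rw [Prod.mk_mul_mk, one_mul, mul_one] at this
  exact this

theorem eq_sp {s : Fin 4} {h : G12} {b : GG} {w : PP} (he : κ b w = sp κ s h) :
    w = spP s ∧ b.2 = h := by
  obtain ⟨h1, h2⟩ := (hBC.eq_iff _ _ _ _).mp he
  refine ⟨h1, ?_⟩
  have h3 : (b⁻¹ * (1, h)).2 = 1 := closure_snd (col := col) (fun v hv => ?_) h2
  · rw [Prod.snd_mul, Prod.snd_inv, inv_mul_eq_one] at h3
    exact h3
  · rw [h1] at hv
    exact act_spv_lt s v hv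

theorem sp_injective {s s' : Fin 4} {h h' : G12} (he : sp κ s h = sp κ s' h') : s = s' ∧ h = h' := by
  obtain ⟨h1, h2⟩ := eq_sp hBC he
  exact ⟨spv_injective (congrArg Subtype.val h1), h2⟩

/-- Neighbourhoods of special points contain star neighbourhoods. -/
theorem exists_star {s : Fin 4} {h : G12} {U : Set X} (hU : U ∈ 𝓝 (sp κ s h)) :
    ∃ r > 0, ∀ e, ∀ u : PP, dist u.1 (spv s) < r → κ (e, h) u ∈ U := by
  have h1 : ∀ e : G2, ∃ r > 0, ∀ u : PP, dist u.1 (spv s) < r → κ (e, h) u ∈ U := by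
    intro e
    have h2 : κ (e, h) ⁻¹' U ∈ 𝓝 (spP s) :=
      (hBC.continuous (e, h)).continuousAt.preimage_mem_nhds (by rw [sp_eq hBC]; exact hU)
    obtain ⟨r, hr, hr'⟩ := Metric.mem_nhds_iff.mp h2
    exact ⟨r, hr, fun u hu => hr' (by rw [Metric.mem_ball, Subtype.dist_eq]; exact hu)⟩
  choose r hr hr' using h1
  refine ⟨Finset.univ.inf' Finset.univ_nonempty r, by simpa using hr, fun e u hu => ?_⟩
  exact hr' e u (lt_of_lt_of_le hu (Finset.inf'_le _ (Finset.mem_univ e)))

omit [TopologicalSpace X] hBC in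
theorem exists_radius (s : Fin 4) : ∃ r > 0, ∀ u ∈ Metric.ball (spv s) r, act u ⊆ act (spv s) :=
  exists_local (spv s)

/-- Star neighbourhoods. -/
theorem isOpen_star {s : Fin 4} {h : G12} {r : ℝ}
    (hr : ∀ u ∈ Metric.ball (spv s) r, act u ⊆ act (spv s)) :
    IsOpen {x : X | ∃ e : G2, ∃ u : PP, dist u.1 (spv s) < r ∧ κ (e, h) u = x} := by
  rw [hBC.isOpen_iff]
  intro b
  by_cases hb : b.2 = h
  · have : κ b ⁻¹' {x : X | ∃ e : G2, ∃ u : PP, dist u.1 (spv s) < r ∧ κ (e, h) u = x} =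
        {u : PP | dist u.1 (spv s) < r} := by
      ext u
      constructor
      · rintro ⟨e, w, hw, hwu⟩
        obtain ⟨h1, -⟩ := (hBC.eq_iff _ _ _ _).mp hwu
        rw [← h1]; exact hw
      · intro hu
        refine ⟨b.1, u, hu, ?_⟩
        rw [← hb]
    rw [this]
    exact isOpen_lt (by fun_prop) continuous_const
  · convert isOpen_empty using 1
    rw [Set.eq_empty_iff_forall_notMem]
    rintro u ⟨e, w, hw, hwu⟩
    obtain ⟨h1, h2⟩ := (hBC.eq_iff _ _ _ _).mp hwu
    apply hb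
    have h3 : (((e, h) : GG)⁻¹ * b).2 = 1 := closure_snd (col := col) (fun v hv =>
      act_spv_lt s v (hr w.1 (by rw [Metric.mem_ball]; exact hw) hv)) h2
    rw [Prod.snd_mul, Prod.snd_inv, inv_mul_eq_one] at h3
    exact h3.symm

end

/-- The punctured neighbourhood of a special vertex in the polytope. -/
def Dpt (s : Fin 4) (r : ℝ) : Set E3 := (PP ∩ Metric.ball (spv s) r) \ {spv s}

theorem convex_Dpt (s : Fin 4) (r : ℝ) : Convex ℝ (Dpt s r) := by
  have := convex_diff_sp (convex_PP.inter (convex_ball (spv s) r)) Set.inter_subset_left {s}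
  rwa [Set.image_singleton] at this

/-- Points near a special vertex with prescribed active facets. -/
theorem exists_near (s : Fin 4) {r : ℝ} (hr : 0 < r) {w : E3} (hw : w ∈ PP) (hne : w ≠ spv s) :
    ∃ u ∈ Dpt s r, act u = act (spv s) ∩ act w := by
  set d := dist w (spv s) with hd
  have hdpos : 0 < d := dist_pos.mpr hne
  set b := min (1 / 2) (r / (2 * d)) with hb
  have hb0 : 0 < b := lt_min (by norm_num) (by positivity)
  have hb1 : b ≤ 1 / 2 := min_le_left _ _
  have ha0 : 0 < 1 - b := by linarith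
  refine ⟨(1 - b) • spv s + b • w, ⟨⟨convex_PP (spv_mem s) hw ha0.le hb0.le (by ring), ?_⟩, ?_⟩,
    act_comb (spv_mem s) hw ha0 hb0 (by ring)⟩
  · rw [Metric.mem_ball, dist_eq_norm]
    have : (1 - b) • spv s + b • w - spv s = b • (w - spv s) := by
      rw [sub_smul, one_smul, smul_sub]; abel
    rw [this, norm_smul, Real.norm_eq_abs, abs_of_pos hb0, ← dist_eq_norm, ← hd]
    have h1 : b ≤ r / (2 * d) := min_le_right _ _
    calc b * d ≤ r / (2 * d) * d := by gcongr
      _ = r / 2 := by field_simp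
      _ < r := by linarith
  · intro h
    rw [Set.mem_singleton_iff] at h
    have h2 : b • (w - spv s) = 0 := by
      have : (1 - b) • spv s + b • w - spv s = b • (w - spv s) := by
        rw [sub_smul, one_smul, smul_sub]; abel
      rw [← this, h, sub_self]
    exact hne (sub_eq_zero.mp ((smul_eq_zero.mp h2).resolve_left hb0.ne'))

theorem exists_near_facet (s : Fin 4) {r : ℝ} (hr : 0 < r) (m : Fin 3) :
    ∃ u ∈ Dpt s r, act u = {spt s m} := by
  obtain ⟨w, hw, hact⟩ := exists_facet_pt (spt s m)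
  have hne : w ≠ spv s := by
    rintro rfl
    have h1 : spt s (m + 1) ∈ act (spv s) := spt_mem _ _
    rw [hact, Set.mem_singleton_iff] at h1
    clear hact hw
    revert h1; revert s m; decide +kernel
  obtain ⟨u, hu, hu'⟩ := exists_near s hr hw hne
  refine ⟨u, hu, ?_⟩
  rw [hu', hact, Set.inter_eq_right, Set.singleton_subset_iff]
  exact spt_mem _ _

theorem spt_adj : ∀ s m n, m ≠ n → adjP (spt s m) (spt s n) := by decide +kernel

theorem exists_near_edge (s : Fin 4) {r : ℝ} (hr : 0 < r) {m n : Fin 3} (hmn : m ≠ n) :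
    ∃ u ∈ Dpt s r, spt s m ∈ act u ∧ spt s n ∈ act u := by
  obtain ⟨w, hw, hact⟩ := exists_edge_pt (spt_adj s m n hmn)
  have hne : w ≠ spv s := by
    rintro rfl
    have h1 : ∀ k, spt s k = spt s m ∨ spt s k = spt s n := by
      intro k
      have := spt_mem s k
      rw [hact] at this
      exact this
    revert h1 hmn
    clear hact hw
    revert s m n; decide +kernel
  obtain ⟨u, hu, hu'⟩ := exists_near s hr hw hne
  refine ⟨u, hu, ?_, ?_⟩
  · rw [hu', hact]; exact ⟨spt_mem _ _, Or.inl rfl⟩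
  · rw [hu', hact]; exact ⟨spt_mem _ _, Or.inr rfl⟩

/-! ### Oddness -/

/-- The map `Θ` has no lift on any punctured neighbourhood of `p`. -/
def OddAt {X : Type} [TopologicalSpace X] (Θ : X → TT) (p : X) : Prop :=
  ∀ U ∈ 𝓝 p, ¬ ∃ f : X → NZ, ContinuousOn f (U \ {p}) ∧ ∀ x ∈ U \ {p}, qq (f x) = Θ x

theorem smul_NZ_cancel {a b : ℤˣ} {z : NZ} (h : a • z = b • z) : a = b := by
  have : (b⁻¹ * a) • z = z := by rw [mul_smul, h, inv_smul_smul]
  have h2 := NZ_free this
  rw [inv_mul_eq_one] at h2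
  exact h2.symm

theorem odd_iff {col : Fin 19 → Fin 12} {X : Type} [TopologicalSpace X] {κ : GG → PP → X}
    (hBC : IsBC (gen col) Fac κ) (hclosed : ∀ s h, IsClosed {sp κ s h}) (s : Fin 4) (h : G12)
    {r : ℝ} (hr : 0 < r) (Θ : X → TT) (v : G2 → E3 → NZ) (t : G2 → Fin 3 → ℤˣ)
    (hv : ∀ e, ContinuousOn (v e) (Dpt s r))
    (hl : ∀ e, ∀ u ∈ Dpt s r, qq (v e u) = Θ (κ (e, h) (inP u)))
    (ht : ∀ e m, ∀ u ∈ Dpt s r, spt s m ∈ act u → v (e * cc m) u = t e m • v e u) :
    OddAt Θ (sp κ s h) ↔ t 1 0 * t (cc 0) 1 * t (cc 0 * cc 1) 2 = -1 := by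
  have sym : ∀ e m, t (e * cc m) m = t e m := by
    intro e m
    obtain ⟨u, hu, hact⟩ := exists_near_facet s hr m
    have hm : spt s m ∈ act u := by rw [hact]; rfl
    have h1 := ht (e * cc m) m u hu hm
    rw [ht e m u hu hm, mul_assoc, cc_sq, mul_one, ← mul_smul] at h1
    have h2 : t (e * cc m) m * t e m = 1 := NZ_free h1.symm
    rcases units_cases (t (e * cc m) m) with h3 | h3 <;> rcases units_cases (t e m) with h4 | h4 <;>
      simp [h3, h4] at h2 ⊢
  have flat : ∀ e m n, m ≠ n → t e m * t (e * cc m) n = t e n * t (e * cc n) m := by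
    intro e m n hmn
    obtain ⟨u, hu, hm, hn⟩ := exists_near_edge s hr hmn
    have h1 := ht (e * cc m) n u hu hn
    have h2 := ht (e * cc n) m u hu hm
    rw [ht e m u hu hm, ← mul_smul] at h1
    rw [ht e n u hu hn, ← mul_smul] at h2
    rw [mul_assoc, mul_comm (cc m), ← mul_assoc, h2] at h1
    have := smul_NZ_cancel h1
    rw [mul_comm (t e m), mul_comm (t e n)]
    exact this.symm
  have hmu : t 1 0 * t (cc 0) 1 * t (cc 0 * cc 1) 2 = 1 ∨
      t 1 0 * t (cc 0) 1 * t (cc 0 * cc 1) 2 = -1 := units_cases _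
  obtain ⟨r1, hr1, hloc⟩ := exists_radius s
  constructor
  · -- if the monodromy is trivial, there is a lift
    intro hodd
    by_contra hne
    have hmu1 := hmu.resolve_right hne
    obtain ⟨σ, hσ⟩ := exists_signs t sym flat hmu1
    set r2 := min r r1 with hr2
    have hr2pos : 0 < r2 := lt_min hr hr1
    set U : Set X := {x : X | ∃ e : G2, ∃ u : PP, dist u.1 (spv s) < r2 ∧ κ (e, h) u = x} with hUdef
    have hUo : IsOpen U := isOpen_star hBC fun u hu =>
      hloc u (Metric.ball_subset_ball (min_le_right _ _) hu)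
    have hpU : sp κ s h ∈ U := ⟨1, spP s, by simpa [spP] using hr2pos, rfl⟩
    refine hodd U (hUo.mem_nhds hpU) ?_
    have hWo : IsOpen (U \ {sp κ s h}) := hUo.sdiff (hclosed s h)
    -- points of the preimage
    have hpre : ∀ a : GG, ∀ k : PP, κ a k ∈ U \ {sp κ s h} → a.2 = h ∧ k.1 ∈ Dpt s r ∧
        act k.1 ⊆ act (spv s) := by
      rintro a k ⟨⟨e, w, hw, hwk⟩, hkp⟩
      obtain ⟨h1, h2⟩ := (hBC.eq_iff _ _ _ _).mp hwk
      subst h1
      have hactw : act w.1 ⊆ act (spv s) := hloc w.1 (by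
        rw [Metric.mem_ball]; exact lt_of_lt_of_le hw (min_le_right _ _))
      have h3 : (((e, h) : GG)⁻¹ * a).2 = 1 := closure_snd (col := col) (fun v hv =>
        act_spv_lt s v (hactw hv)) h2
      rw [Prod.snd_mul, Prod.snd_inv, inv_mul_eq_one] at h3
      refine ⟨h3.symm, ⟨⟨w.2, ?_⟩, ?_⟩, hactw⟩
      · rw [Metric.mem_ball]; exact lt_of_lt_of_le hw (min_le_left _ _)
      · intro hws
        rw [Set.mem_singleton_iff] at hws
        apply hkp
        rw [Set.mem_singleton_iff]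
        have hw' : w = spP s := Subtype.ext hws
        have ha : a = (a.1, h) := Prod.ext rfl h3.symm
        rw [hw', ha, sp_eq hBC]
    obtain ⟨f, hf, hfκ⟩ := hBC.glue hWo (fun a k => σ a.1 • v a.1 k.1) (by
      intro a
      have : ContinuousOn (fun k : PP => v a.1 k.1) (κ a ⁻¹' (U \ {sp κ s h})) := by
        refine (hv a.1).comp continuous_subtype_val.continuousOn ?_
        intro k hk
        exact (hpre a k hk).2.1
      exact this.const_smul (σ a.1)) (by
      intro a i k hik hak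
      obtain ⟨h1, h2, h3⟩ := hpre a k hak
      obtain ⟨m, rfl⟩ := (act_spv_iff s i).mp (h3 hik)
      rw [gen_spt]
      change σ (a.1 * cc m) • v (a.1 * cc m) k.1 = σ a.1 • v a.1 k.1
      rw [ht a.1 m k.1 h2 hik, ← mul_smul, hσ])
    refine ⟨f, hf, ?_⟩
    rintro x ⟨⟨e, w, hw, rfl⟩, hx⟩
    have hmem : κ (e, h) w ∈ U \ {sp κ s h} := ⟨⟨e, w, hw, rfl⟩, hx⟩
    rw [hfκ _ _ hmem, qq_smul, hl e w.1 (hpre _ _ hmem).2.1, inP_coe]
  · -- if the monodromy is non-trivial, there is no lift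
    intro hneg U hU
    rintro ⟨f, hf, hfl⟩
    obtain ⟨r3, hr3, hstar⟩ := exists_star hBC hU
    set r4 := min r r3 with hr4
    have hr4pos : 0 < r4 := lt_min hr hr3
    have hsub : Dpt s r4 ⊆ Dpt s r := by
      rintro u ⟨⟨h1, h2⟩, h3⟩
      exact ⟨⟨h1, Metric.ball_subset_ball (min_le_left _ _) h2⟩, h3⟩
    have hmem : ∀ e, ∀ u ∈ Dpt s r4, κ (e, h) (inP u) ∈ U \ {sp κ s h} := by
      rintro e u ⟨⟨h1, h2⟩, h3⟩
      rw [inP_of_mem h1]
      refine ⟨hstar e _ ?_, ?_⟩
      · rw [Metric.mem_ball] at h2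
        exact lt_of_lt_of_le h2 (min_le_right _ _)
      · intro h4
        rw [Set.mem_singleton_iff] at h4
        obtain ⟨h5, -⟩ := eq_sp hBC h4
        exact h3 (congrArg Subtype.val h5)
    have hlift : ∀ e, ∃ σ : ℤˣ, ∀ u ∈ Dpt s r4, f (κ (e, h) (inP u)) = σ • v e u := by
      intro e
      obtain ⟨u0, hu0, -⟩ := exists_near_facet s hr4pos 0
      refine lift_sign (convex_Dpt s r4).isPreconnected ⟨u0, hu0⟩ ((hv e).mono hsub) ?_ ?_
      · refine hf.comp ?_ (hmem e)
        refine (hBC.continuous (e, h)).comp_continuousOn ?_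
        exact continuousOn_inP.mono fun u hu => hu.1.1
      · intro u hu
        rw [hfl _ (hmem e u hu), hl e u (hsub hu)]
    choose σ hσ using hlift
    have hrel : ∀ e m, σ (e * cc m) * t e m = σ e := by
      intro e m
      obtain ⟨u, hu, hact⟩ := exists_near_facet s hr4pos m
      have hm : spt s m ∈ act u := by rw [hact]; rfl
      have h1 := hσ (e * cc m) u hu
      have h2 : κ (e * cc m, h) (inP u) = κ (e, h) (inP u) := by
        have h3 := hBC.mul_gen (e, h) (spt s m) (inP u) (by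
          rw [inP_of_mem hu.1.1]; exact hm)
        rw [gen_spt, Prod.mk_mul_mk, mul_one] at h3
        exact h3
      rw [h2, hσ e u hu, ht e m u (hsub hu) hm, ← mul_smul] at h1
      exact (smul_NZ_cancel h1).symm
    have e1 := hrel 1 0
    have e2 := hrel (cc 0) 1
    have e3 := hrel (cc 0 * cc 1) 2
    rw [one_mul] at e1
    have e4 : cc 0 * cc 1 * cc 2 = 1 := by decide
    rw [e4] at e3
    rw [← e1, ← e2] at e3
    generalize t 1 0 = a at *
    generalize t (cc 0) 1 = b at *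
    generalize t (cc 0 * cc 1) 2 = c at *
    generalize σ (cc 0 * cc 1) = d at *
    rcases units_cases a with rfl | rfl <;> rcases units_cases b with rfl | rfl <;>
      rcases units_cases c with rfl | rfl <;> rcases units_cases d with rfl | rfl <;>
      simp at e3 hneg

end Pool.Agent.H75.AX
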