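import Mathlib

/-!
The convex polytope `P` underlying the example, given by 19 integer inequalities, with its
combinatorics (checked by kernel computation on integer tables).
-/

set_option autoImplicit false

noncomputable section

namespace Pool.Agent.H75.AX

/-- Euclidean three-space. -/
abbrev E3 : Type := EuclideanSpace ℝ (Fin 3)

/-- Outer normals of the 19 facets. -/
def na : Fin 19 → Fin 3 → ℤ :=
  ![![-1, 0, 0], ![0, -1, 0], ![0, 0, -1], ![1, 0, 0], ![0, 1, 0], ![0, 0, 1], ![1, 1, 1], ![2,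
   1, -1], ![2, 1, 1], ![2, -1, 1], ![1, 0, 1], ![1, -1, 2], ![1, 1, 2], ![-1, 1, 2], ![0, 1,
   1], ![-1, 2, 1], ![1, 2, 1], ![1, 2, -1], ![1, 1, 0]]

/-- Constants of the 19 facets. -/
def nc : Fin 19 → ℤ :=
  ![0, 0, 0, 24, 24, 24, 34, 50, 56, 50, 32, 50, 56, 50, 32, 50, 56, 50, 32]

/-- Adjacency of facets, as bit masks. -/
def adjM : Fin 19 → ℕ :=
  ![57398, 3629, 393371, 902, 229381, 14339, 524160, 262476, 712, 1354, 2626, 5218, 10336,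
   20577, 41025, 82001, 163920, 327764, 131268]

/-- The vertices, as triples of facets. -/
def tri : Fin 34 → Fin 3 → Fin 19 :=
  ![![0, 1, 2], ![0, 1, 5], ![0, 2, 4], ![0, 4, 15], ![0, 5, 13], ![0, 13, 14], ![0, 14, 15],
   ![1, 2, 3], ![1, 3, 9], ![1, 5, 11], ![1, 9, 10], ![1, 10, 11], ![2, 3, 7], ![2, 4, 17], ![2,
   7, 18], ![2, 17, 18], ![3, 7, 8], ![3, 8, 9], ![4, 15, 16], ![4, 16, 17], ![5, 11, 12], ![5,
   12, 13], ![6, 7, 8], ![6, 7, 18], ![6, 8, 9], ![6, 9, 10], ![6, 10, 11], ![6, 11, 12], ![6,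
   12, 13], ![6, 13, 14], ![6, 14, 15], ![6, 15, 16], ![6, 16, 17], ![6, 17, 18]]

/-- Coordinates of the vertices. -/
def vert : Fin 34 → Fin 3 → ℤ :=
  ![![0, 0, 0], ![0, 0, 24], ![0, 24, 0], ![0, 24, 2], ![0, 2, 24], ![0, 14, 18], ![0, 18, 14],
   ![24, 0, 0], ![24, 0, 2], ![2, 0, 24], ![18, 0, 14], ![14, 0, 18], ![24, 2, 0], ![2, 24, 0],
   ![18, 14, 0], ![14, 18, 0], ![24, 5, 3], ![24, 3, 5], ![3, 24, 5], ![5, 24, 3], ![5, 3, 24],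
   ![3, 5, 24], ![22, 9, 3], ![20, 12, 2], ![22, 3, 9], ![20, 2, 12], ![12, 2, 20], ![9, 3, 22],
   ![3, 9, 22], ![2, 12, 20], ![2, 20, 12], ![3, 22, 9], ![9, 22, 3], ![12, 20, 2]]

structure Cert where
  (i j k l : Fin 19)
  (a b c d : ℤ)

def ce (i j k l : ℕ) (a b c d : ℤ) : Cert :=
  ⟨Fin.ofNat 19 i, Fin.ofNat 19 j, Fin.ofNat 19 k, Fin.ofNat 19 l, a, b, c, d⟩

/-- Farkas certificates for the disjointness of non-adjacent facets. -/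
def certs : List Cert :=
  [ce 0 3 1 2 (-1) (-1) 0 0, ce 0 6 1 14 (-1) (-1) 0 1, ce 0 7 2 18 (-1) (-1) 1 1,
   ce 0 8 1 6 (-1) (-1) 0 1, ce 0 9 1 10 (-1) (-1) 1 1, ce 0 10 1 5 (-1) (-1) 0 1,
   ce 0 11 1 5 (-1) (-1) 1 2, ce 0 12 1 13 (-2) (-1) 0 1, ce 0 16 1 15 (-2) (-1) 0 1,
   ce 0 17 2 4 (-1) (-1) 1 2, ce 0 18 2 4 (-1) (-1) 0 1, ce 1 4 0 2 (-1) (-1) 0 0,
   ce 1 6 0 10 (-1) (-1) 0 1, ce 1 7 2 3 (-1) (-1) 1 2, ce 1 8 0 9 (-2) (-1) 0 1,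
   ce 1 12 0 11 (-2) (-1) 0 1, ce 1 13 0 5 (-1) (-1) 1 2, ce 1 14 0 5 (-1) (-1) 0 1,
   ce 1 15 0 14 (-1) (-1) 1 1, ce 1 16 0 6 (-1) (-1) 0 1, ce 1 17 2 18 (-1) (-1) 1 1,
   ce 1 18 2 3 (-1) (-1) 0 1, ce 2 5 0 1 (-1) (-1) 0 0, ce 2 6 0 18 (-1) (-1) 0 1,
   ce 2 8 0 7 (-2) (-1) 0 1, ce 2 9 1 3 (-1) (-1) 1 2, ce 2 10 1 3 (-1) (-1) 0 1,
   ce 2 11 1 10 (-1) (-1) 1 1, ce 2 12 0 6 (-1) (-1) 0 1, ce 2 13 0 14 (-1) (-1) 1 1,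
   ce 2 14 0 4 (-1) (-1) 0 1, ce 2 15 0 4 (-1) (-1) 1 2, ce 2 16 0 17 (-2) (-1) 0 1,
   ce 3 4 2 18 (-1) (-1) 0 1, ce 3 5 1 10 (-1) (-1) 0 1, ce 3 6 1 8 (-1) (-1) 0 1,
   ce 3 10 6 9 (-1) (-2) 1 1, ce 3 11 1 10 (-1) (-1) 1 2, ce 3 12 6 10 (-1) (-1) 1 1,
   ce 3 13 1 12 (-2) (-1) 0 1, ce 3 14 1 6 (-1) (-1) 0 1, ce 3 15 1 16 (-2) (-1) 0 1,
   ce 3 16 6 18 (-1) (-1) 1 1, ce 3 17 2 18 (-1) (-1) 1 2, ce 3 18 6 7 (-1) (-2) 1 1,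
   ce 4 5 0 14 (-1) (-1) 0 1, ce 4 6 0 16 (-1) (-1) 0 1, ce 4 7 2 18 (-1) (-1) 1 2,
   ce 4 8 6 18 (-1) (-1) 1 1, ce 4 9 0 8 (-2) (-1) 0 1, ce 4 10 0 6 (-1) (-1) 0 1,
   ce 4 11 0 12 (-2) (-1) 0 1, ce 4 12 6 14 (-1) (-1) 1 1, ce 4 13 0 14 (-1) (-1) 1 2,
   ce 4 14 6 15 (-1) (-2) 1 1, ce 4 18 6 17 (-1) (-2) 1 1, ce 5 6 0 12 (-1) (-1) 0 1,
   ce 5 7 0 8 (-2) (-1) 0 1, ce 5 8 6 10 (-1) (-1) 1 1, ce 5 9 1 10 (-1) (-1) 1 2,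
   ce 5 10 6 11 (-1) (-2) 1 1, ce 5 14 6 13 (-1) (-2) 1 1, ce 5 15 0 14 (-1) (-1) 1 2,
   ce 5 16 6 14 (-1) (-1) 1 1, ce 5 17 0 16 (-2) (-1) 0 1, ce 5 18 0 6 (-1) (-1) 0 1,
   ce 7 9 1 3 (-1) (-1) 0 4, ce 7 10 3 18 (-1) (-1) 2 1, ce 7 11 9 18 (-1) (-1) 1 1,
   ce 7 12 8 18 (-1) (-1) 1 1, ce 7 13 0 16 (-1) (-1) 0 1, ce 7 14 0 18 (-1) (-1) 0 2,
   ce 7 15 14 17 (-1) (-1) 1 1, ce 7 16 0 18 (-1) (-1) 0 3, ce 7 17 2 18 (-1) (-1) 2 3,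
   ce 8 10 6 9 (-1) (-2) 2 1, ce 8 11 0 10 (-1) (-1) 0 3, ce 8 12 6 10 (-1) (-1) 2 1,
   ce 8 13 12 14 (-1) (-1) 1 1, ce 8 14 1 6 (-1) (-1) 0 2, ce 8 15 14 16 (-1) (-1) 1 1,
   ce 8 16 6 18 (-1) (-1) 2 1, ce 8 17 0 18 (-1) (-1) 0 3, ce 8 18 6 7 (-1) (-2) 2 1,
   ce 9 11 1 10 (-1) (-1) 2 3, ce 9 12 0 10 (-1) (-1) 0 3, ce 9 13 11 14 (-1) (-1) 1 1,
   ce 9 14 0 10 (-1) (-1) 0 2, ce 9 15 0 12 (-1) (-1) 0 1, ce 9 16 8 10 (-1) (-1) 1 1,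
   ce 9 17 7 10 (-1) (-1) 1 1, ce 9 18 3 10 (-1) (-1) 2 1, ce 10 12 6 11 (-2) (-1) 2 1,
   ce 10 13 5 14 (-1) (-1) 2 1, ce 10 14 0 12 (-1) (-1) 0 1, ce 10 15 0 14 (-1) (-1) 0 2,
   ce 10 16 0 6 (-1) (-1) 0 2, ce 10 17 0 18 (-1) (-1) 0 2, ce 10 18 0 8 (-1) (-1) 0 1,
   ce 11 13 0 5 (-1) (-1) 0 4, ce 11 14 5 10 (-1) (-1) 2 1, ce 11 15 10 13 (-1) (-1) 1 1,
   ce 11 16 10 12 (-1) (-1) 1 1, ce 11 17 0 8 (-1) (-1) 0 1, ce 11 18 0 10 (-1) (-1) 0 2,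
   ce 12 14 6 13 (-1) (-2) 2 1, ce 12 15 0 14 (-1) (-1) 0 3, ce 12 16 6 14 (-1) (-1) 2 1,
   ce 12 17 16 18 (-1) (-1) 1 1, ce 12 18 0 6 (-1) (-1) 0 2, ce 13 15 0 14 (-1) (-1) 2 3,
   ce 13 16 0 14 (-1) (-1) 0 3, ce 13 17 15 18 (-1) (-1) 1 1, ce 13 18 0 14 (-1) (-1) 0 2,
   ce 14 16 6 15 (-2) (-1) 2 1, ce 14 17 4 18 (-1) (-1) 2 1, ce 14 18 0 16 (-1) (-1) 0 1,
   ce 15 17 0 4 (-1) (-1) 0 4, ce 15 18 4 14 (-1) (-1) 2 1, ce 16 18 6 17 (-1) (-2) 2 1]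

/-- Adjacency of facets. -/
def adjP (i j : Fin 19) : Prop := (adjM i).testBit j = true

instance : DecidableRel adjP := fun i j => inferInstanceAs (Decidable ((adjM i).testBit j = true))

theorem adjP_symm : ∀ i j, adjP i j → adjP j i := by decide +kernel

theorem adjP_irrefl : ∀ i, ¬ adjP i i := by decide +kernel

/-- The affine function defining the facet `v`. -/
def ell (v : Fin 19) (u : E3) : ℝ := (nc v : ℝ) - ((na v 0 : ℝ) * u 0 + (na v 1 : ℝ) * u 1 +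
  (na v 2 : ℝ) * u 2)

/-- The polytope. -/
def PP : Set E3 := {u | ∀ v, 0 ≤ ell v u}

/-- Active facets at a point. -/
def act (u : E3) : Set (Fin 19) := {v | ell v u = 0}

/-! ### Disjointness of non-adjacent facets -/

def certOK (e : Cert) : Prop :=
  0 ≤ e.c ∧ 0 ≤ e.d ∧
  (e.a * na e.i 0 + e.b * na e.j 0 + e.c * na e.k 0 + e.d * na e.l 0 = 0) ∧
  (e.a * na e.i 1 + e.b * na e.j 1 + e.c * na e.k 1 + e.d * na e.l 1 = 0) ∧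
  (e.a * na e.i 2 + e.b * na e.j 2 + e.c * na e.k 2 + e.d * na e.l 2 = 0) ∧
  (e.a * nc e.i + e.b * nc e.j + e.c * nc e.k + e.d * nc e.l < 0)

instance : DecidablePred certOK := fun e => by
  unfold certOK
  infer_instance

theorem certs_ok : ∀ e ∈ certs, certOK e := by decide +kernel

theorem certs_all : ∀ i j : Fin 19, i < j → ¬ adjP i j →
    ∃ e ∈ certs, e.i = i ∧ e.j = j := by decide +kernel

theorem adj_of_act {u : E3} (hu : u ∈ PP) {i j : Fin 19} (hij : i ≠ j) (hi : i ∈ act u)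
    (hj : j ∈ act u) : adjP i j := by
  wlog hlt : i < j generalizing i j with H
  · exact adjP_symm _ _ (H hij.symm hj hi (lt_of_le_of_ne (not_lt.mp hlt) hij.symm))
  by_contra hadj
  obtain ⟨⟨i', j', k, l, a, b, c, d⟩, he, h1, h2⟩ := certs_all i j hlt hadj
  have hc := certs_ok _ he
  simp only at h1 h2
  subst h1 h2
  obtain ⟨hc0, hd0, h0, h1, h2, h3⟩ := hc
  simp only at hc0 hd0 h0 h1 h2 h3
  have hk := hu k
  have hl := hu l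
  have hi' : ell i' u = 0 := hi
  have hj' : ell j' u = 0 := hj
  have key : (a : ℝ) * ell i' u + b * ell j' u + c * ell k u + d * ell l u < 0 := by
    have e0 : (a : ℝ) * na i' 0 + b * na j' 0 + c * na k 0 + d * na l 0 = 0 := by exact_mod_cast h0
    have e1 : (a : ℝ) * na i' 1 + b * na j' 1 + c * na k 1 + d * na l 1 = 0 := by exact_mod_cast h1
    have e2 : (a : ℝ) * na i' 2 + b * na j' 2 + c * na k 2 + d * na l 2 = 0 := by exact_mod_cast h2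
    have e3 : (a : ℝ) * nc i' + b * nc j' + c * nc k + d * nc l < 0 := by exact_mod_cast h3
    have : (a : ℝ) * ell i' u + b * ell j' u + c * ell k u + d * ell l u =
        ((a : ℝ) * nc i' + b * nc j' + c * nc k + d * nc l) -
        (((a : ℝ) * na i' 0 + b * na j' 0 + c * na k 0 + d * na l 0) * u 0 +
        ((a : ℝ) * na i' 1 + b * na j' 1 + c * na k 1 + d * na l 1) * u 1 +
        ((a : ℝ) * na i' 2 + b * na j' 2 + c * na k 2 + d * na l 2) * u 2) := by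
      unfold ell; ring
    rw [this, e0, e1, e2]
    linarith
  rw [hi', hj'] at key
  have h5 : 0 ≤ (c : ℝ) * ell k u := mul_nonneg (by exact_mod_cast hc0) hk
  have h6 : 0 ≤ (d : ℝ) * ell l u := mul_nonneg (by exact_mod_cast hd0) hl
  linarith

/-! ### Cliques are contained in vertex triples -/

theorem clique1 : ∀ i : Fin 19, ∃ t, ∃ m, tri t m = i := by decide +kernel

theorem clique2 : ∀ i j : Fin 19, adjP i j → ∃ t, (∃ m, tri t m = i) ∧ (∃ m, tri t m = j) := by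
  decide +kernel

theorem clique3 : ∀ i j k : Fin 19, adjP i j → adjP i k → adjP j k →
    ∃ t, (∃ m, tri t m = i) ∧ (∃ m, tri t m = j) ∧ (∃ m, tri t m = k) := by
  decide +kernel

theorem clique4 : ∀ i j k : Fin 19, adjP i j → adjP i k → adjP j k → ∀ l, adjP i l → adjP j l →
    ¬ adjP k l := by
  decide +kernel

theorem clique_sub {s : Set (Fin 19)} (hs : ∀ i ∈ s, ∀ j ∈ s, i ≠ j → adjP i j) :
    ∃ t, ∀ i ∈ s, ∃ m, tri t m = i := by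
  by_cases h1 : ∃ i, i ∈ s
  swap
  · exact ⟨0, fun i hi => absurd ⟨i, hi⟩ h1⟩
  obtain ⟨i, hi⟩ := h1
  by_cases h2 : ∃ j ∈ s, j ≠ i
  swap
  · push Not at h2
    obtain ⟨t, ht⟩ := clique1 i
    exact ⟨t, fun j hj => by rw [h2 j hj]; exact ht⟩
  obtain ⟨j, hj, hji⟩ := h2
  have aij := hs i hi j hj hji.symm
  by_cases h3 : ∃ k ∈ s, k ≠ i ∧ k ≠ j
  swap
  · push Not at h3
    obtain ⟨t, ht, ht'⟩ := clique2 i j aij
    refine ⟨t, fun k hk => ?_⟩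
    by_cases hki : k = i
    · rw [hki]; exact ht
    · rw [h3 k hk hki]; exact ht'
  obtain ⟨k, hk, hki, hkj⟩ := h3
  have aik := hs i hi k hk hki.symm
  have ajk := hs j hj k hk hkj.symm
  obtain ⟨t, ht1, ht2, ht3⟩ := clique3 i j k aij aik ajk
  refine ⟨t, fun l hl => ?_⟩
  by_cases hli : l = i
  · rw [hli]; exact ht1
  by_cases hlj : l = j
  · rw [hlj]; exact ht2
  by_cases hlk : l = k
  · rw [hlk]; exact ht3
  exact absurd (hs k hk l hl (Ne.symm hlk)) (clique4 i j k aij aik ajk l (hs i hi l hl (Ne.symm hli))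
    (hs j hj l hl (Ne.symm hlj)))

theorem act_sub {u : E3} (hu : u ∈ PP) : ∃ t, ∀ i ∈ act u, ∃ m, tri t m = i :=
  clique_sub fun _ hi _ hj hij => adj_of_act hu hij hi hj

end Pool.Agent.H75.AX
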