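import Pool.Agent.H75.AX.AEDefs
import Pool.Agent.H75.AX.Defs

/-!
Target statements (specifications) for the sub-tasks. Nothing here is proved; never import this
file in a hand-in.
-/

set_option autoImplicit false

open scoped Topology InnerProductSpace

noncomputable section

namespace Pool.Agent.H75.AX.Spec

/-! ### J1: absolute extensors -/

def J1_union : Prop := ∀ (Y : Type) [TopologicalSpace Y] (S T : Set Y), IsClosed S → IsClosed T →
  AE S → AE T → AE ↥(S ∩ T) → AE ↥(S ∪ T)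

def J1_convex : Prop := ∀ (E : Type) [NormedAddCommGroup E] [InnerProductSpace ℝ E]
  [FiniteDimensional ℝ E] (C : Set E), Convex ℝ C → IsClosed C → C.Nonempty → AE C

def J1_homeo : Prop := ∀ (Y Y' : Type) [TopologicalSpace Y] [TopologicalSpace Y'],
  (Y ≃ₜ Y') → AE Y → AE Y'

/-! ### J4: homotopy equivalence of basic constructions over mirrored spaces with the same nerve -/

def J4 : Prop := ∀ (I G K K' X X' : Type) [Fintype I] [Group G] [MetricSpace K] [CompactSpace K]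
  [MetricSpace K'] [CompactSpace K'] [TopologicalSpace X] [TopologicalSpace X']
  (adj : I → I → Prop) (g : I → G) (F : I → Set K) (F' : I → Set K') (κ : G → K → X)
  (κ' : G → K' → X'),
  (∀ i j, adj i j → adj j i) → (∀ i, ¬ adj i i) →
  Mirrored adj F → Mirrored adj F' → IsBC g F κ → IsBC g F' κ' →
  Nonempty (ContinuousMap.HomotopyEquiv X X')

/-! ### J2: right-angled Coxeter groups -/

/-- Existence of a right-angled Coxeter group with a length function. -/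
def J2 : Prop := ∀ (I : Type) [Fintype I] (adj : I → I → Prop),
  (∀ i j, adj i j → adj j i) → (∀ i, ¬ adj i i) →
  ∃ (W : Type) (_ : Group W) (s : I → W) (len : W → ℕ),
    Subgroup.closure (Set.range s) = ⊤ ∧
    (∀ i, s i * s i = 1) ∧ (∀ i j, adj i j → s i * s j = s j * s i) ∧
    (∀ (G : Type) [Group G] (g : I → G), (∀ i, g i * g i = 1) →
      (∀ i j, adj i j → g i * g j = g j * g i) → ∃ φ : W →* G, ∀ i, φ (s i) = g i) ∧
    (len 1 = 0) ∧ (∀ n, {w | len w ≤ n}.Finite) ∧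
    (∀ w i, len (w * s i) = len w + 1 ∨ len (w * s i) + 1 = len w) ∧
    -- descents form a clique
    (∀ w i j, i ≠ j → len (w * s i) < len w → len (w * s j) < len w → adj i j) ∧
    -- commuting generators do not change each other's descent status
    (∀ w i j, adj i j → (len (w * s j * s i) < len (w * s j) ↔ len (w * s i) < len w))

/-! ### J3: asphericity -/

def J3 : Prop := ∀ (I G K X : Type) [Fintype I] [Group G] [MetricSpace K] [CompactSpace K]
  [TopologicalSpace X] (adj : I → I → Prop) (g : I → G) (F : I → Set K) (κ : G → K → X),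
  (∀ i j, adj i j → adj j i) → (∀ i, ¬ adj i i) →
  (∀ i, g i * g i = 1) → (∀ i j, adj i j → g i * g j = g j * g i) →
  (∀ l : List I, l.Nodup → l.Pairwise adj → (l.map g).prod = 1 → l = []) →
  Subgroup.closure (Set.range g) = ⊤ →
  Mirrored adj F → IsBC g F κ →
  ∀ n : ℕ, 2 ≤ n → ∀ x : X, Subsingleton (HomotopyGroup.Pi n X x)

/-! ### J5, J6: the metric -/

/-- Second-order data of a compact `n`-dimensional submanifold `M` of a Euclidean space: orthogonal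
projections `Pi x` to the tangent spaces and a field `Q` of bilinear maps such that geodesics are
the solutions of `γ'' = Q(γ)(γ', γ')`. -/
structure Geom {E : Type} [NormedAddCommGroup E] [InnerProductSpace ℝ E] (M : Set E) (n : ℕ)
    (Pi : E → E →L[ℝ] E) (Q : E → E →L[ℝ] E →L[ℝ] E) (C r : ℝ) : Prop where
  compact : IsCompact M
  conn : IsConnected M
  C_pos : 0 < C
  r_pos : 0 < r
  idem : ∀ x ∈ M, ∀ v, Pi x (Pi x v) = Pi x v
  symm : ∀ x ∈ M, ∀ v w, ⟪Pi x v, w⟫_ℝ = ⟪v, Pi x w⟫_ℝ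
  rank : ∀ x ∈ M, Module.finrank ℝ (LinearMap.range (Pi x : E →ₗ[ℝ] E)) = n
  lip_Pi : ∀ x ∈ M, ∀ y ∈ M, ‖Pi x - Pi y‖ ≤ C * ‖x - y‖
  chord : ∀ x ∈ M, ∀ y ∈ M, ‖(y - x) - Pi x (y - x)‖ ≤ C * ‖y - x‖ ^ 2
  normal : ∀ x ∈ M, ∀ v w, Pi x (Q x v w) = 0
  lip_Q : ∀ x ∈ M, ∀ y ∈ M, ‖Q x - Q y‖ ≤ C * ‖x - y‖
  bound_Q : ∀ x ∈ M, ‖Q x‖ ≤ C
  exist : ∀ x ∈ M, ∀ v, Pi x v = v → ‖v‖ ≤ r → ∃ γ γ' : ℝ → E, γ 0 = x ∧ γ' 0 = v ∧
    ∀ t ∈ Set.Icc (0 : ℝ) 1, γ t ∈ M ∧ HasDerivWithinAt γ (γ' t) (Set.Icc 0 1) t ∧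
      HasDerivWithinAt γ' (Q (γ t) (γ' t) (γ' t)) (Set.Icc 0 1) t ∧
      Pi (γ t) (γ' t) = γ' t ∧ ‖γ' t‖ = ‖v‖

/-- J5: a compact connected regular level set carries such data. -/
def J5 : Prop := ∀ (E E' : Type) [NormedAddCommGroup E] [InnerProductSpace ℝ E]
  [FiniteDimensional ℝ E] [NormedAddCommGroup E'] [InnerProductSpace ℝ E']
  [FiniteDimensional ℝ E'] (Φ : E → E') (M : Set E) (n : ℕ),
  ContDiff ℝ 3 Φ → M = Φ ⁻¹' {0} → IsCompact M → IsConnected M →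
  (∀ x ∈ M, Function.Surjective (fderiv ℝ Φ x)) →
  Module.finrank ℝ E = n + Module.finrank ℝ E' →
  ∃ Pi Q C r, Geom M n Pi Q C r

/-- J6: the intrinsic metric on the quotient of `M` by a finite group `H` of linear isometries. -/
def J6 : Prop := ∀ (E : Type) [NormedAddCommGroup E] [InnerProductSpace ℝ E]
  [FiniteDimensional ℝ E] (M : Set E) (Pi : E → E →L[ℝ] E)
  (Q : E → E →L[ℝ] E →L[ℝ] E) (C r : ℝ), Geom M 3 Pi Q C r →
  ∀ (H : Type) [Group H] [Finite H] (ρ : H →* (E ≃ₗᵢ[ℝ] E)), (∀ h, ∀ x ∈ M, ρ h x ∈ M) →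
  ∃ (X : Type) (_ : MetricSpace X) (π : M → X), Continuous π ∧ Function.Surjective π ∧
    (∀ x y : M, π x = π y ↔ ∃ h : H, ρ h x = y) ∧
    CompactSpace X ∧ ConnectedSpace X ∧ IsLengthSpace X ∧ CurvatureBoundedBelow X ∧
    ((∃ x ∈ M, ∀ h, ρ h x = x → h = 1) → dimH (Set.univ : Set X) = 3) ∧
    -- free points have Euclidean neighbourhoods
    (∀ x : M, (∀ h, ρ h x = x → h = 1) →
      ∃ U : Set X, IsOpen U ∧ π x ∈ U ∧ Nonempty (U ≃ₜ EuclideanSpace ℝ (Fin 3))) ∧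
    -- points with stabilizer `{1, h₀}`, `h₀` acting by `-1` on the tangent space
    (∀ x : M, ∀ h₀ : H, h₀ ≠ 1 → (∀ h, ρ h x = x ↔ h = 1 ∨ h = h₀) →
      (∀ v, Pi x v = v → ρ h₀ v = -v) →
      ∃ U : Set X, IsOpen U ∧ π x ∈ U ∧ Nonempty (U ≃ₜ ConeRP))

end Pool.Agent.H75.AX.Spec
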